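import Mathlib

/-! Positivity certificates for exponential sums. -/

set_option autoImplicit false

namespace Pool.Agent.MP_560646_mp.One

open Real Set

noncomputable def ev (L : List (ℝ × ℝ)) (t : ℝ) : ℝ := (L.map fun p => p.1 * exp (p.2 * t)).sum

def stp (r : ℝ) (L : List (ℝ × ℝ)) : List (ℝ × ℝ) := L.map fun p => (p.1 * (p.2 - r), p.2)

def NC : ℕ → List (ℝ × ℝ) → Prop
  | _, [] => True
  | 0, _ :: _ => False
  | k + 1, p :: L => 0 ≤ p.1 + (L.map Prod.fst).sum ∧ NC k (stp p.2 L)

theorem ev_deriv (r : ℝ) (L : List (ℝ × ℝ)) (t : ℝ) :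
    HasDerivAt (fun t => exp (-r * t) * ev L t) (exp (-r * t) * ev (stp r L) t) t := by
  induction L with
  | nil => simpa [ev, stp] using hasDerivAt_const t (0 : ℝ)
  | cons p L ih =>
    have a := (((hasDerivAt_id' t).const_mul (-r)).exp.mul
      (((hasDerivAt_id' t).const_mul p.2).exp.const_mul p.1)).add ih
    simp only [ev, stp, List.map_cons, List.sum_cons, mul_add] at a ⊢
    exact a.congr_deriv (by ring)

theorem nc_ev : ∀ (k : ℕ) (L : List (ℝ × ℝ)), NC k L → ∀ t, 0 ≤ t → 0 ≤ ev L t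
  | _, [], _, _, _ => by simp [ev]
  | 0, _ :: _, h, _, _ => h.elim
  | k + 1, p :: L, h, t, ht => by
    have d := ev_deriv p.2 (p :: L)
    have m := monotoneOn_of_hasDerivWithinAt_nonneg (convex_Ici (0 : ℝ))
      (fun s _ => (d s).continuousAt.continuousWithinAt) (fun s _ => (d s).hasDerivWithinAt)
      (fun s hs => mul_nonneg (exp_pos _).le (by
        have := nc_ev k _ h.2 s (interior_subset hs)
        simpa [ev, stp] using this)) (mem_Ici.2 le_rfl) ht ht
    have z : ev (p :: L) 0 = p.1 + (L.map Prod.fst).sum := by simp [ev]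
    simp only [mul_zero, exp_zero, one_mul, z] at m
    exact nonneg_of_mul_nonneg_right (h.1.trans m) (exp_pos _)

theorem ex_pow {q : ℝ} (hq : 0 < q) (m : ℝ) (a b : ℕ) :
    exp (-((a : ℝ) + (b : ℝ) * m) * -log q) = q ^ a * (q ^ m) ^ b := by
  rw [neg_mul_neg, add_mul, exp_add, exp_nat_mul, exp_log hq, mul_assoc, exp_nat_mul,
    rpow_def_of_pos hq, mul_comm m]

end Pool.Agent.MP_560646_mp.One
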