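import Pool.Agent.MP_560646_mp.Hz.Ct
import Pool.Agent.MP_560646_mp.Hz.Ec

/-! The four inequalities in one variable. -/

set_option autoImplicit false

namespace Pool.Agent.MP_560646_mp.One

open Real Set

theorem j0 {z : ℝ} (hz : 0 ≤ z) : NC 6
    [((-1), -(((0 : ℕ) : ℝ) + ((2 : ℕ) : ℝ) * (z + 3))), (2 + 1 * z, -(((2 : ℕ) : ℝ) + ((1 : ℕ)
     : ℝ) * (z + 3))), ((-2) + (-1) * z, -(((0 : ℕ) : ℝ) + ((1 : ℕ) : ℝ) * (z + 3))), (1, -(((5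
     : ℕ) : ℝ) + ((0 : ℕ) : ℝ) * (z + 3))), ((-3), -(((4 : ℕ) : ℝ) + ((0 : ℕ) : ℝ) * (z + 3))),
     (3, -(((3 : ℕ) : ℝ) + ((0 : ℕ) : ℝ) * (z + 3)))] := by
  simp only [NC, stp, List.map, List.sum_cons, List.sum_nil]
  refine ⟨?_, ?_, ?_, ?_, ?_, ?_, trivial⟩
  · exact le_of_eq (by push_cast; ring)
  · exact le_of_eq (by push_cast; ring)
  · exact le_of_eq (by push_cast; ring)
  · exact le_of_le_of_eq (by positivity : 0 ≤ 6 + 22 * z + 12 * z ^ 2 + 2 * z ^ 3)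
      (by push_cast; ring)
  · exact le_of_le_of_eq (by positivity : 0 ≤ 6 + 42 * z + 36 * z ^ 2 + 6 * z ^ 3)
      (by push_cast; ring)
  · exact le_of_le_of_eq (by positivity : 0 ≤ 36 * z + 42 * z ^ 2 + 12 * z ^ 3)
      (by push_cast; ring)

theorem j1 {z : ℝ} (hz : 0 ≤ z) : NC 5
    [(2, -(((0 : ℕ) : ℝ) + ((3 : ℕ) : ℝ) * (z + 3))), ((-6) + (-5) * z + (-1) * z ^ 2, -(((2 :
     ℕ) : ℝ) + ((2 : ℕ) : ℝ) * (z + 3))), (14 + 9 * z + 1 * z ^ 2, -(((0 : ℕ) : ℝ) + ((2 : ℕ) :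
     ℝ) * (z + 3))), ((-12) + (-7) * z + (-1) * z ^ 2, -(((2 : ℕ) : ℝ) + ((1 : ℕ) : ℝ) * (z +
     3))), (2 + 3 * z + 1 * z ^ 2, -(((0 : ℕ) : ℝ) + ((1 : ℕ) : ℝ) * (z + 3)))] := by
  simp only [NC, stp, List.map, List.sum_cons, List.sum_nil]
  refine ⟨?_, ?_, ?_, ?_, ?_, trivial⟩
  · exact le_of_eq (by push_cast; ring)
  · exact le_of_eq (by push_cast; ring)
  · exact le_of_eq (by push_cast; ring)
  · exact le_of_le_of_eq (by positivity : 0 ≤ 36 + 78 * z + 58 * z ^ 2 + 18 * z ^ 3 + 2 * z ^ 4)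
      (by push_cast; ring)
  · exact le_of_le_of_eq (by positivity : 0 ≤ 360 + 852 * z + 736 * z ^ 2 + 296 * z ^ 3 + 56 * z ^ 4 + 4 * z ^ 5)
      (by push_cast; ring)

theorem j2 {z : ℝ} (hz : 0 ≤ z) : NC 15
    [((-4) + (-2) * z, -(((3 : ℕ) : ℝ) + ((4 : ℕ) : ℝ) * (z + 3))), (4 + 2 * z, -(((2 : ℕ) : ℝ)
     + ((4 : ℕ) : ℝ) * (z + 3))), ((-18) + (-15) * z + (-3) * z ^ 2, -(((4 : ℕ) : ℝ) + ((3 : ℕ)
     : ℝ) * (z + 3))), ((-3) + (-2) * z + (-1) * z ^ 2, -(((3 : ℕ) : ℝ) + ((3 : ℕ) : ℝ) * (z +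
     3))), (24 + 15 * z + 3 * z ^ 2, -(((2 : ℕ) : ℝ) + ((3 : ℕ) : ℝ) * (z + 3))), (33 + 14 * z +
     1 * z ^ 2, -(((1 : ℕ) : ℝ) + ((3 : ℕ) : ℝ) * (z + 3))), ((-9) + (-3) * z, -(((4 : ℕ) : ℝ) +
     ((2 : ℕ) : ℝ) * (z + 3))), ((-18) + (-20) * z + (-4) * z ^ 2, -(((3 : ℕ) : ℝ) + ((2 : ℕ) :
     ℝ) * (z + 3))), (12 + 6 * z, -(((2 : ℕ) : ℝ) + ((2 : ℕ) : ℝ) * (z + 3))), (6 + 14 * z + 4 *
     z ^ 2, -(((1 : ℕ) : ℝ) + ((2 : ℕ) : ℝ) * (z + 3))), (9 + 3 * z, -(((0 : ℕ) : ℝ) + ((2 : ℕ)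
     : ℝ) * (z + 3))), ((-29) + (-12) * z + (-1) * z ^ 2, -(((3 : ℕ) : ℝ) + ((1 : ℕ) : ℝ) * (z +
     3))), ((-40) + (-23) * z + (-3) * z ^ 2, -(((2 : ℕ) : ℝ) + ((1 : ℕ) : ℝ) * (z + 3))), (15 +
     8 * z + 1 * z ^ 2, -(((1 : ℕ) : ℝ) + ((1 : ℕ) : ℝ) * (z + 3))), (18 + 15 * z + 3 * z ^ 2,
     -(((0 : ℕ) : ℝ) + ((1 : ℕ) : ℝ) * (z + 3)))] := by
  simp only [NC, stp, List.map, List.sum_cons, List.sum_nil]
  refine ⟨?_, ?_, ?_, ?_, ?_, ?_, ?_, ?_, ?_, ?_, ?_, ?_, ?_, ?_, ?_, trivial⟩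
  · exact le_of_eq (by push_cast; ring)
  · exact le_of_eq (by push_cast; ring)
  · exact le_of_eq (by push_cast; ring)
  · exact le_of_le_of_eq (by positivity : 0 ≤ 4104 + 4896 * z + 2112 * z ^ 2 + 384 * z ^ 3 + 24 * z ^ 4)
      (by push_cast; ring)
  · exact le_of_le_of_eq (by positivity : 0 ≤ 87696 + 128448 * z + 73680 * z ^ 2 + 20592 * z ^ 3 + 2784 * z ^ 4 + 144 * z ^ 5)
      (by push_cast; ring)
  · exact le_of_le_of_eq (by positivity : 0 ≤ 1090800 + 1907496 * z + 1370016 * z ^ 2 + 516368 * z ^ 3 + 107440 * z ^ 4 + 11656 * z ^ 5 +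
      512 * z ^ 6)
      (by push_cast; ring)
  · exact le_of_le_of_eq (by positivity : 0 ≤ 9875520 + 20465568 * z + 17986320 * z ^ 2 + 8683056 * z ^ 3 + 2483728 * z ^ 4 + 420176 * z
      ^ 5 + 38816 * z ^ 6 + 1504 * z ^ 7)
      (by push_cast; ring)
  · exact le_of_le_of_eq (by positivity : 0 ≤ 79155360 + 180504504 * z + 178253892 * z ^ 2 + 99552536 * z ^ 3 + 34379440 * z ^ 4 +
      7513272 * z ^ 5 + 1013820 * z ^ 6 + 77128 * z ^ 7 + 2528 * z ^ 8)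
      (by push_cast; ring)
  · exact le_of_le_of_eq (by positivity : 0 ≤ 518011200 + 1294626672 * z + 1424670984 * z ^ 2 + 906304368 * z ^ 3 + 367356880 * z ^ 4 +
      98390272 * z ^ 5 + 17409480 * z ^ 6 + 1961600 * z ^ 7 + 127616 * z ^ 8 + 3648 * z ^ 9)
      (by push_cast; ring)
  · exact le_of_le_of_eq (by positivity : 0 ≤ 2722325760 + 7468549056 * z + 9148038048 * z ^ 2 + 6592063488 * z ^ 3 + 3096237616 * z ^ 4
      + 990793808 * z ^ 5 + 218793376 * z ^ 6 + 32921360 * z ^ 7 + 3229360 * z ^ 8 + 186368 * z ^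
      9 + 4800 * z ^ 10)
      (by push_cast; ring)
  · exact le_of_le_of_eq (by positivity : 0 ≤ 11100499200 + 33662257344 * z + 46116425952 * z ^ 2 + 37703661792 * z ^ 3 + 20452780704 * z
      ^ 4 + 7733161888 * z ^ 5 + 2080223072 * z ^ 6 + 398172736 * z ^ 7 + 53141696 * z ^ 8 +
      4708288 * z ^ 9 + 249056 * z ^ 10 + 5952 * z ^ 11)
      (by push_cast; ring)
  · exact le_of_le_of_eq (by positivity : 0 ≤ 33043852800 + 112414832640 * z + 174436169760 * z ^ 2 + 163373270880 * z ^ 3 + 102922683144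
      * z ^ 4 + 45970232576 * z ^ 5 + 14932375088 * z ^ 6 + 3555050032 * z ^ 7 + 615699512 * z ^
      8 + 75636784 * z ^ 9 + 6253232 * z ^ 10 + 312128 * z ^ 11 + 7104 * z ^ 12)
      (by push_cast; ring)
  · exact le_of_le_of_eq (by positivity : 0 ≤ 96990566400 + 331177973760 * z + 516814321536 * z ^ 2 + 488160631488 * z ^ 3 + 311401933440
      * z ^ 4 + 141652146784 * z ^ 5 + 47256778672 * z ^ 6 + 11700309872 * z ^ 7 + 2148076096 * z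
      ^ 8 + 288454784 * z ^ 9 + 27488752 * z ^ 10 + 1755760 * z ^ 11 + 67104 * z ^ 12 + 1152 * z
      ^ 13)
      (by push_cast; ring)
  · exact le_of_le_of_eq (by positivity : 0 ≤ 188247628800 + 643060062720 * z + 1004638756032 * z ^ 2 + 950890771008 * z ^ 3 +
      608604439056 * z ^ 4 + 278245417840 * z ^ 5 + 93509900656 * z ^ 6 + 23394394064 * z ^ 7 +
      4357782448 * z ^ 8 + 597012560 * z ^ 9 + 58476112 * z ^ 10 + 3878128 * z ^ 11 + 156096 * z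
      ^ 12 + 2880 * z ^ 13)
      (by push_cast; ring)
  · exact le_of_le_of_eq (by positivity : 0 ≤ 181062604800 + 616853905920 * z + 960840600192 * z ^ 2 + 906466295520 * z ^ 3 +
      578086760736 * z ^ 4 + 263248981992 * z ^ 5 + 88085766816 * z ^ 6 + 21932133480 * z ^ 7 +
      4063942368 * z ^ 8 + 553539096 * z ^ 9 + 53872992 * z ^ 10 + 3547800 * z ^ 11 + 141696 * z
      ^ 12 + 2592 * z ^ 13)
      (by push_cast; ring)

theorem j3 {z : ℝ} (hz : 0 ≤ z) : NC 16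
    [(2 + 3 * z + 1 * z ^ 2, -(((5 : ℕ) : ℝ) + ((3 : ℕ) : ℝ) * (z + 3))), ((-17) + (-11) * z +
     (-2) * z ^ 2, -(((3 : ℕ) : ℝ) + ((3 : ℕ) : ℝ) * (z + 3))), ((-5) + (-1) * z, -(((2 : ℕ) :
     ℝ) + ((3 : ℕ) : ℝ) * (z + 3))), (20 + 14 * z + 2 * z ^ 2, -(((5 : ℕ) : ℝ) + ((2 : ℕ) : ℝ) *
     (z + 3))), (15 + 8 * z + 1 * z ^ 2, -(((1 : ℕ) : ℝ) + ((3 : ℕ) : ℝ) * (z + 3))), (12 + 10 *
     z + 2 * z ^ 2, -(((4 : ℕ) : ℝ) + ((2 : ℕ) : ℝ) * (z + 3))), (5 + 1 * z, -(((0 : ℕ) : ℝ) +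
     ((3 : ℕ) : ℝ) * (z + 3))), ((-32) + (-24) * z + (-4) * z ^ 2, -(((3 : ℕ) : ℝ) + ((2 : ℕ) :
     ℝ) * (z + 3))), ((-32) + (-24) * z + (-4) * z ^ 2, -(((2 : ℕ) : ℝ) + ((2 : ℕ) : ℝ) * (z +
     3))), (5 + 1 * z, -(((5 : ℕ) : ℝ) + ((1 : ℕ) : ℝ) * (z + 3))), (12 + 10 * z + 2 * z ^ 2,
     -(((1 : ℕ) : ℝ) + ((2 : ℕ) : ℝ) * (z + 3))), (15 + 8 * z + 1 * z ^ 2, -(((4 : ℕ) : ℝ) + ((1
     : ℕ) : ℝ) * (z + 3))), (20 + 14 * z + 2 * z ^ 2, -(((0 : ℕ) : ℝ) + ((2 : ℕ) : ℝ) * (z +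
     3))), ((-5) + (-1) * z, -(((3 : ℕ) : ℝ) + ((1 : ℕ) : ℝ) * (z + 3))), ((-17) + (-11) * z +
     (-2) * z ^ 2, -(((2 : ℕ) : ℝ) + ((1 : ℕ) : ℝ) * (z + 3))), (2 + 3 * z + 1 * z ^ 2, -(((0 :
     ℕ) : ℝ) + ((1 : ℕ) : ℝ) * (z + 3)))] := by
  simp only [NC, stp, List.map, List.sum_cons, List.sum_nil]
  refine ⟨?_, ?_, ?_, ?_, ?_, ?_, ?_, ?_, ?_, ?_, ?_, ?_, ?_, ?_, ?_, ?_, trivial⟩
  · exact le_of_eq (by push_cast; ring)
  · exact le_of_eq (by push_cast; ring)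
  · exact le_of_eq (by push_cast; ring)
  · exact le_of_eq (by push_cast; ring)
  · exact le_of_eq (by push_cast; ring)
  · exact le_of_eq (by push_cast; ring)
  · exact le_of_le_of_eq (by positivity : 0 ≤ 56160 + 141552 * z + 135264 * z ^ 2 + 63840 * z ^ 3 + 15840 * z ^ 4 + 1968 * z ^ 5 + 96 * z
      ^ 6)
      (by push_cast; ring)
  · exact le_of_le_of_eq (by positivity : 0 ≤ 982800 + 2757960 * z + 3074880 * z ^ 2 + 1793520 * z ^ 3 + 596400 * z ^ 4 + 113640 * z ^ 5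
      + 11520 * z ^ 6 + 480 * z ^ 7)
      (by push_cast; ring)
  · exact le_of_le_of_eq (by positivity : 0 ≤ 10044000 + 30627360 * z + 38295192 * z ^ 2 + 26015216 * z ^ 3 + 10594384 * z ^ 4 + 2662880
      * z ^ 5 + 404728 * z ^ 6 + 34064 * z ^ 7 + 1216 * z ^ 8)
      (by push_cast; ring)
  · exact le_of_le_of_eq (by positivity : 0 ≤ 71228160 + 234598752 * z + 324935184 * z ^ 2 + 251674832 * z ^ 3 + 121137824 * z ^ 4 +
      37783168 * z ^ 5 + 7663376 * z ^ 6 + 976528 * z ^ 7 + 70976 * z ^ 8 + 2240 * z ^ 9)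
      (by push_cast; ring)
  · exact le_of_le_of_eq (by positivity : 0 ≤ 430945920 + 1447955424 * z + 2062741008 * z ^ 2 + 1661391392 * z ^ 3 + 844547488 * z ^ 4 +
      284630304 * z ^ 5 + 64632912 * z ^ 6 + 9784608 * z ^ 7 + 945792 * z ^ 8 + 52672 * z ^ 9 +
      1280 * z ^ 10)
      (by push_cast; ring)
  · exact le_of_le_of_eq (by positivity : 0 ≤ 1968105600 + 7112391840 * z + 11105849664 * z ^ 2 + 9999804264 * z ^ 3 + 5810166672 * z ^ 4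
      + 2298312048 * z ^ 5 + 633570624 * z ^ 6 + 121941000 * z ^ 7 + 16068528 * z ^ 8 + 1379712 *
      z ^ 9 + 69312 * z ^ 10 + 1536 * z ^ 11)
      (by push_cast; ring)
  · exact le_of_le_of_eq (by positivity : 0 ≤ 8396524800 + 30560760000 * z + 48201650208 * z ^ 2 + 44010438480 * z ^ 3 + 26069567368 * z
      ^ 4 + 10592715888 * z ^ 5 + 3032285456 * z ^ 6 + 615985488 * z ^ 7 + 87902376 * z ^ 8 +
      8542512 * z ^ 9 + 530336 * z ^ 10 + 18432 * z ^ 11 + 256 * z ^ 12)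
      (by push_cast; ring)
  · exact le_of_le_of_eq (by positivity : 0 ≤ 26268883200 + 104363743680 * z + 182738788128 * z ^ 2 + 188205115824 * z ^ 3 + 127823571816
      * z ^ 4 + 60628313848 * z ^ 5 + 20688781872 * z ^ 6 + 5142167264 * z ^ 7 + 929351016 * z ^
      8 + 120163416 * z ^ 9 + 10725600 * z ^ 10 + 617312 * z ^ 11 + 19968 * z ^ 12 + 256 * z ^ 13)
      (by push_cast; ring)
  · exact le_of_le_of_eq (by positivity : 0 ≤ 79917062400 + 318474141120 * z + 559969551648 * z ^ 2 + 579976840944 * z ^ 3 + 396914163432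
      * z ^ 4 + 190218270216 * z ^ 5 + 65835222144 * z ^ 6 + 16686659712 * z ^ 7 + 3099697416 * z
      ^ 8 + 416804328 * z ^ 9 + 39404208 * z ^ 10 + 2475744 * z ^ 11 + 92352 * z ^ 12 + 1536 * z
      ^ 13)
      (by push_cast; ring)
  · exact le_of_le_of_eq (by positivity : 0 ≤ 160944537600 + 642320824320 * z + 1131644252160 * z ^ 2 + 1175217010560 * z ^ 3 +
      807154719360 * z ^ 4 + 388679200800 * z ^ 5 + 135391349280 * z ^ 6 + 34615764480 * z ^ 7 +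
      6506470080 * z ^ 8 + 889115040 * z ^ 9 + 85942560 * z ^ 10 + 5568960 * z ^ 11 + 216960 * z
      ^ 12 + 3840 * z ^ 13)
      (by push_cast; ring)

theorem jS : JS := by
  intro m q hm hq X hX
  obtain ⟨z, rfl⟩ : ∃ z, m = z + 3 := ⟨m - 3, by ring⟩
  have hz : 0 ≤ z := by linarith
  have ht : 0 ≤ -log q := neg_nonneg.2 (log_nonpos hq.1.le hq.2.le)
  have a := nc_ev _ _ (j0 hz) _ ht
  have b := nc_ev _ _ (j1 hz) _ ht
  have c := nc_ev _ _ (j2 hz) _ ht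
  have d := nc_ev _ _ (j3 hz) _ ht
  simp only [ev, List.map, List.sum_cons, List.sum_nil, ex_pow hq.1, ← hX] at a b c d
  unfold na nb
  refine ⟨?_, ?_, ?_, ?_⟩
  · linear_combination a
  · linear_combination b
  · linear_combination c
  · linear_combination d

end Pool.Agent.MP_560646_mp.One
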