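import Pool.Agent.MP_560646_mp.Hz.Ct

set_option autoImplicit false

namespace Pool.Agent.MP_560646_mp.One

open Real Set

noncomputable def k2_rd (m q : ℝ) : ℝ := na m q (q ^ m) / (q ^ 2 * (1 - q ^ m) ^ 2)

noncomputable def k2_gd (m q : ℝ) : ℝ := nb m q (q ^ m) / (q * (1 + q * q ^ m) ^ 2)

noncomputable def k2_cd (m q : ℝ) : ℝ :=
  -((m * q ^ m * (1 + q * q ^ m) + q * ((1 - q ^ m) * ((m + 1) * q ^ m))) /
    (q * (1 + q * q ^ m) ^ 2))

theorem k2_X {m q : ℝ} (hm : 3 ≤ m) (h0 : 0 < q) (h1 : q < 1) : 0 < q ^ m ∧ 0 < 1 - q ^ m :=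
  ⟨rpow_pos_of_pos h0 m, sub_pos.2 (rpow_lt_one h0.le h1 (by linarith))⟩

theorem k2_dX (m : ℝ) {q : ℝ} (h0 : 0 < q) : HasDerivAt (fun t : ℝ => t ^ m) (m * q ^ m / q) q := by
  have := hasDerivAt_rpow_const (x := q) (p := m) (Or.inl h0.ne')
  rwa [rpow_sub_one h0.ne', ← mul_div_assoc] at this

theorem k2_drh {m q : ℝ} (hm : 3 ≤ m) (h0 : 0 < q) (h1 : q < 1) :
    HasDerivAt (rh m) (k2_rd m q) q := by
  obtain ⟨a, b⟩ := k2_X hm h0 h1
  have d := k2_dX m h0
  have := ((hasDerivAt_id' q).sub (d.div (hasDerivAt_id' q) h0.ne')).div (d.const_sub 1) b.ne'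
  refine this.congr_deriv ?_
  simp only [Pi.sub_apply, Pi.div_apply, k2_rd, na]
  field_simp
  ring

theorem k2_dgm {m q : ℝ} (hm : 3 ≤ m) (h0 : 0 < q) (h1 : q < 1) :
    HasDerivAt (gm m) (k2_gd m q) q := by
  obtain ⟨a, b⟩ := k2_X hm h0 h1
  have d := k2_dX m h0
  have c : 0 < 1 + q * q ^ m := by positivity
  have := ((hasDerivAt_id' q).add d).div (((hasDerivAt_id' q).mul d).const_add 1) c.ne'
  refine this.congr_deriv ?_
  simp only [Pi.add_apply, Pi.mul_apply, k2_gd, nb]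
  field_simp
  ring

theorem k2_dcn {m q : ℝ} (hm : 3 ≤ m) (h0 : 0 < q) (h1 : q < 1) :
    HasDerivAt (cn m) (k2_cd m q) q := by
  obtain ⟨a, b⟩ := k2_X hm h0 h1
  have d := k2_dX m h0
  have c : 0 < 1 + q * q ^ m := by positivity
  have := (d.const_sub 1).div (((hasDerivAt_id' q).mul d).const_add 1) c.ne'
  refine this.congr_deriv ?_
  simp only [Pi.mul_apply, k2_cd]
  field_simp
  ring

theorem k2_drd {m q : ℝ} (hm : 3 ≤ m) (h0 : 0 < q) (h1 : q < 1) :
    HasDerivAt (k2_rd m) (-((((m - 1) * (m - 2) * q ^ m - m * (m - 1) * q ^ 2 * q ^ m +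
      (2 * m - 2) * (q ^ m) ^ 2) * (1 - q ^ m) - 2 * m * q ^ m * na m q (q ^ m)) /
        (q ^ 3 * (1 - q ^ m) ^ 3))) q := by
  obtain ⟨a, b⟩ := k2_X hm h0 h1
  have d := k2_dX m h0
  have s := hasDerivAt_pow 2 q
  have := (((s.sub (d.const_mul (m - 1))).add ((s.const_mul (m - 1)).mul d)).sub (d.pow 2)).div
    (s.mul ((d.const_sub 1).pow 2)) (by positivity : (0 : ℝ) < q ^ 2 * (1 - q ^ m) ^ 2).ne'
  refine this.congr_deriv ?_
  simp only [Pi.sub_apply, Pi.add_apply, Pi.mul_apply, Pi.pow_apply, na]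
  norm_num
  field_simp
  ring

theorem k2_id {m q : ℝ} (hm : 3 ≤ m) (h0 : 0 < q) (h1 : q < 1) :
    (1 - q) * cn m q = 1 - gm m q ∧ (1 - q) * k2_cd m q = cn m q - k2_gd m q ∧ 0 ≤ cn m q ∧
      k2_cd m q ≤ 0 := by
  obtain ⟨a, b⟩ := k2_X hm h0 h1
  have c : 0 < 1 + q * q ^ m := by positivity
  have e : 0 < m := by linarith
  refine ⟨?_, ?_, div_nonneg b.le c.le, neg_nonpos.2 (by positivity)⟩
  · unfold cn gm
    field_simp
    ring
  · unfold cn k2_cd k2_gd nb
    field_simp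
    ring

theorem k2_pos (h : JS) {m q : ℝ} (hm : 3 ≤ m) (h0 : 0 < q) (h1 : q < 1) : 0 < k2_rd m q := by
  obtain ⟨a, b⟩ := k2_X hm h0 h1
  have c := sub_pos.2 h1
  exact div_pos (lt_of_lt_of_le (by positivity) (h m q hm ⟨h0, h1⟩ _ rfl).1) (by positivity)

theorem k2_tan (h : JS) {m q p : ℝ} (hm : 3 ≤ m) (h0 : 0 < q) (hp : q ≤ p) (h1 : p < 1) :
    k2_rd m p * (p - q) ≤ rh m p - rh m q := by
  have anti : ∀ t, q ≤ t → t ≤ p → k2_rd m p ≤ k2_rd m t := fun t a b => by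
    have := mono_ab (f := fun s => -k2_rd m s) b
      (fun s hs => (k2_drd hm (h0.trans_le (a.trans hs.1)) (hs.2.trans_lt h1)).neg) fun s hs => by
        have s0 := h0.trans_le (a.trans hs.1.le)
        have s1 := hs.2.trans h1
        obtain ⟨-, c⟩ := k2_X hm s0 s1
        rw [neg_neg]
        exact div_nonneg (h m s hm ⟨s0, s1⟩ _ rfl).2.1 (by positivity)
    linarith
  have := mono_ab (f := fun s => rh m s - k2_rd m p * s) hp
    (fun s hs => (k2_drh hm (h0.trans_le hs.1) (hs.2.trans_lt h1)).sub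
      ((hasDerivAt_id' s).const_mul _)) fun s hs => by linarith [anti s hs.1.le hs.2.le]
  linarith

theorem k2_three (h : JS) {m q : ℝ} (hm : 3 ≤ m) (h0 : 0 < q) (h1 : q < 1) :
    3 * m * k2_rd m q ≤ (m + 2) * k2_gd m q + 2 * (m - 1) * cn m q := by
  obtain ⟨a, b⟩ := k2_X hm h0 h1
  have c : 0 < 1 + q * q ^ m := by positivity
  have j := (h m q hm ⟨h0, h1⟩ _ rfl).2.2.1
  refine le_of_mul_le_mul_right ?_
    (by positivity : 0 < q ^ 2 * (1 - q ^ m) ^ 2 * (1 + q * q ^ m) ^ 2)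
  refine le_of_eq_of_le ?_ (j.trans_eq ?_)
  · unfold k2_rd
    field_simp
  · unfold k2_gd cn
    field_simp

theorem k2_four (h : JS) {m q : ℝ} (hm : 3 ≤ m) (h0 : 0 < q) (h1 : q < 1) :
    k2_rd m q * ((m + 2) * gm m q - 3 * m * rh m q + 2 * (m - 1)) ≤
      (m - 1) * (rh m q * (1 - q ^ 2) / q ^ 2 - (1 - q) ^ 2 * k2_rd m q / q) := by
  obtain ⟨a, b⟩ := k2_X hm h0 h1
  have c : 0 < 1 + q * q ^ m := by positivity
  have j := (h m q hm ⟨h0, h1⟩ _ rfl).2.2.2
  refine le_of_mul_le_mul_right ?_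
    (by positivity : 0 < q ^ 3 * (1 - q ^ m) ^ 3 * (1 + q * q ^ m))
  refine le_of_eq_of_le ?_ (j.trans_eq ?_)
  · unfold k2_rd gm rh
    field_simp
  · unfold k2_rd rh
    field_simp

theorem k2_U (h : JS) {m q p : ℝ} (hm : 3 ≤ m) (h0 : 0 < q) (hp : q ≤ p) (h1 : p < 1) :
    3 * m * (gm m q - rh m q) + 2 * (m - 1) * (1 - p) * cn m q ≤
      (m + 2) * gm m p - 3 * m * rh m p + 2 * (m - 1) := by
  have := mono_ab (f := fun s => 3 * m * (gm m s - rh m s) + 2 * (m - 1) * (1 - p) * cn m s) hp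
    (fun s hs => (((k2_dgm hm (h0.trans_le hs.1) (hs.2.trans_lt h1)).sub
      (k2_drh hm (h0.trans_le hs.1) (hs.2.trans_lt h1))).const_mul _).add
      ((k2_dcn hm (h0.trans_le hs.1) (hs.2.trans_lt h1)).const_mul _)) fun s hs => by
        have s0 := h0.trans hs.1
        have s1 := hs.2.trans h1
        obtain ⟨-, e2, -, e4⟩ := k2_id hm s0 s1
        have e5 := k2_three h hm s0 s1
        have e6 : 0 ≤ (m - 1) * ((p - s) * -k2_cd m s) :=
          mul_nonneg (by linarith) (mul_nonneg (by linarith [hs.2]) (by linarith))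
        have e7 : (m - 1) * ((1 - s) * k2_cd m s) = (m - 1) * (cn m s - k2_gd m s) := by rw [e2]
        linarith
  have e := (k2_id hm (h0.trans_le hp) h1).1
  have e' : (m - 1) * ((1 - p) * cn m p) = (m - 1) * (1 - gm m p) := by rw [e]
  linarith

theorem k2S (h : JS) : K2S := by
  intro m q p hm h0 hp h1
  refine ⟨fun hlt => ?_, ?_⟩
  · have a := k2_tan h hm h0 hp h1
    have b := mul_pos (k2_pos h hm (h0.trans_le hp) h1) (sub_pos.2 hlt)
    linarith
  · obtain ⟨e1, -, e3, -⟩ := k2_id hm h0 (hp.trans_lt h1)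
    have := mono_ab (f := fun s => -((m - 1) * ((1 - s) ^ 2 * rh m s / s)) -
        (m - 1 - 3 * m * rh m q + (2 * m + 1) * gm m q + (m - 1) * cn m q * (1 - s)) *
          (rh m s - rh m q))
      (f' := fun s => (m - 1) * (rh m s * (1 - s ^ 2) / s ^ 2 - (1 - s) ^ 2 * k2_rd m s / s) -
        (m - 1 - 3 * m * rh m q + (2 * m + 1) * gm m q + (m - 1) * cn m q * (1 - s)) *
          k2_rd m s + (m - 1) * cn m q * (rh m s - rh m q)) hp
      (fun s hs => by
        have s0 := h0.trans_le hs.1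
        have d := k2_drh hm s0 (hs.2.trans_lt h1)
        have o := (hasDerivAt_id' s).const_sub 1
        refine ((((((o.pow 2).mul d).div (hasDerivAt_id' s) s0.ne').const_mul (m - 1)).neg).sub
          (((o.const_mul ((m - 1) * cn m q)).const_add
            (m - 1 - 3 * m * rh m q + (2 * m + 1) * gm m q)).mul (d.sub_const _))).congr_deriv ?_
        simp only [Pi.mul_apply, Pi.pow_apply]
        norm_num
        field_simp
        ring)
      fun s hs => by
        have s0 := h0.trans hs.1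
        have s1 := hs.2.trans h1
        have a := k2_four h hm s0 s1
        have b := mul_le_mul_of_nonneg_left (k2_U h hm h0 hs.1.le s1) (k2_pos h hm s0 s1).le
        have c := mul_le_mul_of_nonneg_left (k2_tan h hm h0 hs.1.le s1)
          (mul_nonneg (by linarith : 0 ≤ m - 1) e3)
        have d : k2_rd m s * ((m - 1) * ((1 - q) * cn m q)) =
          k2_rd m s * ((m - 1) * (1 - gm m q)) := by rw [e1]
        linarith
    simp only [sub_self, mul_zero, sub_zero] at this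
    linarith

end Pool.Agent.MP_560646_mp.One
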