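import Pool.Agent.MP_560646_mp.Hz.Ct

set_option autoImplicit false

namespace Pool.Agent.MP_560646_mp.One

open Real Set

theorem k3_alg (β q X a s v k1 P k3 o2 : ℝ) (hq : 0 < q) (hs : 0 < s) (hX : X < 1) (hX0 : 0 < X)
    (hv : v = s * (1 - q) / 2) (e1 : k1 = a / s + a * X / (q * s)) (e2 : P = a * (1 - X))
    (e3 : k3 = s * a * (1 + q * X)) (e4 : o2 = a / s ^ 2 - a * X / (q * s) ^ 2) :
    β * v * k1 = P * (β * (1 - (q - X / q) / (1 - X)) / 2) ∧
    v ^ 2 * (β * (β - 1) * o2) = P * (β * (β - 1) * ((1 - q) ^ 2 * ((q - X / q) / (1 - X)) / q) / 4) ∧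
    v * P = k3 * (1 - (q + X) / (1 + q * X)) / 2 ∧ s * P = k3 * ((1 - X) / (1 + q * X)) := by
  have h1 : 1 - X ≠ 0 := by linarith
  have h2 : 1 + q * X ≠ 0 := by positivity
  have h3 := hq.ne'
  have h4 := hs.ne'
  subst hv e1 e2 e3 e4
  refine ⟨?_, ?_, ?_, ?_⟩
  · field_simp
    ring
  · field_simp
    ring
  · field_simp
    ring
  · field_simp

theorem k3_form {β v : ℝ} (hβ : 0 < β) (h0 : 0 < v) (h1 : v < 1) :
    β * v * kk (β - 1) v = od β v * (β * (1 - rh β ((1 - v) / (1 + v))) / 2) ∧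
    v ^ 2 * oo β v = od β v * (β * (β - 1) * ((1 - (1 - v) / (1 + v)) ^ 2 *
      rh β ((1 - v) / (1 + v)) / ((1 - v) / (1 + v))) / 4) ∧
    v * od β v = kk (β + 1) v * (1 - gm β ((1 - v) / (1 + v))) / 2 ∧
    (1 + v) * od β v = kk (β + 1) v * cn β ((1 - v) / (1 + v)) := by
  have s0 : 0 < 1 + v := by linarith
  have t0 : 0 < 1 - v := by linarith
  have q0 : 0 < (1 - v) / (1 + v) := div_pos t0 s0
  have q1 : (1 - v) / (1 + v) < 1 := (div_lt_one s0).2 (by linarith)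
  have a0 : 0 < (1 + v) ^ β := rpow_pos_of_pos s0 β
  have eq : (1 - v) / (1 + v) * (1 + v) = 1 - v := div_mul_cancel₀ _ s0.ne'
  have eX : (1 + v) ^ β * ((1 - v) / (1 + v)) ^ β = (1 - v) ^ β := by
    rw [div_rpow t0.le s0.le, mul_div_cancel₀ _ a0.ne']
  refine k3_alg β ((1 - v) / (1 + v)) (((1 - v) / (1 + v)) ^ β) ((1 + v) ^ β) (1 + v) v _ _ _ _
    q0 s0 (rpow_lt_one q0.le q1 hβ) (rpow_pos_of_pos q0 β) ?_ ?_ ?_ ?_ ?_
  · linarith
  · rw [eq, eX, kk, rpow_sub_one s0.ne', rpow_sub_one t0.ne']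
  · rw [mul_sub, eX, od, mul_one]
  · rw [kk, rpow_add_one s0.ne', rpow_add_one t0.ne', ← eX]
    linear_combination (-((1 + v) ^ β * ((1 - v) / (1 + v)) ^ β)) * eq
  · rw [eq, eX, od, rpow_sub s0, rpow_sub t0, rpow_two, rpow_two]

theorem k3S (h : K2S) : K3S := by
  intro β v w hβ w0 wv v1
  have b0 : 0 < β := by linarith
  have v0 : 0 < v := by linarith
  have w1 : w < 1 := by linarith
  obtain ⟨a1, a2, a3, a4⟩ := k3_form b0 v0 v1
  obtain ⟨c1, c2, -, -⟩ := k3_form b0 w0 w1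
  have sv : 0 < 1 + v := by linarith
  have sw : 0 < 1 + w := by linarith
  obtain ⟨d1, d2⟩ := h β ((1 - v) / (1 + v)) ((1 - w) / (1 + w)) hβ (div_pos (by linarith) sv)
    (by rw [div_le_div_iff₀ sv sw]; nlinarith) ((div_lt_one sw).2 (by linarith))
  have hP := od_pos b0 v0 v1.le
  have hQ := od_pos b0 w0 w1.le
  have hK := kk_pos (β + 1) v0.le v1.le
  have e1 : qq β v * od β w - qq β w * od β v = od β v * od β w * β / 2 *
      (rh β ((1 - w) / (1 + w)) - rh β ((1 - v) / (1 + v))) := by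
    rw [qq, qq, a1, c1]
    ring
  constructor
  · intro hlt
    have d3 := d1 (by rw [div_lt_div_iff₀ sv sw]; nlinarith)
    have : 0 < od β v * od β w * β / 2 *
      (rh β ((1 - w) / (1 + w)) - rh β ((1 - v) / (1 + v))) :=
      mul_pos (by positivity) (sub_pos.2 d3)
    linarith
  · have e2 : v * (w * (1 + v) / (v * (1 + w))) = (1 + v) * (1 - (1 - w) / (1 + w)) / 2 := by
      field_simp
      ring
    have e3 : 3 * (β * v * kk (β - 1) v) * kk (β + 1) v - 3 * (β + 1) / 2 * v * od β v ^ 2 +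
        (β - 1) * v * od β v ^ 2 * (w * (1 + v) / (v * (1 + w)) - 1 / 2) =
        kk (β + 1) v * od β v / 2 * (β - 1 - 3 * β * rh β ((1 - v) / (1 + v)) +
          (2 * β + 1) * gm β ((1 - v) / (1 + v)) +
          (β - 1) * cn β ((1 - v) / (1 + v)) * (1 - (1 - w) / (1 + w))) := by
      rw [a1]
      linear_combination (-(2 * β + 1) * od β v) * a3 + (β - 1) * od β v ^ 2 * e2 +
        (β - 1) * od β v * (1 - (1 - w) / (1 + w)) / 2 * a4
    rw [e1, e3, a2, c2]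
    have d3 := mul_le_mul_of_nonneg_left d2
      (show 0 ≤ kk (β + 1) v * od β v ^ 2 * od β w * β / 4 by positivity)
    generalize (1 - (1 - v) / (1 + v)) ^ 2 * rh β ((1 - v) / (1 + v)) / ((1 - v) / (1 + v)) = y1
      at d3 ⊢
    generalize (1 - (1 - w) / (1 + w)) ^ 2 * rh β ((1 - w) / (1 + w)) / ((1 - w) / (1 + w)) = y2
      at d3 ⊢
    generalize (1 - v) / (1 + v) = q at d3 ⊢
    generalize (1 - w) / (1 + w) = p at d3 ⊢
    linarith

end Pool.Agent.MP_560646_mp.One
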