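import Pool.Agent.MP_560646_mp.Hz.Ct

/-! The dual parameter. -/

set_option autoImplicit false

namespace Pool.Agent.MP_560646_mp.One

open Real Set Filter Topology

theorem k4_cont {α : ℝ} (h : 0 ≤ α) : Continuous (kk α) :=
  ((continuous_rpow_const h).comp (continuous_const.add continuous_id)).add
    ((continuous_rpow_const h).comp (continuous_const.sub continuous_id))

theorem k4_ex {α : ℝ} (h : 1 < α) {v : ℝ} (hv : v ∈ Icc (0 : ℝ) 1) :
    ∃ w ∈ Icc (0 : ℝ) 1, kk α v * kk α w = 2 * 2 ^ α := by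
  have o : (1 : ℝ) ∈ Icc (0 : ℝ) 1 := right_mem_Icc.2 zero_le_one
  have z : (0 : ℝ) ∈ Icc (0 : ℝ) 1 := left_mem_Icc.2 zero_le_one
  have mo := (kk_strict h).monotoneOn
  have l := mo z hv hv.1
  have u := mo hv o hv.2
  have p := kk_pos α hv.1 hv.2
  have p2 : (0 : ℝ) < 2 ^ α := rpow_pos_of_pos two_pos _
  rw [kk_zero] at l
  rw [kk_one (by linarith)] at u
  obtain ⟨w, hw, e⟩ := intermediate_value_Icc zero_le_one (k4_cont (by linarith : 0 ≤ α)).continuousOn
    (show 2 * 2 ^ α / kk α v ∈ Icc (kk α 0) (kk α 1) by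
      rw [kk_zero, kk_one (by linarith)]
      exact ⟨(le_div_iff₀ p).2 (by linarith), (div_le_iff₀ p).2 (by nlinarith)⟩)
  exact ⟨w, hw, by rw [e, mul_div_cancel₀ _ p.ne']⟩

theorem k4_le {α : ℝ} (h : 1 < α) {v : ℝ} (hv : v ∈ Ioo (0 : ℝ) 1) :
    kk α v * kk α ((1 - v) / (1 + v)) ≤ 2 * 2 ^ α := by
  obtain ⟨v0, v1⟩ := hv
  have p : 0 < 1 + v := by linarith
  have s0 : 0 < (1 - v) / (1 + v) := div_pos (by linarith) p
  have s1 : (1 - v) / (1 + v) ≤ 1 := (div_le_one p).2 (by linarith)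
  have e₁ : 1 + (1 - v) / (1 + v) = 2 / (1 + v) := by
    field_simp
    ring
  have e₂ : 1 - (1 - v) / (1 + v) = v * (2 / (1 + v)) := by
    field_simp
    ring
  have e₃ : (1 - v) ^ α = ((1 - v) / (1 + v)) ^ α * (1 + v) ^ α := by
    rw [← mul_rpow s0.le p.le, div_mul_cancel₀ _ p.ne']
  have e₄ : (1 + v) ^ α * (2 / (1 + v)) ^ α = 2 ^ α := by
    rw [← mul_rpow p.le (by positivity), mul_div_cancel₀ _ p.ne']
  have a := rpow_le_self_of_le_one s0.le s1 h.le
  have b := rpow_le_self_of_le_one v0.le v1.le h.le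
  have a0 := rpow_nonneg s0.le α
  have b0 := rpow_nonneg v0.le α
  have p2 : (0 : ℝ) < 2 ^ α := rpow_pos_of_pos two_pos _
  have e₅ : (1 + (1 - v) / (1 + v)) * (1 + v) = 2 := by rw [e₁, div_mul_cancel₀ _ p.ne']
  have k : (1 + ((1 - v) / (1 + v)) ^ α) * (1 + v ^ α) ≤ 2 :=
    (mul_le_mul (by linarith) (by linarith) (by linarith) (by linarith)).trans_eq e₅
  calc kk α v * kk α ((1 - v) / (1 + v))
      = (1 + ((1 - v) / (1 + v)) ^ α) * (1 + v ^ α) * ((1 + v) ^ α * (2 / (1 + v)) ^ α) := by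
        rw [kk, kk, e₁, e₂, mul_rpow v0.le (by positivity), e₃]
        ring
    _ ≤ 2 * 2 ^ α := by
        rw [e₄]
        exact mul_le_mul_of_nonneg_right k p2.le

theorem k4S : K4S := by
  intro β hβ
  have h : 1 < β + 1 := by linarith
  have o : (1 : ℝ) ∈ Icc (0 : ℝ) 1 := right_mem_Icc.2 zero_le_one
  have z : (0 : ℝ) ∈ Icc (0 : ℝ) 1 := left_mem_Icc.2 zero_le_one
  have st := kk_strict h
  have ck := k4_cont (by linarith : 0 ≤ β + 1)
  have k0 := kk_zero (β + 1)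
  have k1 := kk_one (by linarith : β + 1 ≠ 0)
  choose! d hd he using fun v hv => k4_ex h (v := v) hv
  have un : ∀ v ∈ Icc (0 : ℝ) 1, ∀ v' ∈ Icc (0 : ℝ) 1,
      kk (β + 1) v * kk (β + 1) v' = 2 * 2 ^ (β + 1) → d v = v' := fun v hv v' hv' e =>
    st.injOn (hd v hv) hv' (mul_left_cancel₀ (kk_pos _ hv.1 hv.2).ne' ((he v hv).trans e.symm))
  have cd : ContinuousOn d (Icc 0 1) := by
    have c : Continuous fun x : Icc (0 : ℝ) 1 => (⟨d x, hd x x.2⟩ : Icc (0 : ℝ) 1) := by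
      refine continuous_iff_isClosed.2 fun C hC => ?_
      have g : IsClosed {p : Icc (0 : ℝ) 1 × Icc (0 : ℝ) 1 |
          kk (β + 1) p.1 * kk (β + 1) p.2 = 2 * 2 ^ (β + 1)} :=
        isClosed_eq (by fun_prop) continuous_const
      have g' := isClosedMap_fst_of_compactSpace _ (g.inter (hC.preimage continuous_snd))
      refine (congrArg IsClosed ?_).mp g'
      ext x
      refine ⟨?_, fun e => ⟨(x, ⟨d x, hd x x.2⟩), ⟨he _ x.2, e⟩, rfl⟩⟩
      rintro ⟨p, ⟨e, e'⟩, rfl⟩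
      have q : (⟨d p.1, hd p.1 p.1.2⟩ : Icc (0 : ℝ) 1) = p.2 := Subtype.ext (un _ p.1.2 _ p.2.2 e)
      exact mem_preimage.2 (q ▸ e')
    exact continuousOn_iff_continuous_domRestrict.2 (continuous_subtype_val.comp c)
  have d0 : d 0 = 1 := un 0 z 1 o (by rw [k0, k1])
  have d1 : d 1 = 0 := un 1 o 0 z (by rw [k0, k1, mul_comm])
  refine ⟨d, cd, d0, d1, un, fun v hv => ?_⟩
  have hv' := Ioo_subset_Icc_self hv
  have m := hd v hv'
  have e := he v hv'
  have inv : d (d v) = v := un _ m _ hv' ((mul_comm _ _).trans e)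
  have m0 : 0 < d v := m.1.lt_of_ne fun q => hv.2.ne (by rw [← inv, ← q, d0])
  have m1 : d v < 1 := m.2.lt_of_ne fun q => hv.1.ne' (by rw [← inv, q, d1])
  have p := kk_pos (β + 1) hv'.1 hv'.2
  have nb := Icc_mem_nhds hv.1 hv.2
  refine ⟨⟨m0, m1⟩, e, ?_, ?_⟩
  · have q : 0 < 1 + v := by linarith [hv.1]
    have s : (1 - v) / (1 + v) ∈ Icc (0 : ℝ) 1 :=
      ⟨div_nonneg (by linarith [hv.2]) q.le, (div_le_one q).2 (by linarith [hv.1])⟩
    have l := (st.le_iff_le s m).1 (le_of_mul_le_mul_left ((k4_le h hv).trans_eq e.symm) p)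
    rw [div_le_iff₀ q] at l
    linarith
  · have a := kk_deriv (β + 1) hv'.1 hv.2
    have b := kk_deriv (β + 1) m.1 m1
    rw [add_sub_cancel_right] at a b
    have q := od_pos hβ m0 m.2
    have c := (hasDerivAt_const v (2 * (2 : ℝ) ^ (β + 1))).div a p.ne'
    have t := HasDerivAt.of_comp_left (cd.continuousAt nb) b c (mul_pos (by linarith) q).ne' (by
      filter_upwards [nb] with y hy
      exact (eq_div_iff (kk_pos _ hy.1 hy.2).ne').2 ((mul_comm _ _).trans (he y hy)))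
    refine t.congr_deriv ?_
    rw [← e]
    field_simp
    ring

end Pool.Agent.MP_560646_mp.One
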