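import Pool.Agent.MP_560646_mp.Hz.Ct

/-! The differential inequality for the weighted curvature. -/

set_option autoImplicit false

namespace Pool.Agent.MP_560646_mp.One

open Real Set

theorem k5S (h : K3S) : K5S := by
  intro β u v hβ hu hv
  have b₀ : 0 < β := by linarith
  have hu' : u ∈ Icc (0 : ℝ) 1 := ⟨hu.1.le, hu.2.le⟩
  have w₀ : 0 < u * v := mul_pos hu.1 hv.1
  have w₁ : u * v < v := mul_lt_of_lt_one_left hv.1 hu.2
  obtain ⟨m₁, key⟩ := h β v (u * v) hβ w₀ w₁.le hv.2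
  replace m₁ := m₁ w₁
  have P := od_pos b₀ hv.1 hv.2.le
  have K := kk_pos (β + 1) hv.1.le hv.2.le
  have s0 : 0 < √(kk (β + 1) v) := sqrt_pos.2 K
  have v0 := hv.1
  have n0 : 0 < nw β u v := by
    refine pos_of_mul_pos_right (a := β * v) ?_ (mul_pos b₀ v0).le
    have : β * v * nw β u v = qq β v * od β (u * v) - qq β (u * v) * od β v := by
      simp only [nw, qq]; ring
    rw [this]
    exact sub_pos.2 m₁
  refine ⟨div_pos (mul_pos (pow_pos s0 3) n0) (pow_pos P 3), _,
    (((sq_deriv β hv).pow 3).mul (nw_deriv β hu' hv)).div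
      ((od_deriv β hv.1.le hv.2).pow 3) (pow_pos P 3).ne', ?_⟩
  have s2 := sq_sqrt K.le
  simp only [Pi.mul_apply, Pi.pow_apply, Nat.cast_ofNat, Nat.add_one_sub_one, xw]
  simp only [qq, oo] at key
  generalize √(kk (β + 1) v) = s at *
  rw [← s2] at key ⊢
  have w2 : 0 < 1 + u * v := by linarith
  refine sub_nonneg.1 (le_of_le_of_eq (mul_nonneg
    (by positivity : 0 ≤ s / (od β v ^ 4 * β * v ^ 2)) (sub_nonneg.2 key)) ?_)
  simp only [nw]
  field_simp
  ring

end Pool.Agent.MP_560646_mp.One
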