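import Pool.Agent.MP_560646_mp.Hz.Ct

/-! The comparison of the branches at orders from 4 on. -/

set_option autoImplicit false

namespace Pool.Agent.MP_560646_mp.One

open Real Set

theorem k6_tau {t r t' r' : ℝ} (ht : 0 < t) (hr : 0 < r) (ht' : 0 < t') (hr' : 0 < r')
    (h₁ : 2 ≤ (1 + t') * (1 + t)) (h₂ : 2 ≤ (1 + r) * (1 + r')) :
    1 ≤ t * (1 + r) / (1 + t * r) + t' * (1 + r') / (1 + t' * r') := by
  rw [div_add_div _ _ (by positivity) (by positivity), one_le_div (by positivity)]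
  nlinarith [mul_le_mul_of_nonneg_left h₂ (mul_pos ht ht').le]

theorem k6_mon (h5 : K5S) {β x x' : ℝ} (h3 : 3 ≤ β) (hx : x ∈ Ioo (0 : ℝ) 1)
    (hx' : x' ∈ Ioo (0 : ℝ) 1) (h₁ : 2 ≤ (1 + x') * (1 + x)) {d : ℝ → ℝ}
    (hd : ∀ v ∈ Ioo (0 : ℝ) 1, d v ∈ Ioo (0 : ℝ) 1 ∧
      kk (β + 1) v * kk (β + 1) (d v) = 2 * 2 ^ (β + 1) ∧ 2 ≤ (1 + v) * (1 + d v) ∧
      HasDerivAt d (-(od β v * kk (β + 1) (d v)) / (kk (β + 1) v * od β (d v))) v) :
    MonotoneOn (fun v => xw β x v / xw β x' (d v)) (Ioo 0 1) := by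
  have key : ∀ v ∈ Ioo (0 : ℝ) 1, ∃ D : ℝ,
      HasDerivAt (fun v => xw β x v / xw β x' (d v)) D v ∧ 0 ≤ D := fun v hv => by
    obtain ⟨m, -, h₂, dd⟩ := hd v hv
    obtain ⟨p₁, D₁, d₁, l₁⟩ := h5 β x v h3 hx hv
    obtain ⟨p₂, D₂, d₂, l₂⟩ := h5 β x' (d v) h3 hx' m
    refine ⟨_, d₁.div (d₂.comp v dd) p₂.ne', div_nonneg ?_ (sq_nonneg _)⟩
    have τ := k6_tau hx.1 hv.1 hx'.1 m.1 h₁ h₂
    have P := od_pos (by linarith : 0 < β) hv.1 hv.2.le
    have P' := od_pos (by linarith : 0 < β) m.1 m.2.le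
    have K := kk_pos (β + 1) hv.1.le hv.2.le
    have K' := kk_pos (β + 1) m.1.le m.2.le
    generalize x * (1 + v) / (1 + x * v) = τ₁ at *
    generalize x' * (1 + d v) / (1 + x' * d v) = τ₂ at *
    generalize xw β x v = w₁ at *
    generalize xw β x' (d v) = w₂ at *
    generalize od β v = o at *
    generalize od β (d v) = o' at *
    generalize kk (β + 1) v = k at *
    generalize kk (β + 1) (d v) = k' at *
    have a₁ := mul_le_mul_of_nonneg_right l₁ p₂.le
    have a₂ := mul_le_mul_of_nonneg_left l₂ (show 0 ≤ w₁ * (o * k' / (k * o')) by positivity)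
    have a₃ : w₁ * (o * k' / (k * o')) * ((β - 1) * (o' / k') * (τ₂ - 1 / 2) * w₂) =
        (β - 1) * (o / k) * (τ₂ - 1 / 2) * w₁ * w₂ := by field_simp
    have a₄ : 0 ≤ (β - 1) * (o / k) * w₁ * w₂ * (τ₁ + τ₂ - 1) :=
      mul_nonneg (by have : 0 < β - 1 := by linarith
                     positivity) (by linarith)
    rw [a₃] at a₂
    rw [neg_div]
    linarith
  choose! D hD using key
  exact monotoneOn_of_hasDerivWithinAt_nonneg (f' := D) (convex_Ioo 0 1)
    (fun t ht => (hD t ht).1.continuousAt.continuousWithinAt)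
    (fun t ht => (hD t (interior_subset ht)).1.hasDerivWithinAt)
    fun v hv => (hD v (interior_subset hv)).2

theorem k6S (h4 : K4S) (h5 : K5S) : K6S := by
  intro β h3 x hx y hy x' hx' y' hy' e e' h
  have b₀ : 0 < β := by linarith
  have o : (1 : ℝ) ∈ Icc (0 : ℝ) 1 := right_mem_Icc.2 zero_le_one
  have z : (0 : ℝ) ∈ Icc (0 : ℝ) 1 := left_mem_Icc.2 zero_le_one
  have st := kk_strict (by linarith : 1 < β + 1)
  have k0 := kk_zero (β + 1)
  have k1 := kk_one (by linarith : β + 1 ≠ 0)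
  have px := kk_pos (β + 1) hx.1 hx.2
  have py := kk_pos (β + 1) hy.1 hy.2
  have px' := kk_pos (β + 1) hx'.1 hx'.2
  have py' := kk_pos (β + 1) hy'.1 hy'.2
  have p2 : (0 : ℝ) < 2 ^ (β + 1) := rpow_pos_of_pos two_pos _
  have a : y' ≤ x := (st.le_iff_le hy' hx).1 (le_of_mul_le_mul_left (by linarith) py)
  have a' : x' ≤ y := (st.le_iff_le hx' hy).1 (le_of_mul_le_mul_left (by linarith) px)
  rcases hx.1.eq_or_lt with rfl | x₀
  · rw [le_antisymm a hy'.1] at e' ⊢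
    rw [mul_zero, zero_mul, ← e', mul_comm (kk (β + 1) 0)]
  rcases hx'.1.eq_or_lt with rfl | x₀'
  · have : x = 1 := st.injOn hx o (by rw [k0] at e; linarith)
    rw [this, one_mul, zero_mul, k0, k1]
    exact le_of_eq (by ring_nf)
  have l₁ := st z hx x₀
  have l₂ := st z hx' x₀'
  have x₁ : x < 1 := hx.2.lt_of_ne (by rintro rfl; rw [k1] at e; nlinarith)
  have x₁' : x' < 1 := hx'.2.lt_of_ne (by rintro rfl; rw [k1] at e; nlinarith)
  obtain ⟨d, cd, d0, d1, du, hd⟩ := h4 β b₀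
  have dy : d y = y' := du y hy y' hy' e'
  have dx : d x' = x := du x' hx' x hx (by rw [mul_comm, e])
  have ck : Continuous (kk (β + 1)) :=
    ((continuous_rpow_const (by linarith)).comp (continuous_const.add continuous_id)).add
      ((continuous_rpow_const (by linarith)).comp (continuous_const.sub continuous_id))
  obtain ⟨A, hA⟩ : ∃ A, A = kk (β + 1) x / (2 * 2 ^ (β + 1)) := ⟨_, rfl⟩
  have hA' : A * (2 * 2 ^ (β + 1)) = kk (β + 1) x := by rw [hA]; field_simp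
  have hA1 : A * kk (β + 1) x' = 1 := by rw [hA, ← e]; field_simp
  have key := (three_sg (F := fun v => kk (β + 1) (x * v) -
      A * (kk (β + 1) v * kk (β + 1) (x' * d v))) (a := fun v => (β + 1) * od β v)
    (R := fun v => x * od β (x * v) / od β v - A * (kk (β + 1) (x' * d v) -
      kk (β + 1) (d v) * (x' * od β (x' * d v) / od β (d v))))
    (b := fun v => β * od β v / √(kk (β + 1) v) ^ 3 * x * xw β x' (d v))
    (c := A * √(2 * 2 ^ (β + 1)) * x' / x) (X := fun v => xw β x v / xw β x' (d v))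
    (by fun_prop) (fun v hv => ?_)
    (fun v hv => mul_pos (by linarith) (od_pos b₀ hv.1 hv.2.le)) (fun v hv => ?_)
    (fun v hv => mul_pos (mul_pos (div_pos (mul_pos b₀ (od_pos b₀ hv.1 hv.2.le))
      (pow_pos (sqrt_pos.2 (kk_pos _ hv.1.le hv.2.le)) 3)) x₀)
      (h5 β x' (d v) h3 ⟨x₀', x₁'⟩ (hd v hv).1).1)
    (k6_mon h5 h3 ⟨x₀, x₁⟩ ⟨x₀', x₁'⟩ (dx ▸ (hd x' ⟨x₀', x₁'⟩).2.2.1) hd) ⟨x₀', x₁'⟩
    (by simp only [mul_zero, d0, mul_one, k0]; linarith)
    (by simp only [dx, ← mul_assoc, hA1, one_mul, mul_comm x', sub_self])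
    (by simp only [mul_zero, d1, mul_one, k0, k1]; linarith) hy).2 a'
  · simp only [dy] at key
    have := mul_le_mul_of_nonneg_left (sub_nonneg.1 key) (show 0 ≤ 2 * 2 ^ (β + 1) by positivity)
    rw [← mul_assoc, mul_comm _ A, hA'] at this
    linarith
  · obtain ⟨m, -, -, dd⟩ := hd v hv
    obtain ⟨w₀, -, w₂⟩ := uv_mem hx hv
    obtain ⟨u₀, -, u₂⟩ := uv_mem hx' m
    have P := (od_pos b₀ hv.1 hv.2.le).ne'
    have P' := (od_pos b₀ m.1 m.2.le).ne'
    have K := (kk_pos (β + 1) hv.1.le hv.2.le).ne'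
    refine (((kk_deriv (β + 1) w₀ w₂).comp v ((hasDerivAt_id' v).const_mul x)).sub
      (((kk_deriv (β + 1) hv.1.le hv.2).mul
        ((kk_deriv (β + 1) u₀ u₂).comp v (dd.const_mul x'))).const_mul A)).congr_deriv ?_
    simp only [add_sub_cancel_right, Function.comp]
    field_simp
    ring
  · obtain ⟨m, hm, -, dd⟩ := hd v hv
    obtain ⟨w₀, -, w₂⟩ := uv_mem hx hv
    obtain ⟨u₀, -, u₂⟩ := uv_mem hx' m
    have P := (od_pos b₀ hv.1 hv.2.le).ne'
    have P' := (od_pos b₀ m.1 m.2.le).ne'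
    have K := kk_pos (β + 1) hv.1.le hv.2.le
    have K' := kk_pos (β + 1) m.1.le m.2.le
    have W := (h5 β x' (d v) h3 ⟨x₀', x₁'⟩ m).1.ne'
    refine (((((od_deriv β w₀ w₂).comp v ((hasDerivAt_id' v).const_mul x)).const_mul x).div
      (od_deriv β hv.1.le hv.2) P).sub
      ((((kk_deriv (β + 1) u₀ u₂).comp v (dd.const_mul x')).sub
        (((kk_deriv (β + 1) m.1.le m.2).comp v dd).mul
          ((((od_deriv β u₀ u₂).comp v (dd.const_mul x')).const_mul x').div
            ((od_deriv β m.1.le m.2).comp v dd) P'))).const_mul A)).congr_deriv ?_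
    rw [mul_assoc _ (xw β x' (d v)), mul_sub (xw β x' (d v)), mul_div_cancel₀ _ W, ← hm,
      sqrt_mul K.le]
    simp only [add_sub_cancel_right, Function.comp, Pi.div_apply, xw, nw]
    have s0 := (sqrt_pos.2 K).ne'
    have s0' := (sqrt_pos.2 K').ne'
    have s2 := sq_sqrt K.le
    have s2' := sq_sqrt K'.le
    generalize √(kk (β + 1) v) = s at *
    generalize √(kk (β + 1) (d v)) = s' at *
    rw [← s2, ← s2']
    have x0 := x₀.ne'
    field_simp
    ring

end Pool.Agent.MP_560646_mp.One
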