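import Pool.Agent.MP_560646_mp.Hz.Lt

/-! Elasticities of the even part at orders below 1. -/

set_option autoImplicit false

namespace Pool.Agent.MP_560646_mp.One

open Real Set

theorem l0_od_neg {γ v : ℝ} (hγ : γ < 0) (h₀ : 0 < v) (h₁ : v < 1) : od γ v < 0 :=
  sub_neg.2 (rpow_lt_rpow_of_neg (by linarith) (by linarith) hγ)

theorem l0_forms (α : ℝ) {x : ℝ} (h₀ : 0 < x) (h₁ : x < 1) :
    kk α x = (1 + x) ^ α * (1 + ((1 - x) / (1 + x)) ^ α) ∧
    od (α - 1) x = (1 + x) ^ α / (1 + x) - (1 + x) ^ α * ((1 - x) / (1 + x)) ^ α / (1 - x) ∧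
    kk (α - 1 - 1) x =
      (1 + x) ^ α / (1 + x) ^ 2 + (1 + x) ^ α * ((1 - x) / (1 + x)) ^ α / (1 - x) ^ 2 := by
  have p : 0 < 1 + x := by linarith
  have m : 0 < 1 - x := by linarith
  have A : 0 < (1 + x) ^ α := rpow_pos_of_pos p α
  have e : (1 + x) ^ α * ((1 - x) / (1 + x)) ^ α = (1 - x) ^ α := by
    rw [div_rpow m.le p.le]
    field_simp
  refine ⟨?_, ?_, ?_⟩
  · rw [mul_add, mul_one, e]
    rfl
  · rw [e]
    unfold od
    rw [rpow_sub_one p.ne', rpow_sub_one m.ne']
  · rw [e]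
    unfold kk
    rw [rpow_sub_one p.ne', rpow_sub_one m.ne', rpow_sub_one p.ne', rpow_sub_one m.ne', div_div,
      div_div, sq, sq]

theorem l0S : L0S := by
  intro α hα
  obtain ⟨a0, a1⟩ := hα
  have ck : Continuous (kk α) :=
    ((continuous_rpow_const a0.le).comp (continuous_const.add continuous_id)).add
      ((continuous_rpow_const a0.le).comp (continuous_const.sub continuous_id))
  refine ⟨ck, ?_, fun x hx => ?_⟩
  · refine strictAntiOn_of_hasDerivWithinAt_neg (f' := fun t => α * od (α - 1) t) (convex_Icc 0 1)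
      ck.continuousOn (fun t ht => ?_) fun t ht => ?_ <;> rw [interior_Icc] at ht
    · exact (kk_deriv α ht.1.le ht.2).hasDerivWithinAt
    · exact mul_neg_of_pos_of_neg a0 (l0_od_neg (by linarith) ht.1 ht.2)
  obtain ⟨x0, x1⟩ := hx
  have ko := kk_pos α x0.le x1.le
  have oo := l0_od_neg (by linarith : α - 1 < 0) x0 x1
  have p : 0 < 1 + x := by linarith
  have m : 0 < 1 - x := by linarith
  refine ⟨div_pos (neg_pos.2 (mul_neg_of_pos_of_neg (mul_pos a0 x0) oo)) ko, ?_, ?_, ?_⟩
  · refine (kk_deriv α x0.le x1).congr_deriv ?_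
    unfold mu
    field_simp
  · have h := ((((hasDerivAt_id' x).const_mul α).mul (od_deriv (α - 1) x0.le x1)).neg).div
      (kk_deriv α x0.le x1) ko.ne'
    refine HasDerivAt.congr_deriv h ?_
    have o' := oo.ne
    simp only [Pi.neg_apply, Pi.mul_apply]
    unfold ka mu
    field_simp
    ring
  · obtain ⟨f1, f2, f3⟩ := l0_forms α x0 x1
    have q0 : 0 < (1 - x) / (1 + x) := div_pos m p
    have q1 : (1 - x) / (1 + x) < 1 := (div_lt_one p).2 (by linarith)
    have hq : (1 - x) / (1 + x) < ((1 - x) / (1 + x)) ^ α := by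
      have := rpow_lt_rpow_of_exponent_gt q0 q1 a1
      rwa [rpow_one] at this
    have A : 0 < (1 + x) ^ α := rpow_pos_of_pos p α
    unfold ka kq mu mq mm
    rw [f1, f2, f3]
    generalize ((1 - x) / (1 + x)) ^ α = X at *
    generalize (1 + x) ^ α = B at *
    have X0 : 0 < 1 + X := by linarith
    have hq' : 0 < X * (1 + x) - (1 - x) := by
      rw [div_lt_iff₀ p] at hq
      linarith
    have e1 : B / (1 + x) - B * X / (1 - x) =
        -(B * (X * (1 + x) - (1 - x)) / ((1 + x) * (1 - x))) := by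
      field_simp
      ring
    have e2 : X - (1 - x) / (1 + x) = (X * (1 + x) - (1 - x)) / (1 + x) := by
      field_simp
    rw [e1, e2]
    obtain ⟨W, hW⟩ : ∃ W, W = X * (1 + x) - (1 - x) := ⟨_, rfl⟩
    rw [← hW] at hq' ⊢
    constructor
    · field_simp
      ring
    · field_simp
      rw [hW]
      ring

end Pool.Agent.MP_560646_mp.One
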