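import Pool.Agent.MP_560646_mp.Hz.Lt
import Pool.Agent.MP_560646_mp.Hz.Ec

/-! The inequality in one variable for orders below 1. -/

set_option autoImplicit false

namespace Pool.Agent.MP_560646_mp.One

open Real Set

def l1pe : List ℤ → ℝ → ℝ
  | [], _ => 0
  | c :: p, z => c + z * l1pe p z

def l1pa : List ℤ → List ℤ → List ℤ
  | [], q => q
  | c :: p, [] => c :: p
  | c :: p, d :: q => (c + d) :: l1pa p q

def l1st (i j : ℕ) (r : List ℤ × ℕ × ℕ) : List ℤ × ℕ × ℕ :=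
  (l1pa (r.1.map (((i : ℤ) - r.2.1) * ·)) (0 :: r.1.map (((i : ℤ) - r.2.1 + j - r.2.2) * ·)), r.2)

def l1ck : ℕ → List (List ℤ × ℕ × ℕ) → Bool
  | _, [] => true
  | 0, _ :: _ => false
  | k + 1, p :: L => (L.foldr (fun r s => l1pa r.1 s) p.1).all (0 ≤ ·) &&
      l1ck k (L.map (l1st p.2.1 p.2.2))

noncomputable def l1tm (z : ℝ) (r : List ℤ × ℕ × ℕ) : ℝ × ℝ :=
  (l1pe r.1 z, -((r.2.1 : ℝ) * (1 + z) + r.2.2 * z))

theorem l1_pa (z : ℝ) : ∀ p q : List ℤ, l1pe (l1pa p q) z = l1pe p z + l1pe q z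
  | [], q => by simp [l1pa, l1pe]
  | c :: p, [] => by simp [l1pa, l1pe]
  | c :: p, d :: q => by
    simp only [l1pa, l1pe, l1_pa z p q]
    push_cast
    ring

theorem l1_sm (z : ℝ) (u : ℤ) : ∀ p : List ℤ, l1pe (p.map (u * ·)) z = u * l1pe p z
  | [] => by simp [l1pe]
  | c :: p => by
    simp only [List.map, l1pe, l1_sm z u p]
    push_cast
    ring

theorem l1_nn {z : ℝ} (hz : 0 ≤ z) : ∀ p : List ℤ, p.all (0 ≤ ·) = true → 0 ≤ l1pe p z
  | [], _ => le_rfl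
  | c :: p, h => by
    simp only [List.all_cons, Bool.and_eq_true, decide_eq_true_eq] at h
    exact add_nonneg (Int.cast_nonneg_iff.2 h.1) (mul_nonneg hz (l1_nn hz p h.2))

theorem l1_fo (z : ℝ) (p : List ℤ) : ∀ L : List (List ℤ × ℕ × ℕ),
    l1pe (L.foldr (fun r s => l1pa r.1 s) p) z = l1pe p z + ((L.map (l1tm z)).map Prod.fst).sum
  | [] => by simp
  | r :: L => by
    simp only [List.foldr, List.map, List.sum_cons, l1_pa, l1_fo z p L, l1tm]
    ring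

theorem l1_nc {z : ℝ} (hz : 0 ≤ z) : ∀ (k : ℕ) (L : List (List ℤ × ℕ × ℕ)), l1ck k L = true →
    NC k (L.map (l1tm z))
  | _, [], _ => by simp [NC]
  | 0, _ :: _, h => by simp [l1ck] at h
  | k + 1, p :: L, h => by
    simp only [l1ck, Bool.and_eq_true] at h
    refine ⟨l1_fo z p.1 L ▸ l1_nn hz _ h.1, ?_⟩
    have e : stp (l1tm z p).2 (L.map (l1tm z)) = (L.map (l1st p.2.1 p.2.2)).map (l1tm z) := by
      simp only [stp, List.map_map]
      refine List.map_congr_left fun r _ => Prod.ext ?_ rfl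
      simp only [Function.comp, l1tm, l1st, l1_pa, l1_sm, l1pe]
      push_cast
      ring
    rw [e]
    exact l1_nc hz k _ h.2

theorem l1S : L1S := by
  intro α hα q hq X hX
  have hb : 0 < 1 - α := sub_pos.2 hα.2
  have ht : 0 ≤ -log q := neg_nonneg.2 (log_nonpos hq.1.le hq.2.le)
  have a := nc_ev _ _ (l1_nc (div_nonneg hα.1.le hb.le) 26
    [([0, 1, 1, 0], 7, 1), ([0, -4, -2, 0], 6, 2), ([2, 3, 1, 0], 5, 3), ([0, 1, 3, 2], 7, 0),
     ([0, -5, -9, -4], 6, 1), ([2, 0, 0, 0], 5, 2), ([6, 17, 15, 4], 4, 3), ([-6, -13, -9, -2],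
     3, 4), ([0, -1, -1, 0], 6, 0), ([-2, -6, -4, 0], 5, 1), ([6, 20, 10, 0], 4, 2), ([-6, -10,
     -4, 0], 3, 3), ([-2, -3, -1, 0], 2, 4), ([-2, -3, -1, 0], 5, 0), ([-6, -10, -4, 0], 4, 1),
     ([6, 20, 10, 0], 3, 2), ([-2, -6, -4, 0], 2, 3), ([0, -1, -1, 0], 1, 4), ([-6, -13, -9,
     -2], 4, 0), ([6, 17, 15, 4], 3, 1), ([2, 0, 0, 0], 2, 2), ([0, -5, -9, -4], 1, 3), ([0, 1,
     3, 2], 0, 4), ([2, 3, 1, 0], 2, 1), ([0, -4, -2, 0], 1, 2), ([0, 1, 1, 0], 0, 3)]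
    (by decide +kernel)) _ (mul_nonneg hb.le ht)
  have e : ∀ i j : ℕ, exp (-((i : ℝ) * (1 + α / (1 - α)) + j * (α / (1 - α))) *
      ((1 - α) * -log q)) = q ^ i * X ^ j := fun i j => by
    rw [hX, ← ex_pow hq.1]
    congr 1
    field_simp
    ring
  have f : ∀ c d u v : ℤ, l1pe [c, d, u, v] (α / (1 - α)) = ((1 - α) ^ 3)⁻¹ *
      (c * (1 - α) ^ 3 + d * α * (1 - α) ^ 2 + u * α ^ 2 * (1 - α) + v * α ^ 3) := fun c d u v => by
    simp only [l1pe]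
    field_simp
    ring
  simp only [ev, List.map, List.sum_cons, List.sum_nil, l1tm, e, f] at a
  have x : 0 ≤ X := hX ▸ rpow_nonneg hq.1.le α
  have b := mul_nonneg (mul_nonneg (mul_nonneg x hb.le) (by linarith : 0 ≤ 1 + X)) a
  have r : 0 < ((1 - α) ^ 3)⁻¹ := by positivity
  refine le_of_mul_le_mul_left ?_ r
  generalize ((1 - α) ^ 3)⁻¹ = s at b
  unfold nd n3 mm md
  push_cast at b
  linear_combination b

end Pool.Agent.MP_560646_mp.One
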