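import Pool.Agent.MP_560646_mp.Hz.Lt

set_option autoImplicit false

namespace Pool.Agent.MP_560646_mp.One

open Real Set

theorem l2_poly (a0 a1 a2 a3 a4 q : ℝ) :
    HasDerivAt (fun t : ℝ => a0 + a1 * t + a2 * t ^ 2 + a3 * t ^ 3 + a4 * t ^ 4)
      (a1 + 2 * a2 * q + 3 * a3 * q ^ 2 + 4 * a4 * q ^ 3) q := by
  have h := ((((hasDerivAt_const q a0).add ((hasDerivAt_id q).const_mul a1)).add
    ((hasDerivAt_pow 2 q).const_mul a2)).add ((hasDerivAt_pow 3 q).const_mul a3)).add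
    ((hasDerivAt_pow 4 q).const_mul a4)
  refine (h.congr_deriv ?_)
  simp
  ring

theorem l2_rpow {α q : ℝ} (hq : 0 < q) :
    HasDerivAt (fun t : ℝ => t ^ α) (α * q ^ α / q) q := by
  refine (hasDerivAt_rpow_const (Or.inl hq.ne')).congr_deriv ?_
  rw [rpow_sub_one hq.ne']
  ring

theorem l2_n3 {α q : ℝ} (hq : 0 < q) :
    HasDerivAt (fun t : ℝ => n3 α t (t ^ α)) (nd α q (q ^ α) / q) q := by
  have hX := l2_rpow (α := α) hq
  have h := ((((l2_poly 0 0 0 0 (-1) q).add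
    ((l2_poly 0 (-2 + 3 * α - α ^ 2) (α - α ^ 2) (2 - α + α ^ 2) (-2 + α + α ^ 2) q).mul hX)).add
    ((l2_poly (1 - α) (-4 + 4 * α) 0 (4 - 4 * α) (-1 + α) q).mul (hX.pow 2))).add
    ((l2_poly (2 - α - α ^ 2) (-2 + α - α ^ 2) (-α + α ^ 2) (2 - 3 * α + α ^ 2) 0 q).mul
      (hX.pow 3))).add (hX.pow 4)
  refine (h.congr_of_eventuallyEq (Filter.Eventually.of_forall fun t => ?_)).congr_deriv ?_
  · simp only [Pi.add_apply, Pi.mul_apply, Pi.pow_apply, n3]
    ring
  simp only [Pi.pow_apply, nd]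
  generalize q ^ α = X
  field_simp
  push_cast
  ring

theorem l2_mm {α q : ℝ} (hq : 0 < q) :
    HasDerivAt (fun t : ℝ => mm α t (t ^ α)) (md α q (q ^ α) / q) q := by
  have hX := l2_rpow (α := α) hq
  have h := (((l2_poly 0 0 (-1) 0 0 q).add
    ((l2_poly (1 - α) 0 (α - 1) 0 0 q).mul hX)).add (hX.pow 2))
  refine (h.congr_of_eventuallyEq (Filter.Eventually.of_forall fun t => ?_)).congr_deriv ?_
  · simp only [Pi.add_apply, Pi.mul_apply, Pi.pow_apply, mm]
    ring
  simp only [md]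
  generalize q ^ α = X
  field_simp
  push_cast
  ring

theorem l2_pos {α : ℝ} (hα : α ∈ Ioo (0 : ℝ) 1) {q : ℝ} (hq : q ∈ Ioo (0 : ℝ) 1) :
    q < q ^ α ∧ 0 < mm α q (q ^ α) := by
  have h1 : q < q ^ α := by
    have := rpow_lt_rpow_of_exponent_gt hq.1 hq.2 hα.2
    rwa [rpow_one] at this
  refine ⟨h1, ?_⟩
  generalize q ^ α = X at h1
  have e : mm α q X = (X - q) * (X + q) + (1 - α) * X * ((1 - q) * (1 + q)) := by
    unfold mm; ring
  have a1 := hq.1
  have a2 : 0 < 1 - q := by linarith [hq.2]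
  have a3 : 0 < 1 - α := by linarith [hα.2]
  have a4 : 0 < X - q := by linarith
  have a5 : 0 < X := by linarith
  rw [e]
  positivity

theorem l2S (h : L1S) : L2S := by
  intro α hα
  refine ⟨fun q hq => l2_pos hα hq, ?_⟩
  have hd : ∀ q ∈ Ioo (0 : ℝ) 1, HasDerivAt (rq α)
      ((nd α q (q ^ α) * (q ^ α - q) * mm α q (q ^ α) - n3 α q (q ^ α) *
        (2 * (α * q ^ α - q) * mm α q (q ^ α) + (q ^ α - q) * md α q (q ^ α))) /
        (q * α * (q ^ α - q) ^ 3 * mm α q (q ^ α) ^ 2)) q := by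
    intro q hq
    obtain ⟨p1, p2⟩ := l2_pos hα hq
    have a0 := hα.1
    have a1 := hq.1
    have a4 : 0 < q ^ α - q := by linarith
    have hD := ((((l2_rpow (α := α) hq.1).sub (hasDerivAt_id q)).pow 2).const_mul α).mul
      (l2_mm (α := α) hq.1)
    have hne : α * (q ^ α - q) ^ 2 * mm α q (q ^ α) ≠ 0 := by positivity
    refine ((l2_n3 (α := α) hq.1).div hD hne).congr_deriv ?_
    simp only [Pi.pow_apply, Pi.sub_apply, Pi.mul_apply, id]
    generalize nd α q (q ^ α) = A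
    generalize n3 α q (q ^ α) = B
    generalize md α q (q ^ α) = C
    generalize mm α q (q ^ α) = M at p2
    generalize q ^ α = X at a4
    field_simp
    push_cast
    ring
  refine antitoneOn_of_hasDerivWithinAt_nonpos (convex_Ioo 0 1)
    (fun q hq => (hd q hq).continuousAt.continuousWithinAt)
    (fun q hq => (hd q (interior_subset hq)).hasDerivWithinAt) fun q hq => ?_
  have hq' := interior_subset hq
  obtain ⟨p1, p2⟩ := l2_pos hα hq'
  have a0 := hα.1
  have a1 := hq'.1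
  have a4 : 0 < q ^ α - q := by linarith
  exact div_nonpos_of_nonpos_of_nonneg (sub_nonpos.2 (h α hα q hq' _ rfl)) (by positivity)

end Pool.Agent.MP_560646_mp.One
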