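import Pool.Agent.MP_560646_mp.Hz.Lt

/-! Quasi-convexity of the combination of the two logarithmic derivatives. -/

set_option autoImplicit false

namespace Pool.Agent.MP_560646_mp.One

open Real Set

theorem l3_X {α q : ℝ} (hq : 0 < q) : HasDerivAt (fun q : ℝ => q ^ α) (α * q ^ α / q) q := by
  refine (Real.hasDerivAt_rpow_const (p := α) (Or.inl hq.ne')).congr_deriv ?_
  rw [Real.rpow_sub_one hq.ne', mul_div_assoc]

theorem l3_mm {α q : ℝ} (hq : 0 < q) :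
    HasDerivAt (fun q : ℝ => mm α q (q ^ α)) (md α q (q ^ α) / q) q := by
  have hX := l3_X (α := α) hq
  have h2 : HasDerivAt (fun q : ℝ => q ^ 2) (2 * q) q := by simpa using hasDerivAt_pow 2 q
  refine (((hX.const_add 1).fun_mul (hX.fun_sub h2)).fun_sub
    ((hX.const_mul α).fun_mul (h2.const_sub 1))).congr_deriv ?_
  have h0 := hq.ne'
  unfold md
  field_simp
  ring

theorem l3_mq {α q : ℝ} (hq : 0 < q) :
    HasDerivAt (mq α) (-(α / 2) * mm α q (q ^ α) / (q ^ 2 * (1 + q ^ α) ^ 2)) q := by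
  have hX := l3_X (α := α) hq
  have h0 := hq.ne'
  have h1 : 1 + q ^ α ≠ 0 := by positivity
  refine ((((hasDerivAt_id' q).const_sub 1).fun_mul (hX.fun_sub (hasDerivAt_id' q))).fun_div
    ((hasDerivAt_id' q).fun_mul (hX.const_add 1)) (mul_ne_zero h0 h1)).const_mul (α / 2)
    |>.congr_deriv ?_
  unfold mm
  field_simp
  ring

theorem l3_kq {α q : ℝ} (hq : 0 < q) (h : q < q ^ α) : HasDerivAt (kq α)
    (-n3 α q (q ^ α) / (2 * q ^ 2 * (q ^ α - q) ^ 2 * (1 + q ^ α) ^ 2)) q := by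
  have hX := l3_X (α := α) hq
  have h0 := hq.ne'
  have h1 : 1 + q ^ α ≠ 0 := by positivity
  have h2 : q ^ α - q ≠ 0 := (sub_pos.2 h).ne'
  refine ((((hasDerivAt_id' q).const_add 1).fun_mul (l3_mm hq)).fun_div
    ((((hasDerivAt_id' q).const_mul 2).fun_mul (hX.fun_sub (hasDerivAt_id' q))).fun_mul
      (hX.const_add 1)) (mul_ne_zero (mul_ne_zero (mul_ne_zero two_ne_zero h0) h2) h1)).congr_deriv ?_
  generalize q ^ α = X at h1 h2
  unfold mm md n3
  field_simp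
  ring

theorem l3S (h : L2S) : L3S := by
  intro α hα θ a b c ha hab hbc hc
  obtain ⟨h1, h2⟩ := h α hα
  have hd : ∀ q ∈ Ioo (0 : ℝ) 1, HasDerivAt (fun q => kq α q - θ * mq α q)
      (α / 2 * mm α q (q ^ α) / (q ^ 2 * (1 + q ^ α) ^ 2) * (θ - rq α q)) q := fun q hq => by
    refine ((l3_kq hq.1 (h1 q hq).1).fun_sub ((l3_mq hq.1).const_mul θ)).congr_deriv ?_
    have a0 := hq.1.ne'
    have a1 : 1 + q ^ α ≠ 0 := by have := hq.1; positivity
    have a2 : q ^ α - q ≠ 0 := (sub_pos.2 (h1 q hq).1).ne'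
    have a3 := (h1 q hq).2.ne'
    have a4 := hα.1.ne'
    unfold rq
    field_simp
    ring
  have hp : ∀ q ∈ Ioo (0 : ℝ) 1, 0 < α / 2 * mm α q (q ^ α) / (q ^ 2 * (1 + q ^ α) ^ 2) :=
    fun q hq => by
      have := hq.1
      have := (h1 q hq).2
      have := hα.1
      positivity
  have mv : ∀ u v : ℝ, 0 < u → u < v → v < 1 → ∃ z ∈ Ioo u v,
      α / 2 * mm α z (z ^ α) / (z ^ 2 * (1 + z ^ α) ^ 2) * (θ - rq α z) =
        (kq α v - θ * mq α v - (kq α u - θ * mq α u)) / (v - u) := fun u v hu huv hv =>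
    exists_hasDerivAt_eq_slope (fun q => kq α q - θ * mq α q) _ huv
      (fun q hq => (hd q ⟨hu.trans_le hq.1, hq.2.trans_lt hv⟩).continuousAt.continuousWithinAt)
      fun q hq => hd q ⟨hu.trans hq.1, hq.2.trans hv⟩
  by_contra hn
  rw [not_le, max_lt_iff] at hn
  obtain ⟨z1, m1, e1⟩ := mv a b ha hab (hbc.trans hc)
  obtain ⟨z2, m2, e2⟩ := mv b c (ha.trans hab) hbc hc
  have n1 : z1 ∈ Ioo (0 : ℝ) 1 := ⟨ha.trans m1.1, m1.2.trans (hbc.trans hc)⟩
  have n2 : z2 ∈ Ioo (0 : ℝ) 1 := ⟨(ha.trans hab).trans m2.1, m2.2.trans hc⟩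
  have p1 := (pos_iff_pos_of_mul_pos (e1 ▸ div_pos (sub_pos.2 hn.1) (sub_pos.2 hab))).1 (hp z1 n1)
  have p2 := neg_of_mul_neg_right (e2 ▸ div_neg_of_neg_of_pos (sub_neg.2 hn.2) (sub_pos.2 hbc))
    (hp z2 n2).le
  have := h2 n1 n2 (m1.2.trans m2.1).le
  linarith

end Pool.Agent.MP_560646_mp.One
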