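import Pool.Agent.MP_560646_mp.Hz.Lt

set_option autoImplicit false

namespace Pool.Agent.MP_560646_mp.One

open Real Set

theorem l4_q_pos {x : ℝ} (h0 : 0 < x) (h1 : x < 1) : 0 < (1 - x) / (1 + x) :=
  div_pos (by linarith) (by linarith)

theorem l4_q_lt_one {x : ℝ} (h0 : 0 < x) : (1 - x) / (1 + x) < 1 := by
  rw [div_lt_one (by linarith)]; linarith

theorem l4_q_anti {x y : ℝ} (h0 : 0 < x) (h : x < y) : (1 - y) / (1 + y) < (1 - x) / (1 + x) := by
  rw [div_lt_div_iff₀ (by linarith) (by linarith)]; nlinarith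

theorem l4_three (h0 : L0S) (h3 : L3S) {α : ℝ} (hα : α ∈ Ioo (0 : ℝ) 1) (θ : ℝ) {u v w : ℝ}
    (hu : 0 < u) (huv : u < v) (hvw : v < w) (hw : w < 1) :
    ka α v - θ * mu α v ≤ max (ka α u - θ * mu α u) (ka α w - θ * mu α w) := by
  obtain ⟨-, -, h⟩ := h0 α hα
  obtain ⟨-, -, -, au, bu⟩ := h u ⟨hu, by linarith⟩
  obtain ⟨-, -, -, av, bv⟩ := h v ⟨by linarith, by linarith⟩
  obtain ⟨-, -, -, aw, bw⟩ := h w ⟨by linarith, hw⟩
  rw [au, bu, av, bv, aw, bw, max_comm]
  exact h3 α hα θ _ _ _ (l4_q_pos (by linarith) hw) (l4_q_anti (by linarith) hvw)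
    (l4_q_anti hu huv) (l4_q_lt_one hu)

theorem l4S (h0 : L0S) (h3 : L3S) : L4S := by
  intro α hα θ y hy s t hs hst ht hlt
  obtain ⟨hy0, hy1⟩ := hy
  have hsy : 0 < s * y := mul_pos hs hy0
  have h1 : s * y < s := by nlinarith
  have h2 : s * y < t * y := by nlinarith
  have h4 : t * y < t := by nlinarith
  have a := l4_three h0 h3 hα θ hsy h1 hst ht
  have b := l4_three h0 h3 hα θ hsy h2 h4 ht
  have c : ka α s - θ * mu α s ≤ ka α t - θ * mu α t := by
    rcases le_max_iff.1 a with h | h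
    · linarith
    · exact h
  rcases le_max_iff.1 b with h | h
  · linarith
  · exact h

end Pool.Agent.MP_560646_mp.One
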