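import Pool.Agent.MP_560646_mp.One.Cp

/-! Statements for the positive measure that represents the trace of a power along a pencil. -/

set_option autoImplicit false

namespace Pool.Agent.MP_560646_mp.One

open Matrix Real Set MeasureTheory Metric
open scoped ComplexOrder MatrixOrder

section
variable {n : Type} [Fintype n] [DecidableEq n]

noncomputable def tz (S D : Matrix n n ℂ) (z : ℂ) : Matrix n n ℂ := (1 + z ^ 2) • S - (2 * z) • D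

noncomputable def hz (S : Matrix n n ℂ) (z : ℂ) (a : ℝ) : Matrix n n ℂ :=
  (1 - z ^ 2) • (S - a • (1 : Matrix n n ℂ))

noncomputable def rs (T H : Matrix n n ℂ) (ξ : ℂ) : ℂ := trace ((ξ • T - H)⁻¹ * T)

noncomputable def ps (T H : Matrix n n ℂ) (x : ℝ) : ℂ :=
  (Fintype.card n : ℂ) - Complex.I * x / 2 * (rs T H (Complex.I * x) - rs T H (-(Complex.I * x)))

/-- The sum of the roots of the pencil in the right half plane, as an integral. -/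
noncomputable def cs (T H : Matrix n n ℂ) : ℂ :=
  trace (T⁻¹ * H) / 2 + (π : ℂ)⁻¹ * ∫ x in Ioi (0 : ℝ), ps T H x

/-- An enumeration of the roots of the pencil. -/
def Rt (T H : Matrix n n ℂ) (κ : n → ℂ) : Prop :=
  det T ≠ 0 ∧ ∀ ξ : ℂ, det (ξ • T - H) = det T * ∏ i, (ξ - κ i)

noncomputable def bb (α R : ℝ) (S D : Matrix n n ℂ) (z : ℂ) : ℂ :=
  (1 - z ^ 2)⁻¹ * ∫ a in Ioo (0 : ℝ) R, ((a ^ (α - 1) : ℝ) : ℂ) * cs (tz S D z) (hz S z a)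

end

noncomputable def mz (z : ℂ) (e : ℝ) : ℂ := (1 - z ^ 2) / (1 + z ^ 2 - 2 * z * e)

def H1S : Prop := (∀ κ : ℂ, κ.re ≠ 0 ∨ κ = 0 →
  IntegrableOn (fun x : ℝ => κ ^ 2 / (κ ^ 2 + (x : ℂ) ^ 2)) (Ioi 0) ∧
    κ / 2 + (π : ℂ)⁻¹ * ∫ x in Ioi (0 : ℝ), κ ^ 2 / (κ ^ 2 + (x : ℂ) ^ 2) =
      if 0 < κ.re then κ else 0) ∧
  ∀ (κ : ℂ) (η B x : ℝ), 0 < η → η * ‖κ‖ ≤ |κ.re| → ‖κ‖ ≤ B → 0 < x →
    ‖κ ^ 2 / (κ ^ 2 + (x : ℂ) ^ 2)‖ ≤ 2 / η ^ 2 * (B ^ 2 / (B ^ 2 + x ^ 2))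

def H2S : Prop := ∀ (n : Type) [Fintype n] [DecidableEq n] (T H : Matrix n n ℂ) (κ : n → ℂ),
  Rt T H κ → (∀ i, (κ i).re ≠ 0 ∨ κ i = 0) →
    (∀ x : ℝ, 0 < x → ps T H x = ∑ i, κ i ^ 2 / (κ i ^ 2 + (x : ℂ) ^ 2)) ∧
    cs T H = ∑ i, if 0 < (κ i).re then κ i else 0

def H3S : Prop := ∀ (n : Type) [Fintype n] [DecidableEq n] (S D : Matrix n n ℂ), S.PosDef →
  D.IsHermitian → (S + D).PosSemidef → (S - D).PosSemidef → ∀ R : ℝ, ∃ B : ℝ, ∀ z : ℂ, ‖z‖ < 1 →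
    ∀ a ∈ Icc (0 : ℝ) R, ∃ h e : n → ℝ, (∀ i, |h i| ≤ B ∧ |e i| ≤ 1) ∧
      Rt (tz S D z) (hz S z a) fun i => h i * mz z (e i)

def H4S : Prop := (∀ r : ℝ, r < 1 → ∃ η C : ℝ, 0 < η ∧ ∀ z : ℂ, ‖z‖ ≤ r → ∀ e : ℝ, |e| ≤ 1 →
    0 < (mz z e).re ∧ η * ‖mz z e‖ ≤ (mz z e).re ∧ ‖mz z e‖ ≤ C) ∧
  ∀ ρ ∈ Ioo (0 : ℝ) 1, ∀ ζ : ℂ, ‖ζ‖ = 1 → ∀ e : ℝ, |e| ≤ 1 →
    0 ≤ ((1 - ζ ^ 2) * (1 - (ρ * ζ) ^ 2)⁻¹ * mz (ρ * ζ) e).re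

def H5S : Prop := ∀ (μ : Measure ℝ) (F : ℂ → ℝ → ℂ),
  (∀ z ∈ ball (0 : ℂ) 1, AEStronglyMeasurable (F z) μ) →
  (∀ᵐ x ∂μ, DifferentiableOn ℂ (fun z => F z x) (ball 0 1)) →
  (∀ r : ℝ, r < 1 → ∃ g : ℝ → ℝ, Integrable g μ ∧ ∀ᵐ x ∂μ, ∀ z : ℂ, ‖z‖ ≤ r → ‖F z x‖ ≤ g x) →
  DifferentiableOn ℂ (fun z => ∫ x, F z x ∂μ) (ball 0 1)

def H6A : Prop := ∀ (n : Type) [Fintype n] [DecidableEq n],
  (∀ (M N : ℂ → Matrix n n ℂ) (U : Set ℂ), (∀ i j, DifferentiableOn ℂ (fun z => M z i j) U) →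
    (∀ i j, DifferentiableOn ℂ (fun z => N z i j) U) → (∀ z ∈ U, det (M z) ≠ 0) →
    DifferentiableOn ℂ (fun z => trace ((M z)⁻¹ * N z)) U) ∧
  ∀ (S T : Matrix n n ℂ) (z : ℂ), Measurable (fun p : ℝ × ℝ => ps T (hz S z p.1) p.2) ∧
    Measurable fun a : ℝ => cs T (hz S z a)

def H6S : Prop := ∀ α R : ℝ, 0 < α → 0 < R → ∀ (n : Type) [Fintype n] [DecidableEq n]
  (S D : Matrix n n ℂ), S.PosDef → D.IsHermitian → (S + D).PosSemidef → (S - D).PosSemidef →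
  DifferentiableOn ℂ (bb α R S D) (ball 0 1) ∧ ∀ ρ ∈ Ioo (0 : ℝ) 1, ∀ ζ : ℂ, ‖ζ‖ = 1 →
    0 ≤ ((1 - ζ ^ 2) * bb α R S D (ρ * ζ)).re

def H7S : Prop := ∀ b : ℂ → ℂ, DifferentiableOn ℂ b (ball 0 1) →
  (∀ ρ ∈ Ioo (0 : ℝ) 1, ∀ ζ : ℂ, ‖ζ‖ = 1 → 0 ≤ ((1 - ζ ^ 2) * b (ρ * ζ)).re) →
  ∃ ν : Measure ℝ, IsFiniteMeasure ν ∧ (∀ᵐ e ∂ν, e ∈ Icc (-1 : ℝ) 1) ∧
    ∀ t ∈ Ioo (-1 : ℝ) 1, (b t).re = ∫ e, (1 + t ^ 2 - 2 * t * e)⁻¹ ∂ν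

def H8A : Prop := ∀ (n : Type) [Fintype n] [DecidableEq n] (T : Matrix n n ℂ), T.PosDef →
  ∃ Y : Matrix n n ℂ, Y.IsHermitian ∧ Y * T * Y = 1 ∧ ∀ H : Matrix n n ℂ, H.IsHermitian →
    ∀ s : ℝ, 0 < s → cs T (s • H) = ((s * pp (Y * H * Y) : ℝ) : ℂ)

def H8B : Prop := ∀ α R : ℝ, 0 < α → 0 < R → ∀ (n : Type) [Fintype n] [DecidableEq n]
  (S T Y : Matrix n n ℂ), S.IsHermitian → (R • (1 : Matrix n n ℂ) - S).PosSemidef → T.PosDef →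
  Y.IsHermitian → Y * T * Y = 1 →
  ∫ l in Ioi (0 : ℝ), pa α (S - l • T) =
    α * ∫ a in Ioo (0 : ℝ) R, a ^ (α - 1) * pp (Y * (S - a • (1 : Matrix n n ℂ)) * Y)

def H9A : Prop := ∀ α : ℝ, 0 < α → ∀ (n : Type) [Fintype n] [DecidableEq n] (S E : Matrix n n ℂ),
  S.IsHermitian → E.IsHermitian → Continuous fun u : ℝ => pa α (S + u • E)

def H9S : Prop := ∀ α : ℝ, 0 < α → ∀ (n : Type) [Fintype n] [DecidableEq n] (S D : Matrix n n ℂ),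
  S.PosSemidef → D.IsHermitian → (S - D).PosSemidef → ∀ t ∈ Ioo (0 : ℝ) 1,
  2 * t * ∫ l in Ioi (0 : ℝ), pa α (S - l • ((1 + t ^ 2) • S - (2 * t) • D)) =
    ∫ u in (0 : ℝ)..1, (1 + ((1 + t ^ 2) / (2 * t) - 2) * u) ^ (-α - 2) *
      pa α (S + u • (D - (2 : ℝ) • S))

def H10S : Prop := ∀ α c e : ℝ, 0 < α → -1 < c → e ≤ 1 →
  (α + 1) * ∫ u in (0 : ℝ)..1, (1 + c * u) ^ (-α - 2) * max (1 + u * (e - 2)) 0 ^ α =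
    (c + 2 - e)⁻¹

def H11S : Prop := ∀ (γ : ℝ) (g : ℝ → ℝ), 0 < γ → Continuous g →
  (∀ c : ℝ, -1 < c → ∫ u in (0 : ℝ)..1, (1 + c * u) ^ (-γ) * g u = 0) →
  ∀ u ∈ Icc (0 : ℝ) 1, g u = 0

def H12S : Prop := ∀ α : ℝ, 0 < α → ∀ (n : Type) [Fintype n] [DecidableEq n] (S D : Matrix n n ℂ),
  S.PosSemidef → D.IsHermitian → (S + D).PosSemidef → (S - D).PosSemidef →
  ∀ (ν : Measure ℝ) [IsFiniteMeasure ν] (s : ℝ), |s| ≤ 1 → (∀ᵐ e ∂ν, e ∈ Icc (-1 : ℝ) 1) →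
  (∀ t ∈ Ioo (0 : ℝ) 1, ∫ l in Ioi (0 : ℝ), pa α (S - l • ((1 + t ^ 2) • S - (2 * t) • D)) =
    α * ∫ e, (1 + t ^ 2 - 2 * t * (s * e))⁻¹ ∂ν) →
  ∀ y ∈ Icc (0 : ℝ) 1, tp α (S + y • D) = α * (α + 1) * ∫ e, (1 + y * (s * e)) ^ α ∂ν

/-- The representing measure. -/
def REP : Prop := ∀ α : ℝ, 0 < α → ∀ (n : Type) [Fintype n] [DecidableEq n] (S D : Matrix n n ℂ),
  S.PosDef → D.IsHermitian → (S + D).PosSemidef → (S - D).PosSemidef →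
  ∃ ν : Measure ℝ, IsFiniteMeasure ν ∧ (∀ᵐ e ∂ν, e ∈ Icc (-1 : ℝ) 1) ∧ ∀ y ∈ Icc (0 : ℝ) 1,
    tp α (S + y • D) + tp α (S - y • D) = α * (α + 1) * ∫ e, kk α (y * e) ∂ν

/-- Linear inequalities pass from numbers to matrices. -/
def LIN : Prop := ∀ α : ℝ, 0 < α → ∀ (n : Type) [Fintype n] [DecidableEq n] (S D : Matrix n n ℂ),
  S.PosSemidef → D.IsHermitian → (S + D).PosSemidef → (S - D).PosSemidef →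
  ∀ y ∈ Icc (0 : ℝ) 1, ∀ A B C : ℝ, (∀ e ∈ Icc (0 : ℝ) 1, A * kk α (e * y) ≤ B * kk α e + C) →
    A * (tp α (S + y • D) + tp α (S - y • D)) ≤ B * (tp α (S + D) + tp α (S - D)) + C * tp α S

def TAN : Prop := ∀ α sg : ℝ, (0 < α ∧ α < 1 ∧ sg = -1) ∨ (3 ≤ α ∧ sg = 1) →
  ∀ e₀ ∈ Icc (0 : ℝ) 1, ∀ y ∈ Icc (0 : ℝ) 1, ∃ B C : ℝ, sg * kk α (e₀ * y) = B * kk α e₀ + C ∧
    ∀ e ∈ Icc (0 : ℝ) 1, sg * kk α (e * y) ≤ B * kk α e + C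

end Pool.Agent.MP_560646_mp.One
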