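import Pool.Agent.MP_560646_mp.Hz.Lt
import Pool.Agent.MP_560646_mp.Hz.St

set_option autoImplicit false

namespace Pool.Agent.MP_560646_mp.One

open Real Set

theorem l6_root {U V W O : ℝ} (hU : 0 < U) (hV : 0 < V) (hO : 0 < O) (h1 : U < W) (h2 : V < W)
    (h3 : W ≤ 1) (h : (1 - U) * (1 - V) ≤ (1 - W) * (1 - O)) :
    ∃ θ : ℝ, 0 < θ ∧ (1 - W ^ θ) * (1 - O ^ θ) - (1 - U ^ θ) * (1 - V ^ θ) = 0 := by
  have hW : 0 < W := hU.trans h1
  have hm : max U V / W < 1 := (div_lt_one hW).2 (max_lt h1 h2)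
  obtain ⟨n, hn⟩ := exists_pow_lt_of_lt_one (show (0 : ℝ) < 1 / 2 by norm_num) hm
  have n1 : (1 : ℝ) ≤ n := by
    rcases Nat.eq_zero_or_pos n with rfl | c
    · norm_num at hn
    · exact_mod_cast c
  rw [div_pow, div_lt_iff₀ (pow_pos hW n)] at hn
  have a : U ^ n ≤ max U V ^ n := pow_le_pow_left₀ hU.le (le_max_left _ _) n
  have b : V ^ n ≤ max U V ^ n := pow_le_pow_left₀ hV.le (le_max_right _ _) n
  have c : W ^ n ≤ 1 := pow_le_one₀ hW.le h3
  have d : 0 ≤ (1 - W ^ n) * O ^ n := mul_nonneg (by linarith) (pow_pos hO n).le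
  have e : 0 ≤ U ^ n * V ^ n := by positivity
  have ct : Continuous fun θ : ℝ => (1 - W ^ θ) * (1 - O ^ θ) - (1 - U ^ θ) * (1 - V ^ θ) :=
    ((continuous_const.sub (continuous_const_rpow hW.ne')).mul
      (continuous_const.sub (continuous_const_rpow hO.ne'))).sub
    ((continuous_const.sub (continuous_const_rpow hU.ne')).mul
      (continuous_const.sub (continuous_const_rpow hV.ne')))
  obtain ⟨θ, hθ, e0⟩ := intermediate_value_Icc' n1 ct.continuousOn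
    (show (0 : ℝ) ∈ Icc _ _ from
      ⟨by simp only [rpow_natCast]; nlinarith, by simp only [rpow_one]; linarith⟩)
  exact ⟨θ, by linarith [hθ.1], e0⟩

theorem l6S (h0 : L0S) (hT : TAN) : L6S := by
  intro α hα x hx y hy
  obtain ⟨-, an, -⟩ := h0 α hα
  have mx : x ∈ Icc (0 : ℝ) 1 := ⟨hx.1.le, hx.2.le⟩
  have my : y ∈ Icc (0 : ℝ) 1 := ⟨hy.1.le, hy.2.le⟩
  have m0 : (0 : ℝ) ∈ Icc (0 : ℝ) 1 := ⟨le_rfl, zero_le_one⟩
  have m1 : (1 : ℝ) ∈ Icc (0 : ℝ) 1 := ⟨zero_le_one, le_rfl⟩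
  have p : 0 < x * y := mul_pos hx.1 hy.1
  have p1 : x * y < x := mul_lt_of_lt_one_right hx.1 hy.2
  have p2 : x * y < y := mul_lt_of_lt_one_left hy.1 hx.2
  have mxy : x * y ∈ Icc (0 : ℝ) 1 := ⟨p.le, (p1.trans hx.2).le⟩
  have a1 := an mxy mx p1
  have a2 := an mxy my p2
  have a3 := an m0 mxy p
  have a4 := an mx m1 hx.2
  have k0 := kk_zero α
  have q1 := kk_pos α mx.1 mx.2
  have q2 := kk_pos α my.1 my.2
  have q3 := kk_pos α m1.1 m1.2
  obtain ⟨B, C, e, t⟩ := hT α (-1) (Or.inl ⟨hα.1, hα.2, rfl⟩) x mx y my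
  have t0 := t 0 m0
  have t1 := t 1 m1
  rw [zero_mul, k0] at t0
  rw [one_mul] at t1
  have s0 : 0 ≤ (kk α x - kk α 1) * (B * 2 + C + 2) := mul_nonneg (by linarith) (by linarith)
  have s1 : 0 ≤ (2 - kk α x) * (B * kk α 1 + C + kk α y) := mul_nonneg (by linarith) (by linarith)
  have w : kk α (x * y) = -(B * kk α x + C) := by linarith
  refine l6_root (by linarith) (by linarith) (by linarith) (by linarith) (by linarith)
    (by linarith) ?_
  rw [w]
  nlinarith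

end Pool.Agent.MP_560646_mp.One
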