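import Pool.Agent.MP_560646_mp.Hz.Lt

/-! The comparison of the branches at orders below 1, from the sign of the Frank defect. -/

set_option autoImplicit false

namespace Pool.Agent.MP_560646_mp.One

open Real Set

theorem l7_alg {u v u' v' w w' c : ℝ} (hu : 0 < u) (hv : 0 < v) (hc : c < 1) (e : u * u' = c)
    (e' : v * v' = c) (h : (1 - w) * (1 - c) - (1 - u) * (1 - v) = 0)
    (h' : 0 ≤ (1 - w') * (1 - c) - (1 - u') * (1 - v')) : u * v * w' ≤ c * w := by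
  have h1 := mul_nonneg (mul_pos hu hv).le h'
  have h2 : u * v * ((1 - u') * (1 - v')) = (u - c) * (v - c) := by
    rw [show (u - c) * (v - c) = (u - u * u') * (v - v * v') by rw [e, e']]
    ring
  refine le_of_mul_le_mul_right ?_ (sub_pos.2 hc)
  rw [mul_sub, h2] at h1
  linear_combination h1 + c * h

theorem l7S (h0 : L0S) (h5 : L5S) (h6 : L6S) : L7S := by
  intro α hα x hx y hy x' hx' y' hy' e e' h
  have hA := (h0 α hα).2.1
  have o : (1 : ℝ) ∈ Icc (0 : ℝ) 1 := right_mem_Icc.2 zero_le_one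
  have z : (0 : ℝ) ∈ Icc (0 : ℝ) 1 := left_mem_Icc.2 zero_le_one
  have k0 := kk_zero α
  rw [← kk_one hα.1.ne'] at e e' h ⊢
  have pos : ∀ t ∈ Icc (0 : ℝ) 1, 0 < kk α t := fun t ht => kk_pos α ht.1 ht.2
  have p1 := pos 1 o
  have a0 : ∀ t ∈ Icc (0 : ℝ) 1, kk α 0 * kk α t = 2 * kk α 1 → t = 1 := fun t ht h =>
    hA.injOn ht o (by rw [k0] at h; linarith)
  have a1 : ∀ t ∈ Icc (0 : ℝ) 1, kk α t * kk α 1 = 2 * kk α 1 → t = 0 := fun t ht h =>
    hA.injOn ht z ((mul_right_cancel₀ p1.ne' h).trans k0.symm)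
  have a2 : ∀ t ∈ Icc (0 : ℝ) 1, 0 < t → kk α t * kk α 1 < 2 * kk α 1 := fun t ht h =>
    mul_lt_mul_of_pos_right ((hA z ht h).trans_eq k0) p1
  rcases hx.1.eq_or_lt with rfl | x0
  · obtain rfl := a0 _ hx' e
    rw [zero_mul, one_mul y', k0]
    linarith
  rcases hy.1.eq_or_lt with rfl | y0
  · obtain rfl := a0 _ hy' e'
    rw [mul_zero, mul_one x', k0]
    linarith
  have x1 : x < 1 := hx.2.lt_of_ne fun c => by
    rw [c, mul_comm (kk α 1)] at h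
    exact (a2 y hy y0).not_ge h
  have y1 : y < 1 := hy.2.lt_of_ne fun c => by
    rw [c] at h
    exact (a2 x hx x0).not_ge h
  have x1' : x' < 1 := hx'.2.lt_of_ne fun c => x0.ne' (a1 x hx (c ▸ e))
  have y1' : y' < 1 := hy'.2.lt_of_ne fun c => y0.ne' (a1 y hy (c ▸ e'))
  have b1 : x ≤ y' := (hA.le_iff_ge hy' hx).1
    (le_of_mul_le_mul_left (by linarith) (pos y hy))
  have b2 : y ≤ x' := (hA.le_iff_ge hx' hy).1
    (le_of_mul_le_mul_left (by linarith) (pos x hx))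
  obtain ⟨θ, hθ, d0⟩ := h6 α hα x ⟨x0, x1⟩ y ⟨y0, y1⟩
  have d1 := h5 α hα θ hθ y ⟨y0, y1⟩ x y' x0 b1 y1' d0.ge
  have d2 := h5 α hα θ hθ y' ⟨x0.trans_le b1, y1'⟩ y x' y0 b2 x1' (d1.trans_eq (by
    unfold de
    rw [mul_comm y' y, mul_comm (1 - (kk α y' / 2) ^ θ)]))
  have hp : ∀ t ∈ Icc (0 : ℝ) 1, 0 < kk α t / 2 := fun t ht => half_pos (pos t ht)
  have hm : ∀ s ∈ Icc (0 : ℝ) 1, ∀ t ∈ Icc (0 : ℝ) 1, kk α s * kk α t = 2 * kk α 1 →
      (kk α s / 2) ^ θ * (kk α t / 2) ^ θ = (kk α 1 / 2) ^ θ := fun s hs t ht h => by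
    rw [← mul_rpow (hp s hs).le (hp t ht).le]
    congr 1
    linarith
  have m : ∀ s ∈ Icc (0 : ℝ) 1, ∀ t ∈ Icc (0 : ℝ) 1, s * t ∈ Icc (0 : ℝ) 1 := fun s hs t ht =>
    ⟨mul_nonneg hs.1 ht.1, mul_le_one₀ hs.2 ht.1 ht.2⟩
  have q1 := hp x hx
  have q2 := hp y hy
  have q3 := hp _ (m _ hx' _ hy')
  have q4 := hp _ (m _ hx _ hy)
  have q5 := hp 1 o
  have c1 : (kk α 1 / 2) ^ θ < 1 :=
    rpow_lt_one q5.le (by linarith [hA z o one_pos]) hθ
  have f := l7_alg (rpow_pos_of_pos q1 θ) (rpow_pos_of_pos q2 θ) c1 (hm x hx x' hx' e)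
    (hm y hy y' hy' e') d0 d2
  rw [← mul_rpow q1.le q2.le, ← mul_rpow (by positivity) q3.le, ← mul_rpow q5.le q4.le,
    rpow_le_rpow_iff (by positivity) (by positivity) hθ] at f
  linarith

end Pool.Agent.MP_560646_mp.One
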