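import Pool.Agent.MP_560646_mp.Hz.Fl
import Pool.Agent.MP_560646_mp.Hz.Jc
import Pool.Agent.MP_560646_mp.Hz.K2
import Pool.Agent.MP_560646_mp.Hz.K3
import Pool.Agent.MP_560646_mp.Hz.K4
import Pool.Agent.MP_560646_mp.Hz.K5
import Pool.Agent.MP_560646_mp.Hz.K6
import Pool.Agent.MP_560646_mp.Hz.L0
import Pool.Agent.MP_560646_mp.Hz.L1
import Pool.Agent.MP_560646_mp.Hz.L2
import Pool.Agent.MP_560646_mp.Hz.L3
import Pool.Agent.MP_560646_mp.Hz.L4
import Pool.Agent.MP_560646_mp.Hz.L5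
import Pool.Agent.MP_560646_mp.Hz.L6
import Pool.Agent.MP_560646_mp.Hz.L7

/-! The comparison of the two branches, assembled. -/

set_option autoImplicit false

namespace Pool.Agent.MP_560646_mp.One

theorem cp_high : K6S := k6S k4S (k5S (k3S (k2S jS)))

theorem cp_low : L7S := l7S l0S (l5S l0S (l4S l0S (l3S (l2S l1S)))) (l6S l0S tanS)

end Pool.Agent.MP_560646_mp.One
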