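import Pool.Agent.MP_560646_mp.Hz.St

set_option autoImplicit false

namespace Pool.Agent.MP_560646_mp.One

open Matrix Real Set MeasureTheory Metric
open scoped ComplexOrder MatrixOrder

theorem h11_pos {c u : ℝ} (hc : -1 < c) (hu : u ∈ Icc (0 : ℝ) 1) : 0 < 1 + c * u := by
  rcases hu.1.eq_or_lt with h | h
  · simp [← h]
  · nlinarith [hu.2, mul_pos (show 0 < c + 1 by linarith) h]

theorem h11_cont (β : ℝ) {g : ℝ → ℝ} (hg : Continuous g) {c : ℝ} (hc : -1 < c) :
    ContinuousOn (fun u : ℝ => (1 + c * u) ^ β * g u) (Icc 0 1) :=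
  (ContinuousOn.rpow_const (by fun_prop) fun _ hu => Or.inl (h11_pos hc hu).ne').mul
    hg.continuousOn

theorem h11_step {γ : ℝ} {g : ℝ → ℝ} (hγ : 0 < γ) (hg : Continuous g)
    (h : ∀ c : ℝ, -1 < c → ∫ u in (0 : ℝ)..1, (1 + c * u) ^ (-γ) * g u = 0) (c : ℝ)
    (hc : -1 < c) : ∫ u in (0 : ℝ)..1, (1 + c * u) ^ (-(γ + 1)) * (u * g u) = 0 := by
  have hug : Continuous fun u : ℝ => u * g u := continuous_id.mul hg
  have hs : Icc ((c - 1) / 2) (c + 1) ∈ nhds c := Icc_mem_nhds (by linarith) (by linarith)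
  have hI : uIoc (0 : ℝ) 1 ⊆ Icc 0 1 := by
    rw [uIoc_of_le zero_le_one]; exact Ioc_subset_Icc_self
  have hm : ∀ (β : ℝ) (f : ℝ → ℝ), Continuous f → ∀ x : ℝ, -1 < x →
      AEStronglyMeasurable (fun u : ℝ => (1 + x * u) ^ β * f u) (volume.restrict (uIoc 0 1)) :=
    fun β f hf x hx => ((h11_cont β hf hx).mono hI).aestronglyMeasurable measurableSet_uIoc
  have hK : ContinuousOn (fun p : ℝ × ℝ => -γ * ((1 + p.1 * p.2) ^ (-(γ + 1)) * (p.2 * g p.2)))
      (Icc ((c - 1) / 2) (c + 1) ×ˢ Icc (0 : ℝ) 1) := by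
    refine continuousOn_const.mul (ContinuousOn.mul (ContinuousOn.rpow_const (by fun_prop)
      fun p hp => Or.inl (h11_pos (by linarith [hp.1.1]) hp.2).ne') ?_)
    exact (hug.comp continuous_snd).continuousOn
  obtain ⟨B, hB⟩ := (isCompact_Icc.prod isCompact_Icc).exists_bound_of_continuousOn hK
  have hd := (intervalIntegral.hasDerivAt_integral_of_dominated_loc_of_deriv_le (μ := volume)
    (a := 0) (b := 1) (F := fun x u : ℝ => (1 + x * u) ^ (-γ) * g u)
    (F' := fun x u : ℝ => -γ * ((1 + x * u) ^ (-(γ + 1)) * (u * g u))) (bound := fun _ => B) hs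
    (by filter_upwards [Ioi_mem_nhds hc] with x hx using hm _ _ hg x hx)
    ((h11_cont _ hg hc).intervalIntegrable_of_Icc zero_le_one)
    ((hm _ _ hug c hc).const_mul _)
    (Filter.Eventually.of_forall fun u hu x hx => hB (x, u) ⟨hx, hI hu⟩)
    intervalIntegrable_const
    (Filter.Eventually.of_forall fun u hu x hx => by
      have h0 := h11_pos (show -1 < x by linarith [hx.1]) (hI hu)
      have h1 : HasDerivAt (fun x : ℝ => 1 + x * u) u x := by
        simpa using ((hasDerivAt_id x).mul_const u).const_add 1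
      have h2 := (h1.rpow_const (p := -γ) (Or.inl h0.ne')).mul_const (g u)
      refine h2.congr_deriv ?_
      rw [show -(γ + 1) = -γ - 1 by ring]
      ring)).2
  have hz : HasDerivAt (fun x : ℝ => ∫ u in (0 : ℝ)..1, (1 + x * u) ^ (-γ) * g u) 0 c := by
    refine (hasDerivAt_const c (0 : ℝ)).congr_of_eventuallyEq ?_
    filter_upwards [Ioi_mem_nhds hc] with x hx using h x hx
  have := hd.unique hz
  rw [intervalIntegral.integral_const_mul] at this
  exact (mul_eq_zero.1 this).resolve_left (by linarith)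

theorem h11_mom {γ : ℝ} {g : ℝ → ℝ} (hγ : 0 < γ) (hg : Continuous g)
    (h : ∀ c : ℝ, -1 < c → ∫ u in (0 : ℝ)..1, (1 + c * u) ^ (-γ) * g u = 0) (k : ℕ) :
    ∀ c : ℝ, -1 < c → ∫ u in (0 : ℝ)..1, (1 + c * u) ^ (-(γ + k)) * (u ^ k * g u) = 0 := by
  induction k with
  | zero => simpa using h
  | succ k ih =>
    intro c hc
    have := h11_step (γ := γ + k) (g := fun u => u ^ k * g u) (by positivity) (by fun_prop) ih c hc
    refine Eq.trans (intervalIntegral.integral_congr fun u _ => ?_) this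
    simp only [Nat.cast_succ, add_assoc, pow_succ]
    ring

theorem h11_poly {g : ℝ → ℝ} (hg : Continuous g)
    (h : ∀ k : ℕ, ∫ u in (0 : ℝ)..1, u ^ k * g u = 0) (p : Polynomial ℝ) :
    ∫ u in (0 : ℝ)..1, p.eval u * g u = 0 := by
  induction p using Polynomial.induction_on' with
  | add p q hp hq =>
    have hc : ∀ r : Polynomial ℝ, Continuous fun u => r.eval u * g u := fun r =>
      r.continuous.mul hg
    simp only [Polynomial.eval_add, add_mul]
    rw [intervalIntegral.integral_add ((hc p).intervalIntegrable _ _)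
      ((hc q).intervalIntegrable _ _), hp, hq, add_zero]
  | monomial n a =>
    simp only [Polynomial.eval_monomial, mul_assoc]
    rw [intervalIntegral.integral_const_mul, h, mul_zero]

theorem h11S : H11S := by
  intro γ g hγ hg h u hu
  have hp := h11_poly hg fun k => by simpa using h11_mom hγ hg h k 0 (by norm_num)
  have h2 : Continuous fun u => g u ^ 2 := hg.pow 2
  have hle : ∫ u in (0 : ℝ)..1, g u ^ 2 ≤ 0 := by
    refine le_of_forall_pos_le_add fun ε hε => ?_
    obtain ⟨p, hq⟩ := exists_polynomial_near_of_continuousOn 0 1 g hg.continuousOn (sqrt ε)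
      (sqrt_pos.2 hε)
    have hpg : Continuous fun u => 2 * (p.eval u * g u) :=
      continuous_const.mul (p.continuous.mul hg)
    have h3 : ∫ u in (0 : ℝ)..1, g u ^ 2 ≤ ∫ u in (0 : ℝ)..1, (2 * (p.eval u * g u) + ε) := by
      refine intervalIntegral.integral_mono_on zero_le_one (h2.intervalIntegrable _ _)
        ((hpg.add continuous_const).intervalIntegrable _ _) fun x hx => ?_
      have h4 := sq_lt_sq' (abs_lt.1 (hq x hx)).1 (abs_lt.1 (hq x hx)).2
      rw [sq_sqrt hε.le] at h4
      nlinarith [sq_nonneg (p.eval x)]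
    rw [intervalIntegral.integral_add (hpg.intervalIntegrable _ _)
      intervalIntegrable_const, intervalIntegral.integral_const_mul, hp] at h3
    simpa using h3
  by_contra hne
  have := intervalIntegral.integral_pos zero_lt_one h2.continuousOn (fun x _ => sq_nonneg _)
    ⟨u, hu, by positivity⟩
  linarith

end Pool.Agent.MP_560646_mp.One
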