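import Pool.Agent.MP_560646_mp.Hz.St

set_option autoImplicit false

namespace Pool.Agent.MP_560646_mp.One

open Matrix Real Set MeasureTheory Metric
open scoped ComplexOrder MatrixOrder

noncomputable def h12_ps (α s u e : ℝ) : ℝ :=
  max (1 + max 0 (min 1 u) * (s * max (-1) (min 1 e) - 2)) 0 ^ α

theorem h12_cont {α : ℝ} (hα : 0 < α) (s : ℝ) : Continuous fun p : ℝ × ℝ => h12_ps α s p.1 p.2 :=
  Continuous.rpow_const (by fun_prop) fun _ => Or.inr hα.le

theorem h12_le {s : ℝ} (hs : |s| ≤ 1) (e : ℝ) : s * max (-1) (min 1 e) ≤ 1 := by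
  have a : |max (-1) (min 1 e)| ≤ 1 :=
    abs_le.2 ⟨le_max_left _ _, max_le (by norm_num) (min_le_left _ _)⟩
  refine (le_abs_self _).trans ?_
  rw [abs_mul]
  exact mul_le_one₀ hs (abs_nonneg _) a

theorem h12_bd {α s : ℝ} (hα : 0 < α) (hs : |s| ≤ 1) (u e : ℝ) : ‖h12_ps α s u e‖ ≤ 1 := by
  rw [h12_ps, norm_of_nonneg (rpow_nonneg (le_max_right _ _) _)]
  refine rpow_le_one (le_max_right _ _) (max_le ?_ zero_le_one) hα.le
  nlinarith [h12_le hs e, le_max_left 0 (min 1 u)]

theorem h12_t {c : ℝ} (hc : -1 < c) : ∃ t ∈ Ioo (0 : ℝ) 1, 1 + t ^ 2 = 2 * t * (c + 2) := by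
  have h0 : 0 ≤ (c + 2) ^ 2 - 1 := by nlinarith
  have h1 : √((c + 2) ^ 2 - 1) < c + 2 := (sqrt_lt' (by linarith)).2 (by linarith)
  have h2 : c + 1 < √((c + 2) ^ 2 - 1) := lt_sqrt_of_sq_lt (by nlinarith)
  refine ⟨c + 2 - √((c + 2) ^ 2 - 1), ⟨by linarith, by linarith⟩, ?_⟩
  nlinarith [sq_sqrt h0]

theorem h12S (h9a : H9A) (h9 : H9S) (h10 : H10S) (h11 : H11S) : H12S := by
  intro α hα n _ _ S D hS hD h₁ h₂ ν _ s hs hν hyp y hy
  have hc := h12_cont hα s
  have cG : Continuous fun u => ∫ e, h12_ps α s u e ∂ν :=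
    continuous_of_dominated (bound := fun _ => 1)
      (fun u => (hc.comp (Continuous.prodMk_right u)).aestronglyMeasurable)
      (fun u => ae_of_all _ fun e => h12_bd hα hs u e) (integrable_const _)
      (ae_of_all _ fun e => hc.comp (Continuous.prodMk_left e))
  have cP := h9a α hα n S (D - (2 : ℝ) • S) hS.1 (hD.sub (herm_smul hS.1 2))
  have cl : ∀ᵐ e ∂ν, max (-1) (min 1 e) = e :=
    hν.mono fun e he => by rw [min_eq_right he.2, max_eq_right he.1]
  have z := h11 (α + 2) (fun u => pa α (S + u • (D - (2 : ℝ) • S)) -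
      α * (α + 1) * ∫ e, h12_ps α s u e ∂ν) (by linarith) (cP.sub (cG.const_mul _)) (by
    intro c hcc
    obtain ⟨t, ht, e⟩ := h12_t hcc
    have t0 : 2 * t ≠ 0 := by have := ht.1; positivity
    have ck : ContinuousOn (fun u : ℝ => (1 + c * u) ^ (-α - 2)) (uIcc 0 1) := by
      refine ContinuousOn.rpow_const (by fun_prop) fun u hu => Or.inl ?_
      rw [uIcc_of_le zero_le_one] at hu
      have : 0 < 1 + c * u := by
        rcases hu.1.eq_or_lt with h | h
        · rw [← h]; norm_num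
        · nlinarith [hu.2]
      exact this.ne'
    have k1 := h9 α hα n S D hS hD h₂ t ht
    rw [hyp t ht, e, mul_div_cancel_left₀ _ t0, add_sub_cancel_right] at k1
    have ik : Integrable (fun u : ℝ => (1 + c * u) ^ (-α - 2)) (volume.restrict (uIoc 0 1)) :=
      intervalIntegrable_iff.1 ck.intervalIntegrable
    have sw := intervalIntegral_integral_swap (μ := ν)
      (f := fun u e => (1 + c * u) ^ (-α - 2) * h12_ps α s u e)
      ((ik.comp_fst ν).mul_bdd hc.aestronglyMeasurable (ae_of_all _ fun p => h12_bd hα hs _ _))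
    have k2 : ∀ e, (α + 1) * ∫ u in (0 : ℝ)..1, (1 + c * u) ^ (-α - 2) * h12_ps α s u e =
        (c + 2 - s * max (-1) (min 1 e))⁻¹ := fun e => by
      rw [← h10 α c _ hα hcc (h12_le hs e)]
      congr 1
      refine intervalIntegral.integral_congr fun u hu => ?_
      rw [uIcc_of_le zero_le_one] at hu
      simp only [h12_ps, min_eq_right hu.2, max_eq_right hu.1]
    have k3 : (α + 1) * ∫ e, (∫ u in (0 : ℝ)..1, (1 + c * u) ^ (-α - 2) * h12_ps α s u e) ∂ν =
        2 * t * ∫ e, (2 * t * (c + 2) - 2 * t * (s * e))⁻¹ ∂ν := by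
      rw [← integral_const_mul, ← integral_const_mul]
      refine integral_congr_ae (cl.mono fun e he => ?_)
      simp only [k2, he]
      rw [← mul_sub, mul_inv, mul_inv_cancel_left₀ t0]
    simp only [integral_const_mul] at sw
    simp only [neg_add', mul_sub, mul_left_comm _ (α * (α + 1))]
    rw [intervalIntegral.integral_sub (ck.fun_mul cP.continuousOn).intervalIntegrable
      ((ck.fun_mul cG.continuousOn).intervalIntegrable.const_mul _),
      intervalIntegral.integral_const_mul, sw, ← k1, mul_assoc α, k3]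
    ring)
  have p : 0 < 1 + 2 * y := by linarith [hy.1]
  have l0 : 0 < (1 + 2 * y)⁻¹ := inv_pos.2 p
  have hu : y / (1 + 2 * y) ∈ Icc (0 : ℝ) 1 :=
    ⟨div_nonneg hy.1 p.le, (div_le_one p).2 (by linarith [hy.1, hy.2])⟩
  have z1 := z _ hu
  have X := (pencil_psd hS h₁ h₂ hy).1
  have e1 : S + (y / (1 + 2 * y)) • (D - (2 : ℝ) • S) = (1 + 2 * y)⁻¹ • (S + y • D) := by
    have a : (1 + 2 * y)⁻¹ = 1 - y / (1 + 2 * y) * 2 := by field_simp; ring
    have b : y / (1 + 2 * y) = (1 + 2 * y)⁻¹ * y := by field_simp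
    rw [smul_add, smul_smul, ← b, a]
    module
  have e2 : pa α ((1 + 2 * y)⁻¹ • (S + y • D)) = (1 + 2 * y)⁻¹ ^ α * tp α (S + y • D) := by
    rw [← tp_smul α X l0.le]
    obtain ⟨U, d, hd, h⟩ := exists_ud (X.smul l0.le)
    rw [h, pa_ud, tp_ud]
    simp only [max_eq_left (hd _)]
  have e3 : ∫ e, h12_ps α s (y / (1 + 2 * y)) e ∂ν =
      (1 + 2 * y)⁻¹ ^ α * ∫ e, (1 + y * (s * e)) ^ α ∂ν := by
    rw [← integral_const_mul]
    refine integral_congr_ae ((cl.and hν).mono fun e he => ?_)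
    have a : |s * e| ≤ 1 := by
      rw [abs_mul]
      exact mul_le_one₀ hs (abs_nonneg _) (abs_le.2 he.2)
    have b : 0 ≤ 1 + y * (s * e) := by nlinarith [(abs_le.1 a).1, hy.1, hy.2]
    have c : 1 + y / (1 + 2 * y) * (s * e - 2) = (1 + 2 * y)⁻¹ * (1 + y * (s * e)) := by
      have p2 : 1 + y * 2 ≠ 0 := by linarith
      field_simp
      ring
    simp only [h12_ps, he.1, min_eq_right hu.2, max_eq_right hu.1, c]
    rw [max_eq_left (mul_nonneg l0.le b), mul_rpow l0.le b]
  simp only [e1, e2, e3] at z1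
  refine mul_left_cancel₀ (rpow_pos_of_pos l0 α).ne' ?_
  linarith

end Pool.Agent.MP_560646_mp.One
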