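import Pool.Agent.MP_560646_mp.Hz.St

/-! The resolvent trace of a pencil in terms of its roots. -/

set_option autoImplicit false

namespace Pool.Agent.MP_560646_mp.One

open Matrix Real Set MeasureTheory Metric
open scoped ComplexOrder MatrixOrder

section
variable {n : Type} [Fintype n] [DecidableEq n]

theorem h2_tr (A : Matrix n n ℂ) (μ : n → ℂ)
    (h : ∀ t : ℂ, det (1 + t • A) = ∏ i, (1 + μ i * t)) : trace A = ∑ i, μ i := by
  obtain ⟨p, hp⟩ : ∃ p : Polynomial ℂ, ∀ t : ℂ,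
      det (1 + t • A) = 1 + trace A * t + p.eval t * t ^ 2 := ⟨_, fun t => det_one_add_smul t A⟩
  have d1 : HasDerivAt (fun t : ℂ => 1 + trace A * t + p.eval t * t ^ 2) (trace A) 0 := by
    have a := (((hasDerivAt_id (0 : ℂ)).const_mul (trace A)).const_add 1).fun_add
      ((p.hasDerivAt 0).fun_mul (hasDerivAt_pow 2 (0 : ℂ)))
    simpa using a
  have d2 : HasDerivAt (fun t : ℂ => ∏ i, (1 + μ i * t)) (∑ i, μ i) 0 := by
    have a := HasDerivAt.fun_finsetProd (u := Finset.univ) (f := fun i (t : ℂ) => 1 + μ i * t)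
      (f' := μ) (x := (0 : ℂ)) fun i _ => by
        simpa using ((hasDerivAt_id (0 : ℂ)).const_mul (μ i)).const_add 1
    simpa using a
  have e : (fun t : ℂ => 1 + trace A * t + p.eval t * t ^ 2) = fun t : ℂ => ∏ i, (1 + μ i * t) :=
    funext fun t => by rw [← hp, h]
  rw [e] at d1
  exact d1.unique d2

theorem h2_rs {T H : Matrix n n ℂ} {κ : n → ℂ} (h : Rt T H κ) (ξ : ℂ) (hξ : ∀ i, ξ - κ i ≠ 0) :
    rs T H ξ = ∑ i, (ξ - κ i)⁻¹ := by
  have hd : det (ξ • T - H) ≠ 0 := by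
    rw [h.2]
    exact mul_ne_zero h.1 (Finset.prod_ne_zero_iff.2 fun i _ => hξ i)
  refine h2_tr _ _ fun t => ?_
  have e : (ξ • T - H) * (1 + t • ((ξ • T - H)⁻¹ * T)) = (ξ + t) • T - H := by
    rw [mul_add, mul_one, mul_smul_comm, ← mul_assoc,
      mul_nonsing_inv _ (isUnit_iff_ne_zero.2 hd), one_mul, add_smul]
    abel
  have e2 := congrArg det e
  rw [det_mul, h.2 (ξ + t)] at e2
  refine mul_left_cancel₀ hd ?_
  rw [e2, h.2 ξ, mul_assoc, ← Finset.prod_mul_distrib]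
  congr 1
  refine Finset.prod_congr rfl fun i _ => ?_
  have := hξ i
  field_simp
  ring

theorem h2_sum {T H : Matrix n n ℂ} {κ : n → ℂ} (h : Rt T H κ) :
    trace (T⁻¹ * H) = ∑ i, κ i := by
  have e : (T⁻¹ * H).charpoly = ∏ i, (Polynomial.X - Polynomial.C (κ i)) := by
    refine Polynomial.funext fun ξ => ?_
    rw [eval_charpoly, Polynomial.eval_prod]
    have e1 : T * (Matrix.scalar n ξ - T⁻¹ * H) = ξ • T - H := by
      rw [mul_sub, ← mul_assoc, mul_nonsing_inv _ (isUnit_iff_ne_zero.2 h.1), one_mul,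
        scalar_apply, ← smul_eq_mul_diagonal]
    have e2 := congrArg det e1
    rw [det_mul, h.2] at e2
    rw [mul_left_cancel₀ h.1 e2]
    simp
  rw [trace_eq_neg_charpoly_nextCoeff, e, Polynomial.prod_X_sub_C_nextCoeff, neg_neg]

theorem h2_ne {κ : ℂ} (hκ : κ.re ≠ 0 ∨ κ = 0) {x : ℝ} (hx : x ≠ 0) :
    Complex.I * x - κ ≠ 0 := by
  intro h
  have h' : κ = Complex.I * x := (sub_eq_zero.1 h).symm
  rcases hκ with a | a
  · apply a
    rw [h']
    simp
  · rw [a] at h'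
    exact mul_ne_zero Complex.I_ne_zero (Complex.ofReal_ne_zero.2 hx) h'.symm

theorem h2_ps {T H : Matrix n n ℂ} {κ : n → ℂ} (h : Rt T H κ)
    (hκ : ∀ i, (κ i).re ≠ 0 ∨ κ i = 0) (x : ℝ) (hx : 0 < x) :
    ps T H x = ∑ i, κ i ^ 2 / (κ i ^ 2 + (x : ℂ) ^ 2) := by
  have a1 : ∀ i, Complex.I * x - κ i ≠ 0 := fun i => h2_ne (hκ i) hx.ne'
  have a2 : ∀ i, -(Complex.I * x) - κ i ≠ 0 := fun i => by
    have := h2_ne (hκ i) (neg_ne_zero.2 hx.ne')
    rwa [Complex.ofReal_neg, mul_neg] at this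
  rw [ps, h2_rs h _ a1, h2_rs h _ a2, ← Finset.sum_sub_distrib, Finset.mul_sum,
    Fintype.card_eq_sum_ones, Nat.cast_sum, ← Finset.sum_sub_distrib]
  refine Finset.sum_congr rfl fun i _ => ?_
  have e : κ i ^ 2 + (x : ℂ) ^ 2 = (Complex.I * x - κ i) * (-(Complex.I * x) - κ i) := by
    linear_combination (x : ℂ) ^ 2 * Complex.I_mul_I
  rw [e]
  have b1 := a1 i
  have b2 := a2 i
  generalize Complex.I * (x : ℂ) = w at b1 b2
  field_simp
  push_cast
  ring

end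

theorem h2S (h1 : H1S) : H2S := by
  intro n _ _ T H κ h hκ
  refine ⟨h2_ps h hκ, ?_⟩
  have e : ∫ x in Ioi (0 : ℝ), ps T H x =
      ∑ i, ∫ x in Ioi (0 : ℝ), κ i ^ 2 / (κ i ^ 2 + (x : ℂ) ^ 2) := by
    rw [← integral_finsetSum _ fun i _ => (h1.1 (κ i) (hκ i)).1]
    exact setIntegral_congr_fun measurableSet_Ioi fun x hx => h2_ps h hκ x hx
  rw [cs, h2_sum h, e, Finset.sum_div, Finset.mul_sum, ← Finset.sum_add_distrib]
  exact Finset.sum_congr rfl fun i _ => (h1.1 (κ i) (hκ i)).2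

end Pool.Agent.MP_560646_mp.One
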