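import Pool.Agent.MP_560646_mp.Hz.St

/-! The roots of the pencil. -/

set_option autoImplicit false

namespace Pool.Agent.MP_560646_mp.One

open Matrix Real Set MeasureTheory Metric
open scoped ComplexOrder MatrixOrder

lemma h3_den {z : ℂ} (hz : ‖z‖ < 1) {e : ℝ} (he : |e| ≤ 1) : 1 + z ^ 2 - 2 * z * e ≠ 0 := by
  intro h
  have h1 := congrArg Complex.re h
  have h2 := congrArg Complex.im h
  simp [pow_two] at h1 h2
  have h3 : z.re * z.re + z.im * z.im < 1 := by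
    have := Complex.sq_norm z
    rw [Complex.normSq_apply] at this
    nlinarith [norm_nonneg z]
  obtain ⟨e1, e2⟩ := abs_le.1 he
  have h4 : z.im * (z.re - e) = 0 := by linarith
  rcases mul_eq_zero.1 h4 with h5 | h5
  · rw [h5] at h1 h3
    have h6 : (z.re - e) ^ 2 + (1 - e) * (1 + e) = 0 := by linarith
    have h7 : 0 ≤ (1 - e) * (1 + e) := mul_nonneg (by linarith) (by linarith)
    have h8 : z.re = e := by nlinarith [sq_nonneg (z.re - e)]
    rw [h8] at h1 h3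
    nlinarith
  · have h8 : z.re = e := by linarith
    rw [← h8] at h1
    nlinarith

section
variable {n : Type} [Fintype n] [DecidableEq n]

lemma h3_min {S : Matrix n n ℂ} (hS : S.PosDef) :
    ∃ m : ℝ, 0 < m ∧ (S + (-m) • (1 : Matrix n n ℂ)).PosSemidef := by
  obtain ⟨U, d, hd, rfl⟩ := exists_ud_pos hS
  have h0 : 0 ≤ ∑ i, (d i)⁻¹ := Finset.sum_nonneg fun i _ => (inv_pos.2 (hd i)).le
  refine ⟨(1 + ∑ i, (d i)⁻¹)⁻¹, by positivity, ?_⟩
  rw [ud_shift]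
  refine ud_psd U fun i => ?_
  have h1 : (d i)⁻¹ ≤ ∑ i, (d i)⁻¹ :=
    Finset.single_le_sum (f := fun i => (d i)⁻¹) (fun i _ => (inv_pos.2 (hd i)).le)
      (Finset.mem_univ i)
  have h2 : (1 + ∑ i, (d i)⁻¹)⁻¹ ≤ d i := inv_le_of_inv_le₀ (hd i) (by linarith)
  linarith

lemma h3_form {S D : Matrix n n ℂ} (hS : S.PosDef) (h1 : (S + D).PosSemidef)
    (h2 : (S - D).PosSemidef) {m : ℝ} (hm : (S + (-m) • (1 : Matrix n n ℂ)).PosSemidef)
    {v : n → ℂ} (hv : v ≠ 0) : ∃ s e w : ℝ, 0 < s ∧ |e| ≤ 1 ∧ 0 ≤ w ∧ m * w ≤ s ∧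
      star v ⬝ᵥ S *ᵥ v = s ∧ star v ⬝ᵥ D *ᵥ v = s * e ∧ star v ⬝ᵥ v = w := by
  have a0 := hS.dotProduct_mulVec_pos hv
  have a1 := h1.dotProduct_mulVec_nonneg v
  have a2 := h2.dotProduct_mulVec_nonneg v
  have a3 := hm.dotProduct_mulVec_nonneg v
  have a4 : 0 ≤ star v ⬝ᵥ v := dotProduct_star_self_nonneg v
  rw [add_mulVec, dotProduct_add] at a1
  rw [sub_mulVec, dotProduct_sub] at a2
  rw [add_mulVec, dotProduct_add, smul_mulVec, one_mulVec, dotProduct_smul] at a3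
  obtain ⟨s, hs⟩ : ∃ s : ℝ, star v ⬝ᵥ S *ᵥ v = s :=
    ⟨_, (Complex.eq_re_of_ofReal_le (r := 0) a0.le)⟩
  obtain ⟨w, hw⟩ : ∃ w : ℝ, star v ⬝ᵥ v = w := ⟨_, (Complex.eq_re_of_ofReal_le (r := 0) a4)⟩
  obtain ⟨d, hd⟩ : ∃ d : ℝ, star v ⬝ᵥ D *ᵥ v = d := by
    refine ⟨_, (Complex.conj_eq_iff_re.1 (Complex.conj_eq_iff_im.2 ?_)).symm⟩
    have := (Complex.nonneg_iff.1 a1).2
    rw [hs] at this
    simpa using this.symm
  rw [hs] at a0 a1 a2 a3
  rw [hd] at a1 a2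
  rw [hw] at a3 a4
  rw [Complex.real_smul] at a3
  have b0 : 0 < s := by exact_mod_cast a0
  have b1 : 0 ≤ s + d := by exact_mod_cast a1
  have b2 : 0 ≤ s - d := by exact_mod_cast a2
  have b3 : 0 ≤ s + -m * w := by exact_mod_cast a3
  have b4 : 0 ≤ w := by exact_mod_cast a4
  refine ⟨s, d / s, w, b0, ?_, b4, by linarith, hs, ?_, hw⟩
  · rw [abs_div, abs_of_pos b0, div_le_one b0, abs_le]
    constructor <;> linarith
  · rw [hd, ← Complex.ofReal_mul, mul_div_cancel₀ _ b0.ne']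

lemma h3_roots {T : Matrix n n ℂ} (hT : det T ≠ 0) (H : Matrix n n ℂ) :
    ∃ κ : n → ℂ, ∀ ξ : ℂ, det (ξ • T - H) = det T * ∏ i, (ξ - κ i) := by
  classical
  have hs := IsAlgClosed.splits (T⁻¹ * H).charpoly
  have hc : Fintype.card n = Fintype.card (T⁻¹ * H).charpoly.roots := by
    rw [Multiset.card_coe, ← hs.natDegree_eq_card_roots, charpoly_natDegree_eq_dim]
  let E := Fintype.equivOfCardEq hc
  refine ⟨fun i => (E i : ℂ), fun ξ => ?_⟩
  have e1 : ∏ i, (ξ - (E i : ℂ)) = ((T⁻¹ * H).charpoly.roots.map (ξ - ·)).prod := by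
    rw [E.prod_comp fun x => ξ - (x : ℂ), ← Multiset.map_univ]
    rfl
  rw [e1, ← hs.eval_eq_prod_roots_of_monic (charpoly_monic _), eval_charpoly, ← det_mul, mul_sub,
    ← mul_assoc, mul_nonsing_inv _ (isUnit_iff_ne_zero.2 hT), one_mul]
  congr 2
  rw [scalar_apply, ← smul_eq_mul_diagonal]

end

theorem h3S : H3S := by
  intro n _ _ S D hS _ h1 h2 R
  obtain ⟨m, m0, hm⟩ := h3_min hS
  refine ⟨1 + |R| / m, fun z hz1 a ha => ?_⟩
  have hT : ∀ v : n → ℂ, ∀ s e : ℝ, star v ⬝ᵥ S *ᵥ v = s → star v ⬝ᵥ D *ᵥ v = s * e →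
      star v ⬝ᵥ tz S D z *ᵥ v = s * (1 + z ^ 2 - 2 * z * e) := by
    intro v s e a1 a2
    rw [tz, sub_mulVec, smul_mulVec, smul_mulVec, dotProduct_sub, dotProduct_smul,
      dotProduct_smul, a1, a2, smul_eq_mul, smul_eq_mul]
    ring
  have hd : det (tz S D z) ≠ 0 := by
    intro h
    obtain ⟨v, hv, h0⟩ := exists_mulVec_eq_zero_iff.2 h
    obtain ⟨s, e, w, s0, he, -, -, a1, a2, -⟩ := h3_form hS h1 h2 hm hv
    have := hT v s e a1 a2
    rw [h0, dotProduct_zero] at this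
    exact mul_ne_zero (Complex.ofReal_ne_zero.2 s0.ne') (h3_den hz1 he) this.symm
  obtain ⟨κ, hκ⟩ := h3_roots hd (hz S z a)
  have key : ∀ i, ∃ h e : ℝ, (|h| ≤ 1 + |R| / m ∧ |e| ≤ 1) ∧ κ i = h * mz z e := by
    intro i
    have h0 := hκ (κ i)
    rw [Finset.prod_eq_zero (Finset.mem_univ i) (sub_self _), mul_zero] at h0
    obtain ⟨v, hv, h3⟩ := exists_mulVec_eq_zero_iff.2 h0
    obtain ⟨s, e, w, s0, he, w0, hw, a1, a2, a3⟩ := h3_form hS h1 h2 hm hv
    have b1 := congrArg (star v ⬝ᵥ ·) h3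
    simp only [sub_mulVec, smul_mulVec, dotProduct_sub, dotProduct_smul, hT v s e a1 a2, hz,
      one_mulVec, a1, a3, dotProduct_zero, smul_eq_mul, Complex.real_smul] at b1
    refine ⟨1 - a * w / s, e, ⟨?_, he⟩, ?_⟩
    · have c1 : 0 ≤ a * w / s := div_nonneg (mul_nonneg ha.1 w0) s0.le
      have c2 : a * w / s ≤ |R| / m := by
        rw [div_le_div_iff₀ s0 m0]
        have := ha.2.trans (le_abs_self R)
        nlinarith [mul_le_mul this hw (by positivity) (abs_nonneg R)]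
      rw [abs_le]
      constructor <;> linarith
    · have c1 := h3_den hz1 he
      have c2 : (s : ℂ) ≠ 0 := Complex.ofReal_ne_zero.2 s0.ne'
      rw [mz, ← mul_div_assoc, eq_div_iff c1]
      push_cast
      refine mul_left_cancel₀ c2 ?_
      have c3 : (s : ℂ) * (a * w / s) = a * w := mul_div_cancel₀ _ c2
      linear_combination b1 + (1 - z ^ 2) * c3
  choose h e hb he using key
  exact ⟨h, e, hb, hd, fun ξ => by rw [hκ]; simp only [he]⟩

end Pool.Agent.MP_560646_mp.One
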