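import Pool.Agent.MP_560646_mp.Hz.St

/-! Bounds for the roots of the pencil inside the disc. -/

set_option autoImplicit false

namespace Pool.Agent.MP_560646_mp.One

open Set

theorem h4_cay {w : ℂ} {r : ℝ} (hw : ‖w‖ ≤ r) (hr : r < 1) : 1 - w ≠ 0 ∧
    (1 - r) / (1 + r) ≤ ((1 + w) / (1 - w)).re ∧ ‖(1 + w) / (1 - w)‖ ≤ (1 + r) / (1 - r) := by
  have w0 := norm_nonneg w
  have h1 : 1 - r ≤ ‖1 - w‖ := by
    have := norm_sub_norm_le (1 : ℂ) w
    rw [norm_one] at this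
    linarith
  have h2 : ‖1 - w‖ ≤ 1 + ‖w‖ := by simpa using norm_sub_le (1 : ℂ) w
  have h3 : ‖1 + w‖ ≤ 1 + r := by
    have := norm_add_le (1 : ℂ) w
    rw [norm_one] at this
    linarith
  have h4 : 0 < ‖1 - w‖ := by linarith
  refine ⟨norm_pos_iff.1 h4, ?_, ?_⟩
  · have e : ((1 + w) / (1 - w)).re = (1 - ‖w‖ ^ 2) / ‖1 - w‖ ^ 2 := by
      rw [Complex.div_re, ← add_div, Complex.normSq_eq_norm_sq, Complex.sq_norm w,
        Complex.normSq_apply]
      congr 1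
      simp only [Complex.add_re, Complex.one_re, Complex.sub_re, Complex.add_im, Complex.one_im,
        Complex.sub_im]
      ring
    rw [e, div_le_div_iff₀ (by linarith) (by positivity)]
    have h5 : ‖1 - w‖ ^ 2 ≤ (1 + ‖w‖) ^ 2 := by gcongr
    have h6 : (1 - r) * ‖1 - w‖ ^ 2 ≤ (1 - r) * (1 + ‖w‖) ^ 2 :=
      mul_le_mul_of_nonneg_left h5 (by linarith)
    have h7 : 0 ≤ (1 + ‖w‖) * (r - ‖w‖) := mul_nonneg (by linarith) (by linarith)
    nlinarith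
  · rw [norm_div]
    exact div_le_div₀ (by linarith) h3 (by linarith) h1

theorem h4_bd {z : ℂ} {r e : ℝ} (hz : ‖z‖ ≤ r) (hr : r < 1) (he : |e| ≤ 1) :
    (1 - r) / (1 + r) ≤ (mz z e).re ∧ ‖mz z e‖ ≤ (1 + r) / (1 - r) := by
  obtain ⟨s, hs⟩ : ∃ s : ℝ, s ^ 2 = 1 - e ^ 2 :=
    ⟨√(1 - e ^ 2), Real.sq_sqrt (by nlinarith [sq_abs e, abs_nonneg e])⟩
  have hs' : (s : ℂ) ^ 2 = 1 - (e : ℂ) ^ 2 := by exact_mod_cast hs
  have n : ∀ t : ℝ, t ^ 2 = 1 - e ^ 2 → ‖z * ((e : ℂ) + t * Complex.I)‖ ≤ r := fun t ht => by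
    rw [norm_mul, Complex.norm_add_mul_I, ht, add_sub_cancel, Real.sqrt_one, mul_one]
    exact hz
  obtain ⟨a0, a1, a2⟩ := h4_cay (n s hs) hr
  obtain ⟨b0, b1, b2⟩ := h4_cay (n (-s) (by rw [neg_sq, hs])) hr
  have d : 1 + z ^ 2 - 2 * z * e = (1 - z * ((e : ℂ) + s * Complex.I)) *
      (1 - z * ((e : ℂ) + ((-s : ℝ) : ℂ) * Complex.I)) := by
    push_cast
    linear_combination (-z ^ 2) * hs' + (z ^ 2 * s ^ 2) * Complex.I_sq
  have m : mz z e = ((1 + z * ((e : ℂ) + s * Complex.I)) / (1 - z * ((e : ℂ) + s * Complex.I)) +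
      (1 + z * ((e : ℂ) + ((-s : ℝ) : ℂ) * Complex.I)) /
        (1 - z * ((e : ℂ) + ((-s : ℝ) : ℂ) * Complex.I))) / 2 := by
    rw [div_add_div _ _ a0 b0, div_right_comm, ← d, mz]
    congr 1
    push_cast
    linear_combination (z ^ 2) * hs' - (z ^ 2 * s ^ 2) * Complex.I_sq
  rw [m]
  constructor
  · rw [Complex.div_ofNat_re, Complex.add_re]
    linarith
  · rw [norm_div, Complex.norm_ofNat]
    linarith [norm_add_le ((1 + z * ((e : ℂ) + s * Complex.I)) /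
      (1 - z * ((e : ℂ) + s * Complex.I))) ((1 + z * ((e : ℂ) + ((-s : ℝ) : ℂ) * Complex.I)) /
        (1 - z * ((e : ℂ) + ((-s : ℝ) : ℂ) * Complex.I)))]

theorem h4S : H4S := by
  refine ⟨fun r hr => ?_, fun ρ hρ ζ hζ e _ => ?_⟩
  · have h0 : 0 ≤ max r 0 := le_max_right _ _
    have h1 : max r 0 < 1 := max_lt hr one_pos
    generalize hR : max r 0 = R at h0 h1
    have h2 : 0 < 1 - R := by linarith
    have h3 : 0 < (1 - R) / (1 + R) := by positivity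
    refine ⟨((1 - R) / (1 + R)) ^ 2, (1 + R) / (1 - R), by positivity, fun z hz e he => ?_⟩
    obtain ⟨a, b⟩ := h4_bd (r := R) (hz.trans (hR ▸ le_max_left _ _)) h1 he
    refine ⟨h3.trans_le a, le_trans ?_ a, b⟩
    refine (mul_le_mul_of_nonneg_left b (by positivity)).trans (le_of_eq ?_)
    field_simp
  · have h1 : 1 - ((ρ : ℂ) * ζ) ^ 2 ≠ 0 := by
      intro h
      have h2 : ‖((ρ : ℂ) * ζ) ^ 2‖ = 1 := by rw [← sub_eq_zero.1 h, norm_one]
      rw [norm_pow, norm_mul, hζ, mul_one, Complex.norm_real, Real.norm_of_nonneg hρ.1.le] at h2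
      nlinarith [hρ.1, hρ.2]
    have h3 : ζ.re ^ 2 + ζ.im ^ 2 = 1 := by
      have h4 := Complex.sq_norm ζ
      rw [hζ, Complex.normSq_apply] at h4
      linarith
    rw [mz, mul_assoc, ← mul_div_assoc, inv_mul_cancel₀ h1, mul_one_div, Complex.div_re,
      ← add_div]
    refine div_nonneg (le_of_le_of_eq (b := 2 * ζ.im ^ 2 * (1 - ρ ^ 2)) ?_ ?_)
      (Complex.normSq_nonneg _)
    · have h5 : 0 ≤ 1 - ρ ^ 2 := by nlinarith [hρ.1, hρ.2]
      positivity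
    · simp only [sq, Complex.add_re, Complex.one_re, Complex.sub_re, Complex.add_im,
        Complex.one_im, Complex.sub_im, Complex.mul_re, Complex.mul_im, Complex.ofReal_re,
        Complex.ofReal_im, Complex.re_ofNat, Complex.im_ofNat]
      linear_combination (2 * ζ.im ^ 2 * ρ ^ 2 + 1 + ρ ^ 2 * (ζ.re ^ 2 - ζ.im ^ 2) -
        2 * ρ * ζ.re * e) * h3

end Pool.Agent.MP_560646_mp.One
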