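import Pool.Agent.MP_560646_mp.Hz.St

/-! Holomorphic dependence of a dominated integral on the parameter. -/

set_option autoImplicit false

namespace Pool.Agent.MP_560646_mp.One

open Set MeasureTheory Metric Filter Topology

theorem h5_seq (z₀ : ℂ) {δ : ℝ} (hδ : 0 < δ) :
    ∃ u : ℕ → ℂ, (∀ k, ‖u k - z₀‖ ≤ δ) ∧ Tendsto u atTop (𝓝[≠] z₀) := by
  refine ⟨fun k => z₀ + ((δ * (1 / ((k : ℝ) + 1)) : ℝ) : ℂ), fun k => ?_, ?_⟩
  · rw [add_sub_cancel_left, Complex.norm_real, Real.norm_of_nonneg (by positivity)]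
    refine mul_le_of_le_one_right hδ.le ?_
    rw [div_le_one (by positivity)]
    linarith [(Nat.cast_nonneg k : (0 : ℝ) ≤ k)]
  · refine tendsto_nhdsWithin_iff.2 ⟨?_, Eventually.of_forall fun k => ?_⟩
    · have h1 : Tendsto (fun k : ℕ => δ * (1 / ((k : ℝ) + 1))) atTop (𝓝 (δ * 0)) :=
        tendsto_one_div_add_atTop_nhds_zero_nat.const_mul δ
      have h2 := (Complex.continuous_ofReal.tendsto _).comp h1
      have h3 := h2.const_add z₀
      simpa [Function.comp_def] using h3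
    · have : (0 : ℝ) < δ * (1 / ((k : ℝ) + 1)) := by positivity
      intro h
      have h' : z₀ + ((δ * (1 / ((k : ℝ) + 1)) : ℝ) : ℂ) = z₀ := h
      exact this.ne' (Complex.ofReal_eq_zero.1 (add_eq_left.1 h'))

theorem h5S : H5S := by
  intro μ F hm hd hb z₀ hz₀
  have hz : ‖z₀‖ < 1 := mem_ball_zero_iff.1 hz₀
  set δ : ℝ := (1 - ‖z₀‖) / 3 with hδd
  have hδ : 0 < δ := by rw [hδd]; linarith
  obtain ⟨g, hg, hgb⟩ := hb (‖z₀‖ + 2 * δ) (by rw [hδd]; linarith)
  have hnorm : ∀ z w : ℂ, ‖z - z₀‖ ≤ δ → ‖w - z‖ ≤ δ → ‖w‖ ≤ ‖z₀‖ + 2 * δ := by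
    intro z w h1 h2
    have h3 := norm_add_le (w - z) (z - z₀)
    have h4 := norm_add_le (w - z + (z - z₀)) z₀
    rw [show w - z + (z - z₀) + z₀ = w by ring] at h4
    linarith
  have hin : ∀ z w : ℂ, ‖z - z₀‖ ≤ δ → ‖w - z‖ ≤ δ → w ∈ ball (0 : ℂ) 1 := by
    intro z w h1 h2
    have := hnorm z w h1 h2
    rw [mem_ball_zero_iff]
    rw [hδd] at this
    linarith
  have hin' : ∀ z : ℂ, ‖z - z₀‖ ≤ δ → z ∈ ball (0 : ℂ) 1 := fun z h =>
    hin z z h (by simpa using hδ.le)
  have hmeas : AEStronglyMeasurable (fun x => deriv (fun z => F z x) z₀) μ := by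
    obtain ⟨u, hu, hu'⟩ := h5_seq z₀ hδ
    refine aestronglyMeasurable_of_tendsto_ae atTop
      (f := fun k x => (u k - z₀)⁻¹ • (F (u k) x - F z₀ x)) (fun k => ?_) ?_
    · exact ((hm _ (hin' _ (hu k))).sub (hm _ hz₀)).const_smul (u k - z₀)⁻¹
    · filter_upwards [hd] with x hx
      have h1 := (hx.differentiableAt (isOpen_ball.mem_nhds hz₀)).hasDerivAt
      exact (hasDerivAt_iff_tendsto_slope.1 h1).comp hu'
  have key := hasDerivAt_integral_of_dominated_loc_of_deriv_le (μ := μ) (F := F) (x₀ := z₀)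
    (s := ball z₀ δ) (bound := fun x => g x / δ) (F' := fun z x => deriv (fun z => F z x) z)
    (ball_mem_nhds z₀ hδ)
    (by filter_upwards [isOpen_ball.mem_nhds hz₀] with z h using hm z h)
    (hg.mono' (hm _ hz₀) (hgb.mono fun x hx => hx z₀ (by linarith)))
    hmeas
    (by
      filter_upwards [hd, hgb] with x hx hx' z hz1
      have h1 : ‖z - z₀‖ ≤ δ := (mem_ball_iff_norm.1 hz1).le
      refine Complex.norm_deriv_le_of_forall_mem_sphere_norm_le hδ ?_ fun w hw => ?_
      · refine DifferentiableOn.diffContOnCl (hx.mono fun w hw => hin z w h1 ?_)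
        exact mem_closedBall_iff_norm.1 (closure_ball_subset_closedBall hw)
      · exact hx' w (hnorm z w h1 (mem_sphere_iff_norm.1 hw).le))
    (hg.div_const δ)
    (by
      filter_upwards [hd] with x hx z hz1
      exact (hx.differentiableAt
        (isOpen_ball.mem_nhds (hin' z (mem_ball_iff_norm.1 hz1).le))).hasDerivAt)
  exact key.2.differentiableAt.differentiableWithinAt

end Pool.Agent.MP_560646_mp.One
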