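import Pool.Agent.MP_560646_mp.Hz.St

set_option autoImplicit false

namespace Pool.Agent.MP_560646_mp.One

open Matrix Real Set MeasureTheory Metric
open scoped ComplexOrder MatrixOrder

section
variable {n : Type} [Fintype n] [DecidableEq n]

/-- uniform control of the roots on smaller discs -/
def h6_Ro (R : ℝ) (S D : Matrix n n ℂ) : Prop := ∀ r : ℝ, r < 1 → ∃ η K : ℝ, 0 < η ∧ 0 < K ∧
  ∀ z : ℂ, ‖z‖ ≤ r → ∀ a ∈ Icc (0 : ℝ) R, ∃ (h e : n → ℝ) (κ : n → ℂ),
    Rt (tz S D z) (hz S z a) κ ∧ ∀ i, κ i = h i * mz z (e i) ∧ |e i| ≤ 1 ∧ 0 < (mz z (e i)).re ∧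
      ((κ i).re ≠ 0 ∨ κ i = 0) ∧ η * ‖κ i‖ ≤ |(κ i).re| ∧ ‖κ i‖ ≤ K

theorem h6_root (h3 : H3S) (h4 : H4S) (R : ℝ) {S D : Matrix n n ℂ} (hS : S.PosDef)
    (hD : D.IsHermitian) (hp : (S + D).PosSemidef) (hm : (S - D).PosSemidef) : h6_Ro R S D := by
  obtain ⟨B, hB⟩ := h3 n S D hS hD hp hm R
  intro r hr
  obtain ⟨η, C, hη, hC⟩ := h4.1 r hr
  refine ⟨η, |B| * |C| + 1, hη, by positivity, fun z hz a ha => ?_⟩
  obtain ⟨h, e, h1, h2⟩ := hB z (hz.trans_lt hr) a ha
  refine ⟨h, e, _, h2, fun i => ?_⟩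
  obtain ⟨c1, c2, c3⟩ := hC z hz (e i) (h1 i).2
  have e1 : ((h i : ℂ) * mz z (e i)).re = h i * (mz z (e i)).re := Complex.re_ofReal_mul _ _
  have e2 : ‖(h i : ℂ) * mz z (e i)‖ = |h i| * ‖mz z (e i)‖ := by
    rw [norm_mul, Complex.norm_real, Real.norm_eq_abs]
  refine ⟨rfl, (h1 i).2, c1, ?_, ?_, ?_⟩
  · by_cases h0 : h i = 0
    · right; simp [h0]
    · left; rw [e1]; exact mul_ne_zero h0 c1.ne'
  · rw [e1, e2, abs_mul, abs_of_pos c1, mul_left_comm]
    exact mul_le_mul_of_nonneg_left c2 (abs_nonneg _)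
  · rw [e2]
    have := mul_le_mul ((h1 i).1.trans (le_abs_self B)) (c3.trans (le_abs_self C))
      (norm_nonneg _) (abs_nonneg B)
    linarith

omit [Fintype n] [DecidableEq n] in
theorem h6_tz (S D : Matrix n n ℂ) (U : Set ℂ) (i j : n) :
    DifferentiableOn ℂ (fun z => tz S D z i j) U := by
  simp only [tz, Matrix.sub_apply, Matrix.smul_apply, smul_eq_mul]
  fun_prop

omit [Fintype n] in
theorem h6_hz (S : Matrix n n ℂ) (a : ℝ) (U : Set ℂ) (i j : n) :
    DifferentiableOn ℂ (fun z => hz S z a i j) U := by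
  simp only [hz, Matrix.smul_apply, smul_eq_mul]
  fun_prop

theorem h6_rs (ha : H6A) {R : ℝ} {S D : Matrix n n ℂ} (hr : h6_Ro R S D) {a : ℝ}
    (h : a ∈ Icc (0 : ℝ) R) {ξ : ℂ} (h0 : ξ.re = 0) (h1 : ξ ≠ 0) :
    DifferentiableOn ℂ (fun z => rs (tz S D z) (hz S z a) ξ) (ball 0 1) := by
  refine (ha n).1 (fun z => ξ • tz S D z - hz S z a) (tz S D) _ (fun i j => ?_) (h6_tz S D _)
    fun z hz => ?_
  · simp only [Matrix.sub_apply, Matrix.smul_apply, smul_eq_mul]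
    exact ((h6_tz S D _ i j).const_mul ξ).sub (h6_hz S a _ i j)
  · obtain ⟨η, K, -, -, hk⟩ := hr ‖z‖ (by simpa using hz)
    obtain ⟨_, _, κ, k1, k2⟩ := hk z le_rfl a h
    rw [k1.2]
    refine mul_ne_zero k1.1 (Finset.prod_ne_zero_iff.2 fun i _ h2 => ?_)
    rw [sub_eq_zero] at h2
    rcases (k2 i).2.2.2.1 with h3 | h3
    · exact h3 (h2 ▸ h0)
    · exact h1 (h2.trans h3)

theorem h6_cs (h1 : H1S) (h2 : H2S) (h5 : H5S) (ha : H6A) {R : ℝ} {S D : Matrix n n ℂ}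
    (hr : h6_Ro R S D) {a : ℝ} (h : a ∈ Icc (0 : ℝ) R) :
    DifferentiableOn ℂ (fun z => cs (tz S D z) (hz S z a)) (ball 0 1) := by
  have hp : ∀ᵐ x ∂volume.restrict (Ioi (0 : ℝ)), 0 < x := ae_restrict_mem measurableSet_Ioi
  refine (((ha n).1 (tz S D) (fun z => hz S z a) _ (h6_tz S D _) (h6_hz S a _)
    fun z hz => ?_).div_const 2).add ((h5 (volume.restrict (Ioi 0))
      (fun z x => ps (tz S D z) (hz S z a) x) (fun z _ => ?_) ?_ fun r hr1 => ?_).const_mul _)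
  · obtain ⟨η, K, -, -, hk⟩ := hr ‖z‖ (by simpa using hz)
    obtain ⟨_, _, κ, k1, -⟩ := hk z le_rfl a h
    exact k1.1
  · exact (((ha n).2 S (tz S D z) z).1.comp (measurable_prodMk_left (x := a))).aestronglyMeasurable
  · filter_upwards [hp] with x hx
    have n0 : Complex.I * (x : ℂ) ≠ 0 :=
      mul_ne_zero Complex.I_ne_zero (Complex.ofReal_ne_zero.2 hx.ne')
    exact (((h6_rs ha hr h (by simp) n0).sub
      (h6_rs ha hr h (by simp) (neg_ne_zero.2 n0))).const_mul _).const_sub _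
  · obtain ⟨η, K, hη, hK, hk⟩ := hr r hr1
    refine ⟨fun x => Fintype.card n * (2 / η ^ 2 * (K ^ 2 / (K ^ 2 + x ^ 2))), ?_, ?_⟩
    · refine Integrable.const_mul (Integrable.const_mul (Integrable.integrableOn ?_) _) _
      refine (integrable_inv_one_add_sq.comp_div hK.ne').congr (ae_of_all _ fun x => ?_)
      have := hK.ne'
      simp only
      field_simp
    · filter_upwards [hp] with x hx z hz
      obtain ⟨_, _, κ, k1, k2⟩ := hk z hz a h
      rw [(h2 n _ _ κ k1 fun i => (k2 i).2.2.2.1).1 x hx]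
      refine (norm_sum_le _ _).trans ?_
      rw [← Finset.card_univ, ← nsmul_eq_mul]
      exact Finset.sum_le_card_nsmul _ _ _ fun i _ =>
        h1.2 (κ i) η K x hη (k2 i).2.2.2.2.1 (k2 i).2.2.2.2.2 hx

end

theorem h6_re (μ : Measure ℝ) (f : ℝ → ℂ) (h : ∀ᵐ a ∂μ, 0 ≤ (f a).re) :
    0 ≤ (∫ a, f a ∂μ).re := by
  by_cases hf : Integrable f μ
  · have := integral_re hf
    simp only [RCLike.re_to_complex] at this
    rw [← this]
    exact integral_nonneg_of_ae h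
  · rw [integral_undef hf]
    simp

theorem h6S (h1 : H1S) (h2 : H2S) (h3 : H3S) (h4 : H4S) (h5 : H5S) (ha : H6A) : H6S := by
  intro α R hα hR n _ _ S D hS hD hp hm
  have hr := h6_root h3 h4 R hS hD hp hm
  have hi : ∀ᵐ a ∂volume.restrict (Ioo (0 : ℝ) R), a ∈ Ioo (0 : ℝ) R :=
    ae_restrict_mem measurableSet_Ioo
  constructor
  · refine DifferentiableOn.mul (DifferentiableOn.inv (by fun_prop) fun z hz => ?_)
      (h5 (volume.restrict (Ioo 0 R))
        (fun z a => ((a ^ (α - 1) : ℝ) : ℂ) * cs (tz S D z) (hz S z a)) (fun z _ => ?_) ?_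
        fun r hr1 => ?_)
    · intro h0
      have h6 : ‖z‖ < 1 := by simpa using hz
      have h7 : ‖z‖ ^ 2 = 1 := by rw [← norm_pow, ← sub_eq_zero.1 h0, norm_one]
      nlinarith [norm_nonneg z]
    · exact ((Complex.measurable_ofReal.comp (measurable_id.pow_const (α - 1))).mul
        ((ha n).2 S (tz S D z) z).2).aestronglyMeasurable
    · filter_upwards [hi] with a h
      exact (h6_cs h1 h2 h5 ha hr (Ioo_subset_Icc_self h)).const_mul _
    · obtain ⟨η, K, -, hK, hk⟩ := hr r hr1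
      refine ⟨fun a => a ^ (α - 1) * (Fintype.card n * K), Integrable.mul_const ?_ _, ?_⟩
      · exact (intervalIntegrable_iff_integrableOn_Ioo_of_le hR.le).1
          (intervalIntegral.intervalIntegrable_rpow' (by linarith))
      · filter_upwards [hi] with a h z hz
        obtain ⟨_, _, κ, k1, k2⟩ := hk z hz a (Ioo_subset_Icc_self h)
        have h0 : 0 ≤ a ^ (α - 1) := Real.rpow_nonneg h.1.le _
        rw [(h2 n _ _ κ k1 fun i => (k2 i).2.2.2.1).2, norm_mul, Complex.norm_real,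
          Real.norm_of_nonneg h0]
        refine mul_le_mul_of_nonneg_left ((norm_sum_le _ _).trans ?_) h0
        rw [← Finset.card_univ, ← nsmul_eq_mul]
        refine Finset.sum_le_card_nsmul _ _ _ fun i _ => ?_
        split_ifs
        · exact (k2 i).2.2.2.2.2
        · simpa using hK.le
  · intro ρ hρ ζ hζ
    have hz : ‖(ρ : ℂ) * ζ‖ ≤ ρ := by
      rw [norm_mul, hζ, mul_one, Complex.norm_real, Real.norm_of_nonneg hρ.1.le]
    obtain ⟨η, K, -, -, hk⟩ := hr ρ hρ.2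
    rw [bb, ← mul_assoc, ← integral_const_mul]
    refine h6_re _ _ ?_
    filter_upwards [hi] with a h
    obtain ⟨g, e, κ, k1, k2⟩ := hk _ hz a (Ioo_subset_Icc_self h)
    have h0 : 0 ≤ a ^ (α - 1) := Real.rpow_nonneg h.1.le _
    rw [(h2 n _ _ κ k1 fun i => (k2 i).2.2.2.1).2, mul_left_comm, Complex.re_ofReal_mul,
      Finset.mul_sum, Complex.re_sum]
    refine mul_nonneg h0 (Finset.sum_nonneg fun i _ => ?_)
    split_ifs with h6
    · obtain ⟨c1, c2, c3, -⟩ := k2 i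
      rw [c1, Complex.re_ofReal_mul] at h6
      rw [c1, mul_left_comm, Complex.re_ofReal_mul]
      exact mul_nonneg ((mul_pos_iff_of_pos_right c3).1 h6).le (h4.2 ρ hρ ζ hζ (e i) c2)
    · simp

end Pool.Agent.MP_560646_mp.One
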