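import Pool.Agent.MP_560646_mp.Hz.St

set_option autoImplicit false

namespace Pool.Agent.MP_560646_mp.One

open Matrix Real Set MeasureTheory Metric
open scoped ComplexOrder MatrixOrder

section
variable {n : Type} [Fintype n] [DecidableEq n]

theorem h6a_tr (A B : Matrix n n ℂ) :
    trace (A⁻¹ * B) = (det A)⁻¹ * ∑ i, ∑ j, det (A.updateRow j (Pi.single i 1)) * B j i := by
  rw [Matrix.inv_def, Ring.inverse_eq_inv, Matrix.smul_mul, trace_smul, smul_eq_mul]
  simp only [trace, diag, mul_apply, adjugate_apply]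

theorem h6a_ddet (M : ℂ → Matrix n n ℂ) (U : Set ℂ)
    (h : ∀ i j, DifferentiableOn ℂ (fun z => M z i j) U) :
    DifferentiableOn ℂ (fun z => det (M z)) U := by
  simp only [det_apply']
  refine DifferentiableOn.fun_sum fun σ _ => DifferentiableOn.const_mul ?_ _
  exact DifferentiableOn.fun_finsetProd fun i _ => h _ _

theorem h6a_dtr (M N : ℂ → Matrix n n ℂ) (U : Set ℂ)
    (hM : ∀ i j, DifferentiableOn ℂ (fun z => M z i j) U)
    (hN : ∀ i j, DifferentiableOn ℂ (fun z => N z i j) U) (hd : ∀ z ∈ U, det (M z) ≠ 0) :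
    DifferentiableOn ℂ (fun z => trace ((M z)⁻¹ * N z)) U := by
  simp only [h6a_tr]
  refine DifferentiableOn.fun_mul ((h6a_ddet M U hM).fun_inv hd) ?_
  refine DifferentiableOn.fun_sum fun i _ => DifferentiableOn.fun_sum fun j _ => ?_
  refine DifferentiableOn.fun_mul (h6a_ddet _ U fun k l => ?_) (hN j i)
  simp only [updateRow_apply]
  split_ifs
  · exact differentiableOn_const _
  · exact hM k l

theorem h6a_mdet {β : Type} [MeasurableSpace β] (M : β → Matrix n n ℂ)
    (h : ∀ i j, Measurable fun z => M z i j) : Measurable fun z => det (M z) := by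
  simp only [det_apply']
  refine Finset.measurable_fun_sum _ fun σ _ => Measurable.const_mul ?_ _
  exact Finset.measurable_fun_prod _ fun i _ => h _ _

theorem h6a_mtr {β : Type} [MeasurableSpace β] (M N : β → Matrix n n ℂ)
    (hM : ∀ i j, Measurable fun z => M z i j) (hN : ∀ i j, Measurable fun z => N z i j) :
    Measurable fun z => trace ((M z)⁻¹ * N z) := by
  simp only [h6a_tr]
  refine Measurable.fun_mul (h6a_mdet M hM).fun_inv ?_
  refine Finset.measurable_fun_sum _ fun i _ => Finset.measurable_fun_sum _ fun j _ => ?_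
  refine Measurable.fun_mul (h6a_mdet _ fun k l => ?_) (hN j i)
  simp only [updateRow_apply]
  split_ifs
  · exact measurable_const
  · exact hM k l

theorem h6a_hz (S : Matrix n n ℂ) (z : ℂ) (i j : n) : Measurable fun a : ℝ => hz S z a i j := by
  simp only [hz, Matrix.smul_apply, Matrix.sub_apply, smul_eq_mul, Complex.real_smul]
  fun_prop

theorem h6a_rs (S T : Matrix n n ℂ) (z : ℂ) (ξ : ℝ → ℂ) (hξ : Measurable ξ) :
    Measurable fun p : ℝ × ℝ => rs T (hz S z p.1) (ξ p.2) := by
  unfold rs
  refine h6a_mtr _ _ (fun i j => ?_) fun _ _ => measurable_const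
  simp only [Matrix.smul_apply, Matrix.sub_apply, smul_eq_mul]
  exact ((hξ.comp measurable_snd).mul_const _).sub ((h6a_hz S z i j).comp measurable_fst)

theorem h6a_ps (S T : Matrix n n ℂ) (z : ℂ) :
    Measurable fun p : ℝ × ℝ => ps T (hz S z p.1) p.2 := by
  unfold ps
  have h1 := h6a_rs S T z (fun x => Complex.I * x) (by fun_prop)
  have h2 := h6a_rs S T z (fun x => -(Complex.I * x)) (by fun_prop)
  exact measurable_const.sub (Measurable.mul (by fun_prop) (h1.sub h2))

theorem h6a_cs (S T : Matrix n n ℂ) (z : ℂ) : Measurable fun a : ℝ => cs T (hz S z a) := by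
  unfold cs
  have h1 := h6a_mtr (fun _ : ℝ => T) (fun a => hz S z a) (fun _ _ => measurable_const)
    (h6a_hz S z)
  have h2 : Measurable fun a : ℝ => ∫ x in Ioi (0 : ℝ), ps T (hz S z a) x :=
    (StronglyMeasurable.integral_prod_right (ν := volume.restrict (Ioi (0 : ℝ)))
      (f := fun a x => ps T (hz S z a) x) (h6a_ps S T z).stronglyMeasurable).measurable
  exact (h1.div_const _).add (h2.const_mul _)

end

theorem h6A : H6A := fun _ _ _ =>
  ⟨fun M N U hM hN hd => h6a_dtr M N U hM hN hd, fun S T z => ⟨h6a_ps S T z, h6a_cs S T z⟩⟩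

end Pool.Agent.MP_560646_mp.One
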