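import Pool.Agent.MP_560646_mp.Hz.St

/-! The representing measure of a function with a positive boundary real part. -/

set_option autoImplicit false

namespace Pool.Agent.MP_560646_mp.One

open Real Set MeasureTheory Metric Filter Topology

theorem h7_pos {t : ℝ} (ht : t ∈ Ioo (-1 : ℝ) 1) (θ : ℝ) :
    0 < (1 - |t|) ^ 2 ∧ (1 - |t|) ^ 2 ≤ 1 + t ^ 2 - 2 * t * cos θ := by
  have h1 : |t| < 1 := abs_lt.2 ht
  have h2 : t * cos θ ≤ |t| := (le_abs_self _).trans (by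
    rw [abs_mul]; exact mul_le_of_le_one_right (abs_nonneg _) (abs_cos_le_one θ))
  exact ⟨by positivity, by nlinarith [sq_abs t]⟩

theorem h7_cont {t : ℝ} (ht : t ∈ Ioo (-1 : ℝ) 1) :
    Continuous fun θ => (1 + t ^ 2 - 2 * t * cos θ)⁻¹ :=
  Continuous.inv₀ (by fun_prop) fun θ => ((h7_pos ht θ).1.trans_le (h7_pos ht θ).2).ne'

theorem h7_int {t : ℝ} (ht : t ∈ Ioo (-1 : ℝ) 1) :
    Continuous fun μ : FiniteMeasure ℝ => ∫ θ, (1 + t ^ 2 - 2 * t * cos θ)⁻¹ ∂(μ : Measure ℝ) :=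
  FiniteMeasure.continuous_integral_boundedContinuousFunction
    (BoundedContinuousFunction.ofNormedAddCommGroup _ (h7_cont ht) ((1 - |t|) ^ 2)⁻¹ fun θ => by
      rw [Real.norm_of_nonneg (inv_nonneg.2 ((h7_pos ht θ).1.le.trans (h7_pos ht θ).2))]
      exact inv_anti₀ (h7_pos ht θ).1 (h7_pos ht θ).2)

theorem h7_norm (t θ : ℝ) : ‖circleMap 0 1 θ - (t : ℂ)‖ ^ 2 = 1 + t ^ 2 - 2 * t * cos θ := by
  rw [Complex.sq_norm, Complex.normSq_apply]
  simp only [circleMap, zero_add, Complex.ofReal_one, one_mul, Complex.sub_re, Complex.sub_im,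
    Complex.exp_ofReal_mul_I_re, Complex.exp_ofReal_mul_I_im, Complex.ofReal_re, Complex.ofReal_im]
  nlinarith [sin_sq_add_cos_sq θ]

theorem h7_rho {F : ℂ → ℂ} (hF : DiffContOnCl ℂ F (ball 0 1))
    (h0 : ∀ ζ : ℂ, ‖ζ‖ = 1 → 0 ≤ (F ζ).re) :
    ∃ μ : FiniteMeasure ℝ, (μ : Measure ℝ) (Icc 0 (2 * π))ᶜ = 0 ∧ ∀ t ∈ Ioo (-1 : ℝ) 1,
      (F t).re = (1 - t ^ 2) * ∫ θ, (1 + t ^ 2 - 2 * t * cos θ)⁻¹ ∂(μ : Measure ℝ) := by
  have hn : ∀ θ, ‖circleMap 0 1 θ‖ = 1 := fun θ => by simp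
  have hc : Continuous fun θ => F (circleMap 0 1 θ) :=
    hF.continuousOn.comp_continuous (continuous_circleMap 0 1) fun θ => by
      rw [closure_ball _ one_ne_zero]
      exact mem_closedBall_zero_iff.2 (hn θ).le
  have hg : Continuous fun θ => (2 * π)⁻¹ * (F (circleMap 0 1 θ)).re :=
    (Complex.continuous_re.comp hc).const_mul _
  have g0 : ∀ θ, 0 ≤ (2 * π)⁻¹ * (F (circleMap 0 1 θ)).re := fun θ =>
    mul_nonneg (by positivity) (h0 _ (hn θ))
  refine ⟨⟨(volume.restrict (Ioc 0 (2 * π))).withDensity fun θ =>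
    ENNReal.ofReal ((2 * π)⁻¹ * (F (circleMap 0 1 θ)).re),
    isFiniteMeasure_withDensity_ofReal hg.integrableOn_Ioc.2⟩, ?_, fun t ht => ?_⟩
  · refine withDensity_absolutelyContinuous _ _ ?_
    rw [Measure.restrict_apply measurableSet_Icc.compl]
    exact measure_mono_null (fun x hx => hx.1 (Ioc_subset_Icc_self hx.2)) measure_empty
  · have ht' : (t : ℂ) ∈ ball (0 : ℂ) 1 := by simpa using abs_lt.2 ht
    have hp := hF.circleAverage_poissonKernel_smul' ht'
    have hi : IntervalIntegrable (fun θ => ((1 - t ^ 2) * (1 + t ^ 2 - 2 * t * cos θ)⁻¹) •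
        F (circleMap 0 1 θ)) volume 0 (2 * π) :=
      (((h7_cont ht).const_mul _).smul hc).intervalIntegrable _ _
    have hr := Complex.reCLM.intervalIntegral_comp_comm hi
    simp only [circleAverage, sub_zero, hn, h7_norm, Complex.norm_real, Real.norm_eq_abs, sq_abs,
      one_pow, div_eq_mul_inv] at hp
    rw [FiniteMeasure.toMeasure_mk, integral_withDensity_eq_integral_toReal_smul
      hg.measurable.ennreal_ofReal (Eventually.of_forall fun _ => ENNReal.ofReal_lt_top), ← hp,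
      Complex.smul_re, ← Complex.reCLM_apply, ← hr, ← integral_const_mul,
      intervalIntegral.integral_of_le (by positivity), smul_eq_mul, ← integral_const_mul]
    congr 1
    ext θ
    rw [ENNReal.toReal_ofReal (g0 θ), Complex.reCLM_apply, Complex.smul_re]
    simp only [smul_eq_mul]
    ring

theorem h7S : H7S := by
  intro b hb h0
  have h1 : ∀ ρ : ℝ, ∃ μ : FiniteMeasure ℝ, ρ ∈ Ioo (0 : ℝ) 1 →
      (μ : Measure ℝ) (Icc 0 (2 * π))ᶜ = 0 ∧ ∀ t ∈ Ioo (-1 : ℝ) 1,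
        (b (ρ * t)).re = ∫ θ, (1 + t ^ 2 - 2 * t * cos θ)⁻¹ ∂(μ : Measure ℝ) := fun ρ => by
    by_cases hρ : ρ ∈ Ioo (0 : ℝ) 1
    swap
    · exact ⟨0, fun h => absurd h hρ⟩
    have hd : DifferentiableOn ℂ (fun z : ℂ => (1 - z ^ 2) * b (ρ * z)) (closure (ball 0 1)) := by
      refine DifferentiableOn.mul (by fun_prop) (hb.comp (by fun_prop) fun z hz => ?_)
      rw [closure_ball _ one_ne_zero, mem_closedBall_zero_iff] at hz
      rw [mem_ball_zero_iff, norm_mul, Complex.norm_real, Real.norm_of_nonneg hρ.1.le]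
      exact (mul_le_of_le_one_right hρ.1.le hz).trans_lt hρ.2
    obtain ⟨μ, k1, k2⟩ := h7_rho hd.diffContOnCl (h0 ρ hρ)
    refine ⟨μ, fun _ => ⟨k1, fun t ht => ?_⟩⟩
    have k3 : (1 : ℝ) - t ^ 2 ≠ 0 := by nlinarith [ht.1, ht.2]
    refine mul_left_cancel₀ k3 ((k2 t ht).symm ▸ ?_)
    rw [← Complex.re_ofReal_mul]
    push_cast
    rfl
  choose m hm using h1
  have he : ∀ᶠ ρ in 𝓝[<] (1 : ℝ), ρ ∈ Ioo (0 : ℝ) 1 := Ioo_mem_nhdsLT one_pos
  obtain ⟨μ, hμ, hcl⟩ := (isCompact_setOfPred_finiteMeasure_le_of_isCompact ‖b 0‖₊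
    (isCompact_Icc (a := (0 : ℝ)) (b := 2 * π))).exists_mapClusterPt (f := 𝓝[<] (1 : ℝ)) (u := m)
    (le_principal_iff.2 (he.mono fun ρ hρ => by
      refine ⟨?_, (FiniteMeasure.null_iff_toMeasure_null _ _).2 (hm ρ hρ).1⟩
      have k := (hm ρ hρ).2 0 ⟨by norm_num, one_pos⟩
      simp only [Complex.ofReal_zero, mul_zero, ne_eq, OfNat.ofNat_ne_zero, not_false_eq_true,
        zero_pow, add_zero, zero_mul, sub_zero, inv_one, integral_const, smul_eq_mul, mul_one] at k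
      exact NNReal.coe_le_coe.1 (k.symm.trans_le (Complex.re_le_norm _))))
  refine ⟨(μ : Measure ℝ).map cos, inferInstance, ?_, fun t ht => ?_⟩
  · exact (ae_map_iff measurable_cos.aemeasurable measurableSet_Icc).2
      (Eventually.of_forall fun θ => cos_mem_Icc θ)
  · rw [integral_map measurable_cos.aemeasurable (Measurable.aestronglyMeasurable (by fun_prop))]
    have ht' : (t : ℂ) ∈ ball (0 : ℂ) 1 := by simpa using abs_lt.2 ht
    have k1 : Tendsto (fun ρ : ℝ => (b (ρ * t)).re) (𝓝[<] 1) (𝓝 (b t).re) := by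
      have k2 : Tendsto (fun ρ : ℝ => (ρ : ℂ) * t) (𝓝[<] 1) (𝓝 (t : ℂ)) :=
        (Continuous.tendsto' (by fun_prop) 1 _ (by simp)).mono_left nhdsWithin_le_nhds
      exact (Complex.continuous_re.tendsto _).comp
        ((hb.continuousOn.continuousAt (isOpen_ball.mem_nhds ht')).tendsto.comp k2)
    have k3 := k1.congr' (he.mono fun ρ hρ => (hm ρ hρ).2 t ht)
    exact (eq_of_nhds_neBot ((hcl.continuousAt_comp (h7_int ht).continuousAt).clusterPt.mono
      k3)).symm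

end Pool.Agent.MP_560646_mp.One
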