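import Pool.Agent.MP_560646_mp.Hz.St

/-! The sum of the positive roots of a Hermitian pencil. -/

set_option autoImplicit false

namespace Pool.Agent.MP_560646_mp.One

open Matrix Real Set MeasureTheory Metric
open scoped ComplexOrder MatrixOrder

theorem h8a_det {n : Type} [Fintype n] [DecidableEq n] (U : unitary (Matrix n n ℂ)) (d : n → ℝ)
    (ξ : ℂ) : det (ξ • (1 : Matrix n n ℂ) - ud U d) = ∏ i, (ξ - (d i : ℂ)) := by
  have e0 : (diagonal (fun i => ξ - (d i : ℂ)) : Matrix n n ℂ) =
      ξ • (1 : Matrix n n ℂ) - diagonal fun i => (d i : ℂ) := by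
    ext i j
    by_cases h : i = j
    · subst h
      simp
    · simp [h]
  have e : ξ • (1 : Matrix n n ℂ) - ud U d =
      (U : Matrix n n ℂ) * diagonal (fun i => ξ - (d i : ℂ)) * star (U : Matrix n n ℂ) := by
    rw [e0, mul_sub, sub_mul, mul_smul_comm, mul_one, smul_mul_assoc,
      Unitary.mul_star_self_of_mem U.2, ud]
  rw [e, det_mul_comm, ← mul_assoc, Unitary.star_mul_self_of_mem U.2, one_mul, det_diagonal]

theorem h8A (h2 : H2S) : H8A := by
  intro n _ _ T hT
  obtain ⟨V, t, ht, rfl⟩ := exists_ud_pos hT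
  have hY : ud V (fun i => (√(t i))⁻¹) * ud V t * ud V (fun i => (√(t i))⁻¹) = 1 := by
    rw [ud_mul, ud_mul, ← ud_one V]
    congr 1
    funext i
    have h1 := Real.sqrt_pos.2 (ht i)
    have h3 := Real.mul_self_sqrt (ht i).le
    field_simp
    nlinarith
  refine ⟨ud V fun i => (√(t i))⁻¹, ud_herm _ _, hY, fun H hH s hs => ?_⟩
  have hYh := ud_herm V fun i => (√(t i))⁻¹
  generalize ud V (fun i => (√(t i))⁻¹) = Y at hY hYh ⊢
  generalize ud V t = T at hY ⊢
  have hM : (Y * H * Y).IsHermitian := by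
    have := isHermitian_mul_mul_conjTranspose Y hH
    rwa [hYh.eq] at this
  obtain ⟨U, d, hd⟩ := herm_ud hM
  have hdet : det Y * det T * det Y = 1 := by rw [← det_mul, ← det_mul, hY, det_one]
  have hR : Rt T (s • H) fun i => ((s * d i : ℝ) : ℂ) := by
    refine ⟨fun e => ?_, fun ξ => ?_⟩
    · rw [e, mul_zero, zero_mul] at hdet
      exact zero_ne_one hdet
    · have e1 : Y * (ξ • T - s • H) * Y = ξ • (1 : Matrix n n ℂ) - ud U fun i => s * d i := by
        rw [mul_sub, sub_mul, mul_smul_comm, smul_mul_assoc, hY, mul_smul_comm, smul_mul_assoc,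
          hd, ud_smul]
      have e2 := congrArg det e1
      rw [det_mul, det_mul, h8a_det] at e2
      rw [← e2]
      linear_combination (-det (ξ • T - s • H)) * hdet
  have h3 := (h2 n T (s • H) _ hR fun i => by
    by_cases e : s * d i = 0
    · right
      rw [e, Complex.ofReal_zero]
    · left
      rwa [Complex.ofReal_re]).2
  rw [h3, hd, pp_ud, Finset.mul_sum, Complex.ofReal_sum]
  refine Finset.sum_congr rfl fun i _ => ?_
  rw [Complex.ofReal_re]
  split_ifs with a
  · rw [max_eq_left ((mul_pos_iff_of_pos_left hs).1 a).le]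
  · have : d i ≤ 0 := by
      by_contra b
      exact a (mul_pos hs (not_le.1 b))
    rw [max_eq_right this, mul_zero, Complex.ofReal_zero]

end Pool.Agent.MP_560646_mp.One
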