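import Pool.Agent.MP_560646_mp.Hz.St

/-! The layer formula for the trace of a power of the positive part along a pencil. -/

set_option autoImplicit false

namespace Pool.Agent.MP_560646_mp.One

open Matrix Real Set MeasureTheory Filter Topology
open scoped ComplexOrder MatrixOrder

variable {n : Type} [Fintype n] [DecidableEq n]

/-- The number of positive eigenvalues. -/
noncomputable def h8b_N (X : Matrix n n ℂ) : ℝ :=
  rt (cfc (fun x : ℝ => if 0 < x then (1 : ℝ) else 0) X)

theorem h8b_ud (U : unitary (Matrix n n ℂ)) (d : n → ℝ) :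
    h8b_N (ud U d) = ∑ i, if 0 < d i then (1 : ℝ) else 0 := by
  rw [← rt_ud U]
  unfold h8b_N ud
  rw [cfc_unitary_diag]

theorem h8b_sh (U : unitary (Matrix n n ℂ)) (d : n → ℝ) (a : ℝ) :
    ud U d - a • (1 : Matrix n n ℂ) = ud U fun i => d i - a := by
  rw [sub_eq_add_neg, ← neg_smul, ud_shift]
  simp only [sub_eq_add_neg]

omit [DecidableEq n] in
theorem h8b_herm {X Y : Matrix n n ℂ} (hX : X.IsHermitian) (hY : Y.IsHermitian) :
    (Y * X * Y).IsHermitian := by
  have := isHermitian_conjTranspose_mul_mul Y hX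
  rwa [hY.eq] at this

theorem h8b_cong {X Y Z : Matrix n n ℂ} (hX : X.IsHermitian) (hY : Y.IsHermitian)
    (hYZ : Y * Z = 1) : h8b_N (Y * X * Y) = h8b_N X := by
  obtain ⟨U, d, h⟩ := herm_ud (h8b_herm hX hY)
  obtain ⟨V, e, rfl⟩ := herm_ud hX
  have c₁ := count_le U V (Y := Y) (d := d) (e := e) (by rw [hY.eq]; exact h.symm)
  have hz : Zᴴ * Y = 1 := by
    have := congrArg conjTranspose hYZ
    rwa [conjTranspose_mul, hY.eq, conjTranspose_one] at this
  have c₂ := count_le V U (Y := Z) (d := e) (e := d) (by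
    rw [← h, ← mul_assoc, ← mul_assoc, hz, one_mul, mul_assoc, hYZ, mul_one])
  rw [h, h8b_ud, h8b_ud]
  simp only [Finset.sum_boole, ← Fintype.card_subtype, le_antisymm c₁ c₂]

theorem h8b_rpow {α R : ℝ} (hα : 0 < α) (hR : 0 < R) :
    IntegrableOn (fun a : ℝ => a ^ (α - 1)) (Ioo 0 R) :=
  (intervalIntegral.integrableOn_Ioo_rpow_iff hR).2 (by linarith)

theorem h8b_s1 {α R d : ℝ} (hα : 0 < α) (hR : 0 < R) (hd : d ≤ R) :
    IntegrableOn (fun a : ℝ => a ^ (α - 1) * if 0 < d - a then (1 : ℝ) else 0) (Ioo 0 R) ∧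
      α * ∫ a in Ioo (0 : ℝ) R, a ^ (α - 1) * (if 0 < d - a then (1 : ℝ) else 0) =
        max d 0 ^ α := by
  have e : (fun a : ℝ => a ^ (α - 1) * if 0 < d - a then (1 : ℝ) else 0) =
      (Iio d).indicator fun a : ℝ => a ^ (α - 1) := by
    funext a
    simp only [indicator, mem_Iio, sub_pos, mul_ite, mul_one, mul_zero]
  rw [e]
  refine ⟨(h8b_rpow hα hR).indicator measurableSet_Iio, ?_⟩
  rw [setIntegral_indicator measurableSet_Iio, Ioo_inter_Iio, min_eq_right hd]
  rcases le_total d 0 with h | h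
  · rw [Ioo_eq_empty (not_lt.2 h), max_eq_right h, zero_rpow hα.ne']
    simp
  · rw [← integral_Ioc_eq_integral_Ioo, ← intervalIntegral.integral_of_le h,
      integral_rpow (Or.inl (by linarith)), sub_add_cancel, zero_rpow hα.ne', max_eq_left h]
    field_simp
    ring

theorem h8b_s2 (d : ℝ) :
    IntegrableOn (fun l : ℝ => if 0 < d - l then (1 : ℝ) else 0) (Ioi 0) ∧
      ∫ l in Ioi (0 : ℝ), (if 0 < d - l then (1 : ℝ) else 0) = max d 0 := by
  have e : (fun l : ℝ => if 0 < d - l then (1 : ℝ) else 0) =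
      (Iio d).indicator fun _ : ℝ => (1 : ℝ) := by
    funext a
    simp only [indicator, mem_Iio, sub_pos]
  rw [e]
  constructor
  · rw [IntegrableOn, integrable_indicator_iff measurableSet_Iio, IntegrableOn,
      Measure.restrict_restrict measurableSet_Iio, Iio_inter_Ioi]
    exact integrableOn_const (by simp)
  · rw [setIntegral_indicator measurableSet_Iio, Ioi_inter_Iio]
    simp

theorem h8b_lim (x : ℝ) : Tendsto (fun k : ℕ => ((k : ℝ) + 1) *
    (max x 0 - max (x - 1 / ((k : ℝ) + 1)) 0)) atTop (𝓝 (if 0 < x then (1 : ℝ) else 0)) := by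
  split_ifs with h
  · refine tendsto_const_nhds.congr' ?_
    filter_upwards [tendsto_one_div_add_atTop_nhds_zero_nat.eventually (gt_mem_nhds h)] with k hk
    rw [max_eq_left h.le, max_eq_left (sub_nonneg.2 hk.le)]
    field_simp
    ring
  · refine tendsto_const_nhds.congr fun k => ?_
    have : (0 : ℝ) < 1 / ((k : ℝ) + 1) := by positivity
    rw [max_eq_right (not_lt.1 h), max_eq_right (by linarith [not_lt.1 h]), sub_self, mul_zero]

theorem h8b_meas {S T : Matrix n n ℂ} (hS : S.IsHermitian) (hT : T.PosSemidef) :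
    Measurable (Function.uncurry fun a l : ℝ => h8b_N (S - l • T - a • (1 : Matrix n n ℂ))) := by
  have hH : ∀ l : ℝ, (S - l • T).IsHermitian := fun l => hS.sub (herm_smul hT.1 l)
  have mG : Measurable (Function.uncurry fun a l : ℝ =>
      pp (S - l • T - a • (1 : Matrix n n ℂ))) := by
    refine measurable_uncurry_of_continuous_of_measurable (fun l => ?_) fun a => ?_
    · obtain ⟨U, d, h⟩ := herm_ud (hH l)
      simp only [h, h8b_sh, pp_ud]
      fun_prop
    · refine Antitone.measurable fun l l' hl => ?_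
      refine pp_mono ((hH l').sub (herm_smul isHermitian_one a))
        ((hH l).sub (herm_smul isHermitian_one a)) ?_
      rw [sub_sub_sub_cancel_right, sub_sub_sub_cancel_left, ← sub_smul]
      exact hT.smul (sub_nonneg.2 hl)
  refine measurable_of_tendsto_metrizable (f := fun (k : ℕ) (q : ℝ × ℝ) => ((k : ℝ) + 1) *
    (pp (S - q.2 • T - q.1 • (1 : Matrix n n ℂ)) -
      pp (S - q.2 • T - (q.1 + 1 / ((k : ℝ) + 1)) • (1 : Matrix n n ℂ)))) (fun k => ?_) ?_
  · exact (mG.sub (mG.comp ((measurable_fst.add_const _).prodMk measurable_snd))).const_mul _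
  · refine tendsto_pi_nhds.2 fun q => ?_
    obtain ⟨U, d, h⟩ := herm_ud (hH q.2)
    simp only [Function.uncurry, h, h8b_sh, pp_ud, h8b_ud, ← Finset.sum_sub_distrib,
      Finset.mul_sum, ← sub_sub]
    exact tendsto_finsetSum _ fun i _ => h8b_lim _

theorem h8B : H8B := by
  intro α R hα hR n _ _ S T Y hS hRS hT hY hYT
  have hH : ∀ l : ℝ, (S - l • T).IsHermitian := fun l => hS.sub (herm_smul hT.1 l)
  have hA : ∀ a : ℝ, (Y * (S - a • (1 : Matrix n n ℂ)) * Y).IsHermitian := fun a =>
    h8b_herm (hS.sub (herm_smul isHermitian_one a)) hY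
  obtain ⟨F, hF⟩ : ∃ F : ℝ → ℝ → ℝ,
      F = fun a l : ℝ => h8b_N (S - l • T - a • (1 : Matrix n n ℂ)) := ⟨_, rfl⟩
  have mF : Measurable (Function.uncurry F) := hF ▸ h8b_meas hS hT.posSemidef
  have inner : ∀ a : ℝ, (∀ l, 0 ≤ F a l) ∧ IntegrableOn (F a) (Ioi 0) ∧
      ∫ l in Ioi (0 : ℝ), F a l = pp (Y * (S - a • (1 : Matrix n n ℂ)) * Y) := by
    intro a
    obtain ⟨V, e, h⟩ := herm_ud (hA a)
    have e1 : F a = fun l => ∑ i, if 0 < e i - l then (1 : ℝ) else 0 := by
      funext l
      rw [hF, ← h8b_ud V, ← h8b_sh, ← h]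
      refine (h8b_cong (Z := T * Y) ((hH l).sub (herm_smul isHermitian_one a)) hY
        (by rw [← mul_assoc, hYT])).symm.trans ?_
      rw [sub_right_comm, mul_sub Y (S - _), sub_mul, mul_smul_comm, smul_mul_assoc, hYT]
    rw [e1, h, pp_ud]
    refine ⟨fun l => by positivity, integrable_finsetSum _ fun i _ => (h8b_s2 (e i)).1, ?_⟩
    rw [integral_finsetSum _ fun i _ => (h8b_s2 (e i)).1]
    exact Finset.sum_congr rfl fun i _ => (h8b_s2 (e i)).2
  have outer : ∀ l ∈ Ioi (0 : ℝ), pa α (S - l • T) =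
      α * ∫ a in Ioo (0 : ℝ) R, a ^ (α - 1) * F a l := by
    intro l hl
    obtain ⟨U, d, h⟩ := herm_ud (hH l)
    have hd : ∀ i, d i ≤ R := fun i => by
      have := dg_mono U (X := S - l • T) (Y := R • (1 : Matrix n n ℂ)) (by
        rw [← sub_add]
        exact hRS.add (hT.posSemidef.smul (mem_Ioi.1 hl).le)) i
      rwa [h, ← ud_one U, ud_smul, dg_self, dg_self, mul_one] at this
    simp only [hF, h, h8b_sh, h8b_ud, pa_ud, Finset.mul_sum]
    rw [integral_finsetSum _ fun i _ => (h8b_s1 hα hR (hd i)).1, Finset.mul_sum]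
    exact Finset.sum_congr rfl fun i _ => (h8b_s1 hα hR (hd i)).2.symm
  have anti : Antitone fun a : ℝ => pp (Y * (S - a • (1 : Matrix n n ℂ)) * Y) := by
    intro a b hab
    refine pp_mono (hA b) (hA a) ?_
    rw [← sub_mul, ← mul_sub, sub_sub_sub_cancel_left, ← sub_smul]
    have := (PosSemidef.one.smul (sub_nonneg.2 hab)).conjTranspose_mul_mul_same Y
    rwa [hY.eq] at this
  have iL : IntegrableOn (fun a : ℝ => a ^ (α - 1) * pp (Y * (S - a • (1 : Matrix n n ℂ)) * Y))
      (Ioo 0 R) := by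
    refine (h8b_rpow hα hR).mul_bdd (c := pp (Y * (S - (0 : ℝ) • (1 : Matrix n n ℂ)) * Y))
      anti.measurable.aestronglyMeasurable ?_
    filter_upwards [ae_restrict_mem measurableSet_Ioo] with a ha
    rw [Real.norm_of_nonneg (pp_nonneg (hA a))]
    exact anti ha.1.le
  have iF : Integrable (Function.uncurry fun a l : ℝ => a ^ (α - 1) * F a l)
      ((volume.restrict (Ioo (0 : ℝ) R)).prod (volume.restrict (Ioi (0 : ℝ)))) := by
    have mH : Measurable (Function.uncurry fun a l : ℝ => a ^ (α - 1) * F a l) :=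
      (measurable_fst.pow_const _).mul mF
    rw [integrable_prod_iff mH.aestronglyMeasurable]
    refine ⟨Eventually.of_forall fun a => (inner a).2.1.const_mul (a ^ (α - 1)),
      iL.congr_fun (fun a ha => ?_) measurableSet_Ioo⟩
    simp only [Function.uncurry_apply_pair]
    rw [← (inner a).2.2, ← integral_const_mul]
    exact integral_congr_ae (Eventually.of_forall fun l =>
      (Real.norm_of_nonneg (mul_nonneg (rpow_nonneg ha.1.le _) ((inner a).1 l))).symm)
  rw [setIntegral_congr_fun measurableSet_Ioi outer, integral_const_mul,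
    ← integral_integral_swap iF]
  simp only [integral_const_mul, fun a => (inner a).2.2]

end Pool.Agent.MP_560646_mp.One
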