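import Pool.Agent.MP_560646_mp.Hz.St

/-! A change of variables in the integral of the trace of a power along a pencil. -/

set_option autoImplicit false

namespace Pool.Agent.MP_560646_mp.One

open Matrix Real Set MeasureTheory Metric
open scoped ComplexOrder MatrixOrder

section
variable {n : Type} [Fintype n] [DecidableEq n]

theorem h9_smul (α : ℝ) {X : Matrix n n ℂ} (hX : X.IsHermitian) {k : ℝ} (hk : 0 ≤ k) :
    pa α (k • X) = k ^ α * pa α X := by
  obtain ⟨U, d, rfl⟩ := herm_ud hX
  rw [ud_smul, pa_ud, pa_ud, Finset.mul_sum]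
  refine Finset.sum_congr rfl fun i _ => ?_
  rw [← Real.mul_rpow hk (le_max_right _ _), mul_max_of_nonneg _ _ hk, mul_zero]

theorem h9_zero {α : ℝ} (hα : 0 < α) {X : Matrix n n ℂ} (hX : (-X).PosSemidef) : pa α X = 0 := by
  obtain ⟨U, d, hd, e⟩ := exists_ud hX
  have e' : X = (-1 : ℝ) • ud U d := by rw [← e]; simp
  rw [e', ud_smul, pa_ud]
  refine Finset.sum_eq_zero fun i _ => ?_
  rw [max_eq_right (by linarith [hd i]), Real.zero_rpow hα.ne']

end

theorem h9S (h : H9A) : H9S := by
  intro α hα n _ _ S D hS hD hSD t ht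
  obtain ⟨t0, t1⟩ := ht
  have hw : 2 * t * ((1 + t ^ 2) / (2 * t) - 2 + 2) = 1 + t ^ 2 := by field_simp; ring
  have hc : -1 < (1 + t ^ 2) / (2 * t) - 2 := by
    have : 1 < (1 + t ^ 2) / (2 * t) := by
      rw [one_lt_div (by positivity)]
      nlinarith
    linarith
  generalize (1 + t ^ 2) / (2 * t) - 2 = c at hw hc ⊢
  have hE : (D - (c + 2) • S).IsHermitian := hD.sub (herm_smul hS.1 _)
  have hg := h α hα n S _ hS.1 hE
  set g : ℝ → ℝ := fun u => pa α (S + u • (D - (c + 2) • S)) with hg'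
  have e1 : ∀ l : ℝ, pa α (S - l • ((1 + t ^ 2) • S - (2 * t) • D)) = g (2 * t * l) := fun l => by
    rw [← hw, hg']
    congr 1
    module
  simp only [e1]
  rw [integral_comp_mul_left_Ioi g 0 (by positivity), smul_eq_mul, ← mul_assoc,
    mul_inv_cancel₀ (by positivity), one_mul, mul_zero]
  have c1 : 0 < 1 + c := by linarith
  have e2 : ∫ x in Ioi (0 : ℝ), g x = ∫ x in (0 : ℝ)..1 / (1 + c), g x := by
    rw [intervalIntegral.integral_of_le (by positivity)]
    refine setIntegral_eq_of_subset_of_forall_sdiff_eq_zero measurableSet_Ioi Ioc_subset_Ioi_self ?_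
    rintro l ⟨l0, l1⟩
    have l2 : 1 / (1 + c) < l := by
      by_contra k
      exact l1 ⟨l0, not_lt.1 k⟩
    rw [div_lt_iff₀ c1] at l2
    refine h9_zero hα ?_
    convert (hS.smul (show 0 ≤ l * (1 + c) - 1 by linarith)).add (hSD.smul (mem_Ioi.1 l0).le)
      using 1
    module
  have p : ∀ u ∈ uIcc (0 : ℝ) 1, 0 < 1 + c * u := fun u hu => by
    rw [uIcc_of_le zero_le_one] at hu
    rcases eq_or_lt_of_le hu.1 with k | k
    · rw [← k]; simp
    · nlinarith [hu.2, mul_pos c1 k]
  have e3 := intervalIntegral.integral_comp_mul_deriv (a := 0) (b := 1)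
    (f := fun u => u / (1 + c * u)) (f' := fun u => ((1 + c * u) ^ 2)⁻¹) (g := g)
    (fun u hu => by
      have k := (hasDerivAt_id u).div (((hasDerivAt_id u).const_mul c).const_add 1) (p u hu).ne'
      refine HasDerivAt.congr_deriv k ?_
      have := (p u hu).ne'
      simp only [id]
      field_simp
      ring)
    (ContinuousOn.inv₀ (by fun_prop) fun u hu => pow_ne_zero 2 (p u hu).ne') hg
  simp only [zero_div, mul_one] at e3
  rw [e2, ← e3]
  refine intervalIntegral.integral_congr fun u hu => ?_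
  have pu := p u hu
  have e4 : S + (u / (1 + c * u)) • (D - (c + 2) • S) =
      (1 + c * u)⁻¹ • (S + u • (D - (2 : ℝ) • S)) := by
    have k : (1 + c * u)⁻¹ * (1 + c * u) = 1 := inv_mul_cancel₀ pu.ne'
    rw [div_eq_inv_mul]
    linear_combination (norm := module) (-k) • S
  simp only [Function.comp, hg']
  rw [e4, h9_smul α (hS.1.add (herm_smul (hD.sub (herm_smul hS.1 _)) _)) (inv_pos.2 pu).le,
    Real.rpow_sub pu, Real.rpow_neg pu.le, Real.inv_rpow pu.le, Real.rpow_two]
  ring

end Pool.Agent.MP_560646_mp.One
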