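import Pool.Agent.MP_560646_mp.Hz.St

set_option autoImplicit false

namespace Pool.Agent.MP_560646_mp.One

open Matrix Real Set MeasureTheory Metric
open scoped ComplexOrder MatrixOrder

open scoped Matrix.Norms.L2Operator in
theorem h9a_cfc {n : Type} [Fintype n] [DecidableEq n] {f : ℝ → ℝ} (hf : Continuous f)
    {a : ℝ → Matrix n n ℂ} (ha : Continuous a) (hs : ∀ u, IsSelfAdjoint (a u)) :
    Continuous fun u => cfc f (a u) :=
  Continuous.cfc_of_mem_nhdsSet (s := univ) f Filter.univ_mem ha hs hf.continuousOn

theorem h9A : H9A := by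
  intro α hα n _ _ S E hS hE
  have hf : Continuous fun x : ℝ => max x 0 ^ α :=
    (continuous_id.max continuous_const).rpow_const fun _ => Or.inr hα.le
  have h := h9a_cfc hf (a := fun u : ℝ => S + u • E) (by fun_prop)
    fun u => (hS.add (herm_smul hE u)).isSelfAdjoint
  exact Complex.continuous_re.comp h.matrix_trace

end Pool.Agent.MP_560646_mp.One
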