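import Pool.Agent.MP_560646_mp.Hz.St

/-! Linear inequalities pass from numbers to matrices. -/

set_option autoImplicit false

namespace Pool.Agent.MP_560646_mp.One

open Matrix Real Set MeasureTheory Filter Topology
open scoped ComplexOrder MatrixOrder

theorem ln_cont {α : ℝ} (hα : 0 < α) (y : ℝ) : Continuous fun e => kk α (y * e) :=
  ((Real.continuous_rpow_const hα.le).comp (by fun_prop)).add
    ((Real.continuous_rpow_const hα.le).comp (by fun_prop))

theorem ln_int {ν : Measure ℝ} [IsFiniteMeasure ν] (h : ∀ᵐ e ∂ν, e ∈ Icc (-1 : ℝ) 1)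
    {f : ℝ → ℝ} (hf : Continuous f) : Integrable f ν := by
  have := hf.continuousOn.integrableOn_compact (μ := ν) (isCompact_Icc (a := (-1 : ℝ)) (b := 1))
  rwa [IntegrableOn, Measure.restrict_eq_self_of_ae_mem h] at this

theorem ln_abs (α e y : ℝ) : kk α (y * e) = kk α (|e| * y) := by
  rcases abs_cases e with h | h <;> rw [h.1, kk, kk]
  · rw [mul_comm]
  · rw [add_comm, neg_mul, sub_neg_eq_add, ← sub_eq_add_neg, mul_comm]

theorem ln_lim {n : Type} [Fintype n] [DecidableEq n] {α : ℝ} (hα : 0 < α) (X : Matrix n n ℂ)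
    (hX : X.PosSemidef) :
    Tendsto (fun ε : ℝ => tp α (X + ε • (1 : Matrix n n ℂ))) (𝓝[>] 0) (𝓝 (tp α X)) := by
  obtain ⟨U, d, -, rfl⟩ := exists_ud hX
  simp only [ud_shift, tp_ud]
  have : Continuous fun ε : ℝ => ∑ i, (d i + ε) ^ α := continuous_finsetSum _ fun i _ =>
    (Real.continuous_rpow_const hα.le).comp (by fun_prop)
  simpa using (this.tendsto 0).mono_left nhdsWithin_le_nhds

theorem lin (r : REP) : LIN := by
  intro α hα n _ _ S D hS hD h1 h2 y hy A B C h
  have key : ∀ S : Matrix n n ℂ, S.PosDef → (S + D).PosSemidef → (S - D).PosSemidef →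
      A * (tp α (S + y • D) + tp α (S - y • D)) ≤
        B * (tp α (S + D) + tp α (S - D)) + C * tp α S := by
    intro S hS h1 h2
    obtain ⟨ν, _, hν, k⟩ := r α hα n S D hS hD h1 h2
    have k1 := k 1 ⟨zero_le_one, le_rfl⟩
    have k0 := k 0 ⟨le_rfl, zero_le_one⟩
    rw [one_smul] at k1
    rw [zero_smul, add_zero, sub_zero] at k0
    have i := fun y => ln_int hν (ln_cont hα y)
    have m := integral_mono_ae ((i y).const_mul A)
      (((i 1).const_mul B).add ((i 0).const_mul (C / 2))) (hν.mono fun e he => by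
        have a := h |e| ⟨abs_nonneg e, abs_le.2 he⟩
        have b : kk α (0 * e) = 2 := by norm_num [kk]
        simp only [Pi.add_apply]
        rw [b, ln_abs α e y, ln_abs α e 1, mul_one]
        linarith)
    simp only [Pi.add_apply] at m
    rw [integral_add ((i 1).const_mul B) ((i 0).const_mul (C / 2)), integral_const_mul,
      integral_const_mul, integral_const_mul] at m
    have m' := mul_le_mul_of_nonneg_left m (show 0 ≤ α * (α + 1) by positivity)
    rw [k y hy, k1, show tp α S = (tp α S + tp α S) / 2 by ring, k0]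
    linarith
  obtain ⟨p1, p2⟩ := pencil_psd hS h1 h2 hy
  refine le_of_tendsto_of_tendsto (((ln_lim hα _ p1).add (ln_lim hα _ p2)).const_mul A)
    ((((ln_lim hα _ h1).add (ln_lim hα _ h2)).const_mul B).add ((ln_lim hα _ hS).const_mul C))
    (eventually_mem_nhdsWithin.mono fun ε hε => ?_)
  have o : (ε • (1 : Matrix n n ℂ)).PosDef := PosDef.one.smul (mem_Ioi.1 hε)
  have a := key (S + ε • 1) (PosDef.posSemidef_add hS o)
    (by rw [add_right_comm]; exact h1.add o.posSemidef)
    (by rw [add_sub_right_comm]; exact h2.add o.posSemidef)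
  simpa only [add_right_comm S (ε • 1), add_sub_right_comm S (ε • 1)] using a

end Pool.Agent.MP_560646_mp.One
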