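import Pool.Agent.MP_560646_mp.Hz.St

set_option autoImplicit false

namespace Pool.Agent.MP_560646_mp.One

open Matrix Real Set MeasureTheory Metric
open scoped ComplexOrder MatrixOrder

theorem rp_bound {n : Type} [Fintype n] [DecidableEq n] {S : Matrix n n ℂ} (hS : S.PosSemidef) :
    ∃ R : ℝ, 0 < R ∧ (R • (1 : Matrix n n ℂ) - S).PosSemidef := by
  obtain ⟨U, d, hd, rfl⟩ := exists_ud hS
  have h0 : 0 ≤ ∑ i, d i := Finset.sum_nonneg fun i _ => hd i
  refine ⟨1 + ∑ i, d i, by linarith, ?_⟩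
  have e : (1 + ∑ i, d i) • (1 : Matrix n n ℂ) - ud U d =
      ud U fun i => (-1) * d i + (1 + ∑ i, d i) := by
    rw [← ud_shift, ← ud_smul]
    module
  rw [e]
  refine ud_psd U fun i => ?_
  have := Finset.single_le_sum (fun i _ => hd i) (Finset.mem_univ i)
  linarith

theorem rp_val (h8a : H8A) (h8b : H8B) {α R : ℝ} (hα : 0 < α) (hR : 0 < R) {n : Type} [Fintype n]
    [DecidableEq n] {S D D' : Matrix n n ℂ} (hS : S.PosDef)
    (hRS : (R • (1 : Matrix n n ℂ) - S).PosSemidef) (h2 : (S - D').PosSemidef) {t z : ℝ}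
    (ht : t ∈ Ioo (0 : ℝ) 1) (hz2 : z ^ 2 = t ^ 2) (hzD : z • D = t • D') :
    ∫ l in Ioi (0 : ℝ), pa α (S - l • ((1 + t ^ 2) • S - (2 * t) • D')) =
      α * (bb α R S D z).re := by
  have hT : ((1 + t ^ 2) • S - (2 * t) • D').PosDef := by
    have h1 : (0 : ℝ) < (1 - t) ^ 2 := pow_pos (sub_pos.2 ht.2) 2
    have h3 : (0 : ℝ) ≤ 2 * t := by linarith [ht.1]
    convert (hS.smul h1).add_posSemidef (h2.smul h3) using 1
    module
  have e1 : tz S D z = (1 + t ^ 2) • S - (2 * t) • D' := by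
    rw [tz, mul_smul, mul_smul, ← hzD, ← hz2, Complex.coe_smul, ← Complex.coe_smul (1 + z ^ 2),
      ← Complex.coe_smul 2]
    push_cast
    rfl
  have hs : 0 < 1 - t ^ 2 := by nlinarith [ht.1, ht.2]
  have e2 : ∀ a, hz S z a = (1 - t ^ 2) • (S - a • (1 : Matrix n n ℂ)) := fun a => by
    rw [hz, ← hz2, ← Complex.coe_smul (1 - z ^ 2)]
    push_cast
    rfl
  obtain ⟨Y, hY, hYT, H⟩ := h8a n _ hT
  rw [h8b α R hα hR n S _ Y hS.1 hRS hT hY hYT]
  congr 1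
  have e3 : ∀ a : ℝ, ((a ^ (α - 1) : ℝ) : ℂ) * cs (tz S D z) (hz S z a) =
      (((1 - t ^ 2) * (a ^ (α - 1) * pp (Y * (S - a • (1 : Matrix n n ℂ)) * Y)) : ℝ) : ℂ) := by
    intro a
    rw [e1, e2, H _ (hS.1.sub (herm_smul isHermitian_one a)) _ hs, ← Complex.ofReal_mul]
    congr 1
    ring
  have e4 : (1 - (z : ℂ) ^ 2)⁻¹ = (((1 - t ^ 2)⁻¹ : ℝ) : ℂ) := by
    rw [← hz2]
    push_cast
    rfl
  rw [bb]
  simp only [e3]
  rw [integral_complex_ofReal, e4, ← Complex.ofReal_mul, Complex.ofReal_re, integral_const_mul,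
    inv_mul_cancel_left₀ hs.ne']

theorem rp_int {α : ℝ} (hα : 0 < α) {ν : Measure ℝ} [IsFiniteMeasure ν]
    (h : ∀ᵐ e ∂ν, e ∈ Icc (-1 : ℝ) 1) (y s : ℝ) :
    Integrable (fun e => (1 + y * (s * e)) ^ α) ν := by
  have hc : Continuous fun e : ℝ => (1 + y * (s * e)) ^ α :=
    Continuous.rpow_const (by fun_prop) fun _ => Or.inr hα.le
  have := (hc.continuousOn.integrableOn_compact (μ := ν) (isCompact_Icc (a := -1) (b := 1)))
  rwa [IntegrableOn, Measure.restrict_eq_self_of_ae_mem h] at this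

theorem rep (h6 : H6S) (h7 : H7S) (h8a : H8A) (h8b : H8B) (h12 : H12S) : REP := by
  intro α hα n _ _ S D hS hD h1 h2
  obtain ⟨R, hR, hRS⟩ := rp_bound hS.posSemidef
  obtain ⟨d1, d2⟩ := h6 α R hα hR n S D hS hD h1 h2
  obtain ⟨ν, hν, ha, H⟩ := h7 _ d1 d2
  refine ⟨ν, hν, ha, fun y hy => ?_⟩
  have k1 := h12 α hα n S D hS.posSemidef hD h1 h2 ν 1 (by simp) ha (fun t ht => by
    rw [rp_val h8a h8b hα hR hS hRS h2 ht rfl rfl, H t ⟨by linarith [ht.1], ht.2⟩]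
    simp only [one_mul]) y hy
  have k2 := h12 α hα n S (-D) hS.posSemidef hD.neg (by rwa [← sub_eq_add_neg])
    (by rwa [sub_neg_eq_add]) ν (-1) (by simp) ha (fun t ht => by
    rw [rp_val h8a h8b hα hR (D := D) (z := -t) hS hRS (by rwa [sub_neg_eq_add]) ht (by ring)
      (by rw [neg_smul, smul_neg]), H (-t) ⟨by linarith [ht.2], by linarith [ht.1]⟩]
    congr 2
    funext e
    ring) y hy
  rw [smul_neg, ← sub_eq_add_neg] at k2
  rw [k1, k2, ← mul_add, ← integral_add (rp_int hα ha y 1) (rp_int hα ha y (-1))]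
  congr 2
  funext e
  rw [kk, one_mul, neg_one_mul, mul_neg, ← sub_eq_add_neg]

end Pool.Agent.MP_560646_mp.One
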