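import Pool.Agent.MP_560646_mp.Hz.St

/-! Supporting lines for the even power function along a dilation. -/

set_option autoImplicit false

namespace Pool.Agent.MP_560646_mp.One

open Real Set

theorem tn_mono {f f' : ℝ → ℝ} {a b : ℝ} (hab : a ≤ b) (hc : Continuous f)
    (hd : ∀ t ∈ Ioo a b, HasDerivAt f (f' t) t) (h : ∀ t ∈ Ioo a b, 0 ≤ f' t) : f a ≤ f b :=
  monotoneOn_of_hasDerivWithinAt_nonneg (f' := f') (convex_Icc a b) hc.continuousOn
    (fun t ht => (hd t (by rwa [interior_Icc] at ht)).hasDerivWithinAt)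
    (fun t ht => h t (by rwa [interior_Icc] at ht)) (left_mem_Icc.2 hab) (right_mem_Icc.2 hab) hab

theorem tn_cont {α : ℝ} (h : 0 ≤ α) : Continuous (kk α) :=
  ((continuous_const.add continuous_id).rpow_const fun _ => Or.inr h).add
    ((continuous_const.sub continuous_id).rpow_const fun _ => Or.inr h)

theorem tn_cross {g s t : ℝ} (hg : 1 ≤ g) (h₀ : 0 < s) (h : s ≤ t) (h₁ : t < 1) :
    s * od (g - 1) s * kk g t ≤ t * od (g - 1) t * kk g s := by
  obtain ⟨p, rfl⟩ : ∃ p, g = p + 1 := ⟨g - 1, by ring⟩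
  have hp : 0 ≤ p := by linarith
  have s1 : 0 < 1 - s := by linarith
  have t1 : 0 < 1 - t := by linarith
  have a := rpow_le_rpow (by linarith : 0 ≤ 1 + s) (by linarith : 1 + s ≤ 1 + t) hp
  have b := rpow_le_rpow t1.le (by linarith : 1 - t ≤ 1 - s) hp
  have c := rpow_le_rpow s1.le (by linarith : 1 - s ≤ 1 + s) hp
  have a0 := rpow_pos_of_pos t1 p
  unfold od kk
  rw [add_sub_cancel_right, rpow_add_one (by linarith), rpow_add_one t1.ne',
    rpow_add_one (by linarith), rpow_add_one s1.ne']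
  generalize (1 + s) ^ p = x at *
  generalize (1 - s) ^ p = y at *
  generalize (1 + t) ^ p = x' at *
  generalize (1 - t) ^ p = y' at *
  have d : x * y' ≤ x' * y := mul_le_mul a b a0.le (by linarith)
  have k := mul_nonneg (sub_nonneg.2 h)
    (mul_nonneg (by linarith : 0 ≤ x' - y') (by linarith : 0 ≤ x + y))
  have k' := mul_nonneg h₀.le (sub_nonneg.2 d)
  linarith

section
variable {b sg : ℝ} (h : (b < 0 ∧ sg = -1) ∨ (2 ≤ b ∧ sg = 1))
include h

theorem tn_c : 0 < sg * b := by
  rcases h with ⟨a, rfl⟩ | ⟨a, rfl⟩ <;> linarith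

theorem tn_pos {v : ℝ} (h₀ : 0 < v) (h₁ : v < 1) : 0 < sg * od b v := by
  rcases h with ⟨a, rfl⟩ | ⟨a, rfl⟩
  · have := rpow_lt_rpow_of_neg (by linarith : 0 < 1 - v) (by linarith : 1 - v < 1 + v) a
    unfold od
    linarith
  · have := od_pos (by linarith : 0 < b) h₀ h₁.le
    linarith

theorem tn_ela {w v : ℝ} (h₀ : 0 ≤ w) (hw : w ≤ v) (h₁ : v < 1) :
    w * (sg * b * kk (b - 1) w) * (sg * od b v) ≤ v * (sg * b * kk (b - 1) v) * (sg * od b w) :=
  lhop (A := fun t => t * (sg * b * kk (b - 1) t)) (B := fun t => sg * od b t)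
    (A' := fun t => sg * b * kk (b - 1) t + sg * b * ((b - 1) * (t * od (b - 1 - 1) t)))
    (B' := fun t => sg * b * kk (b - 1) t)
    (fun t a c => ((hasDerivAt_id' t).mul ((kk_deriv (b - 1) a c).const_mul _)).congr_deriv
      (by ring))
    (fun t a c => ((od_deriv b a c).const_mul sg).congr_deriv (by ring)) (by simp)
    (by simp [od_zero]) (fun t a c => mul_pos (tn_c h) (kk_pos _ a.le c.le))
    (fun s t a c d => by
      have k : (b - 1) * (s * od (b - 1 - 1) s * kk (b - 1) t) ≤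
          (b - 1) * (t * od (b - 1 - 1) t * kk (b - 1) s) := by
        rcases h with ⟨e, -⟩ | ⟨e, -⟩
        · have := mul_le_mul_of_nonneg_left (cross_neg (by linarith : b - 1 ≤ 0) a c d)
            (by linarith : 0 ≤ 1 - b)
          linarith
        · exact mul_le_mul_of_nonneg_left (tn_cross (by linarith) a c d) (by linarith)
      have := mul_le_mul_of_nonneg_left k (mul_pos (tn_c h) (tn_c h)).le
      linarith) h₀ hw h₁

theorem tn_rat {y u v : ℝ} (hy : y ∈ Icc (0 : ℝ) 1) (h₀ : 0 < u) (huv : u ≤ v) (h₁ : v < 1) :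
    sg * od b (v * y) / (sg * od b v) ≤ sg * od b (u * y) / (sg * od b u) := by
  have k := mono_ab (f := fun t => -(sg * od b (t * y) / (sg * od b t)))
    (f' := fun t => -((sg * (b * kk (b - 1) (t * y) * (1 * y)) * (sg * od b t) -
      sg * od b (t * y) * (sg * (b * kk (b - 1) t))) / (sg * od b t) ^ 2)) huv
    (fun t ht => by
      have t0 := h₀.trans_le ht.1
      have t1 := ht.2.trans_lt h₁
      have a := (od_deriv b (mul_nonneg t0.le hy.1)
        ((mul_le_of_le_one_right t0.le hy.2).trans_lt t1)).comp t ((hasDerivAt_id' t).mul_const y)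
      exact ((a.const_mul sg).div ((od_deriv b t0.le t1).const_mul sg) (tn_pos h t0 t1).ne').neg)
    fun t ht => by
      have t0 := h₀.trans ht.1
      have a := tn_ela h (mul_nonneg t0.le hy.1) (mul_le_of_le_one_right t0.le hy.2)
        (ht.2.trans h₁)
      refine neg_nonneg.2 (div_nonpos_of_nonpos_of_nonneg ?_ (sq_nonneg _))
      refine le_of_mul_le_mul_left ?_ t0
      linarith
  simpa only [neg_le_neg_iff] using k

end

theorem tanS : TAN := by
  intro α sg h e₀ he y hy
  have h' : (α - 1 < 0 ∧ sg = -1) ∨ (2 ≤ α - 1 ∧ sg = 1) :=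
    h.imp (fun a => ⟨by linarith [a.2.1], a.2.2⟩) fun a => ⟨by linarith [a.1], a.2⟩
  have α0 : 0 < α := h.elim (fun a => a.1) fun a => by linarith [a.1]
  have hc := tn_cont α0.le
  have m : ∀ u v : ℝ, 0 ≤ u → u ≤ v → v ≤ 1 → sg * kk α u ≤ sg * kk α v := fun u v a c d =>
    tn_mono (f := fun t => sg * kk α t) (f' := fun t => α * (sg * od (α - 1) t)) c
      (continuous_const.mul hc)
      (fun t ht => ((kk_deriv α (a.trans ht.1.le) (ht.2.trans_le d)).const_mul sg).congr_deriv
        (by ring))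
      fun t ht => (mul_pos α0 (tn_pos h' (a.trans_lt ht.1) (ht.2.trans_le d))).le
  rcases he.1.eq_or_lt with rfl | e0
  · refine ⟨sg, 0, by simp, fun e a => ?_⟩
    rw [add_zero]
    exact m _ _ (mul_nonneg a.1 hy.1) (mul_le_of_le_one_right a.1 hy.2) a.2
  rcases he.2.eq_or_lt with rfl | e1
  · refine ⟨0, sg * kk α (1 * y), by simp, fun e a => ?_⟩
    rw [zero_mul, zero_add]
    exact m _ _ (mul_nonneg a.1 hy.1) (mul_le_mul_of_nonneg_right a.2 hy.1) (by linarith [hy.2])
  obtain ⟨l, hl⟩ : ∃ l, l = sg * od (α - 1) (e₀ * y) / (sg * od (α - 1) e₀) := ⟨_, rfl⟩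
  have gc : Continuous fun t => sg * kk α (t * y) - sg * (y * l) * kk α t :=
    (continuous_const.mul (hc.comp (continuous_id.mul continuous_const))).sub
      (continuous_const.mul hc)
  have gd : ∀ t, 0 < t → t < 1 → HasDerivAt (fun t => sg * kk α (t * y) - sg * (y * l) * kk α t)
      (α * y * (sg * od (α - 1) t) *
        (sg * od (α - 1) (t * y) / (sg * od (α - 1) t) - l)) t := fun t t0 t1 => by
    have a := (kk_deriv α (mul_nonneg t0.le hy.1)
      ((mul_le_of_le_one_right t0.le hy.2).trans_lt t1)).comp t ((hasDerivAt_id' t).mul_const y)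
    refine ((a.const_mul sg).sub ((kk_deriv α t0.le t1).const_mul _)).congr_deriv ?_
    rw [mul_sub, mul_assoc (α * y), mul_div_cancel₀ _ (tn_pos h' t0 t1).ne']
    ring
  have gp : ∀ t, 0 < t → t < 1 → 0 ≤ α * y * (sg * od (α - 1) t) := fun t t0 t1 =>
    mul_nonneg (mul_nonneg α0.le hy.1) (tn_pos h' t0 t1).le
  refine ⟨sg * (y * l), sg * kk α (e₀ * y) - sg * (y * l) * kk α e₀, by ring, fun e a => ?_⟩
  rcases le_total e e₀ with c | c
  · have := tn_mono c gc (fun t ht => gd t (a.1.trans_lt ht.1) (ht.2.trans e1)) fun t ht =>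
      mul_nonneg (gp t (a.1.trans_lt ht.1) (ht.2.trans e1))
        (sub_nonneg.2 (hl ▸ tn_rat h' hy (a.1.trans_lt ht.1) ht.2.le e1))
    linarith
  · have := tn_mono c gc.neg (fun t ht => (gd t (e0.trans ht.1) (ht.2.trans_le a.2)).neg)
      fun t ht => neg_nonneg.2 (mul_nonpos_of_nonneg_of_nonpos
        (gp t (e0.trans ht.1) (ht.2.trans_le a.2))
        (sub_nonpos.2 (hl ▸ tn_rat h' hy e0 ht.1.le (ht.2.trans_le a.2))))
    simp only [Pi.neg_apply] at this
    linarith

end Pool.Agent.MP_560646_mp.One
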