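import Pool.Agent.MP_560646_mp.Hz.H1
import Pool.Agent.MP_560646_mp.Hz.H2
import Pool.Agent.MP_560646_mp.Hz.H3
import Pool.Agent.MP_560646_mp.Hz.H4
import Pool.Agent.MP_560646_mp.Hz.H5
import Pool.Agent.MP_560646_mp.Hz.H6A
import Pool.Agent.MP_560646_mp.Hz.H6
import Pool.Agent.MP_560646_mp.Hz.H7
import Pool.Agent.MP_560646_mp.Hz.H8A
import Pool.Agent.MP_560646_mp.Hz.H8B
import Pool.Agent.MP_560646_mp.Hz.H9A
import Pool.Agent.MP_560646_mp.Hz.H9
import Pool.Agent.MP_560646_mp.Hz.H10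
import Pool.Agent.MP_560646_mp.Hz.H11
import Pool.Agent.MP_560646_mp.Hz.H12
import Pool.Agent.MP_560646_mp.Hz.Rp
import Pool.Agent.MP_560646_mp.Hz.Ln
import Pool.Agent.MP_560646_mp.Hz.Tn

/-! The representing measure, assembled. -/

set_option autoImplicit false

namespace Pool.Agent.MP_560646_mp.One

theorem rep_all : REP :=
  rep (h6S h1S (h2S h1S) h3S h4S h5S h6A) h7S (h8A (h2S h1S)) h8B (h12S h9A (h9S h9A) h10S h11S)

theorem lin_all : LIN := lin rep_all

end Pool.Agent.MP_560646_mp.One
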