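import Pool.Agent.MP_560646_mp.One.Cs

/-! Statements for the comparison of the branches at orders from 4 on. -/

set_option autoImplicit false

namespace Pool.Agent.MP_560646_mp.One

open Real Set

noncomputable def rh (m q : ℝ) : ℝ := (q - q ^ m / q) / (1 - q ^ m)

noncomputable def gm (m q : ℝ) : ℝ := (q + q ^ m) / (1 + q * q ^ m)

noncomputable def cn (m q : ℝ) : ℝ := (1 - q ^ m) / (1 + q * q ^ m)

/-- The square of `q` times the numerator of the derivative of `rh`, with `X = q ^ m`. -/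
def na (m q X : ℝ) : ℝ := q ^ 2 - (m - 1) * X + (m - 1) * q ^ 2 * X - X ^ 2

/-- `q` times the numerator of the derivative of `gm`. -/
def nb (m q X : ℝ) : ℝ := q + m * X - m * q ^ 2 * X - q * X ^ 2

def JS : Prop := ∀ m q : ℝ, 3 ≤ m → q ∈ Ioo (0 : ℝ) 1 → ∀ X : ℝ, X = q ^ m →
  q ^ 2 * (1 - q) ^ 3 ≤ na m q X ∧
  0 ≤ ((m - 1) * (m - 2) * X - m * (m - 1) * q ^ 2 * X + (2 * m - 2) * X ^ 2) * (1 - X) -
    2 * m * X * na m q X ∧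
  3 * m * na m q X * (1 + q * X) ^ 2 ≤
    (m + 2) * (q * nb m q X) * (1 - X) ^ 2 + 2 * (m - 1) * q ^ 2 * (1 - X) ^ 3 * (1 + q * X) ∧
  na m q X * ((m + 2) * q * (q + X) * (1 - X) - 3 * m * (q ^ 2 - X) * (1 + q * X) +
      2 * (m - 1) * q * (1 - X) * (1 + q * X)) ≤
    (m - 1) * ((q ^ 2 - X) * (1 - q ^ 2) * (1 - X) ^ 2 - (1 - q) ^ 2 * na m q X * (1 - X)) *
      (1 + q * X)

def K2S : Prop := ∀ m q p : ℝ, 3 ≤ m → 0 < q → q ≤ p → p < 1 → (q < p → rh m q < rh m p) ∧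
  (m - 1 - 3 * m * rh m q + (2 * m + 1) * gm m q + (m - 1) * cn m q * (1 - p)) *
      (rh m p - rh m q) ≤
    (m - 1) * ((1 - q) ^ 2 * rh m q / q - (1 - p) ^ 2 * rh m p / p)

def K3S : Prop := ∀ β v w : ℝ, 3 ≤ β → 0 < w → w ≤ v → v < 1 →
  (w < v → qq β w * od β v < qq β v * od β w) ∧
  (3 * (β * v * kk (β - 1) v) * kk (β + 1) v - 3 * (β + 1) / 2 * v * od β v ^ 2 +
      (β - 1) * v * od β v ^ 2 * (w * (1 + v) / (v * (1 + w)) - 1 / 2)) *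
      (qq β v * od β w - qq β w * od β v) ≤
    kk (β + 1) v * od β v * (v ^ 2 * oo β v * od β w - w ^ 2 * oo β w * od β v)

def K4S : Prop := ∀ β : ℝ, 0 < β → ∃ d : ℝ → ℝ, ContinuousOn d (Icc 0 1) ∧ d 0 = 1 ∧ d 1 = 0 ∧
  (∀ v ∈ Icc (0 : ℝ) 1, ∀ v' ∈ Icc (0 : ℝ) 1,
    kk (β + 1) v * kk (β + 1) v' = 2 * 2 ^ (β + 1) → d v = v') ∧
  ∀ v ∈ Ioo (0 : ℝ) 1, d v ∈ Ioo (0 : ℝ) 1 ∧
    kk (β + 1) v * kk (β + 1) (d v) = 2 * 2 ^ (β + 1) ∧ 2 ≤ (1 + v) * (1 + d v) ∧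
    HasDerivAt d (-(od β v * kk (β + 1) (d v)) / (kk (β + 1) v * od β (d v))) v

/-- The curvature of the noisy curve with the weight of the duality. -/
noncomputable def xw (β u v : ℝ) : ℝ := √(kk (β + 1) v) ^ 3 * nw β u v / od β v ^ 3

def K5S : Prop := ∀ β u v : ℝ, 3 ≤ β → u ∈ Ioo (0 : ℝ) 1 → v ∈ Ioo (0 : ℝ) 1 → 0 < xw β u v ∧
  ∃ D : ℝ, HasDerivAt (xw β u) D v ∧
    (β - 1) * (od β v / kk (β + 1) v) * (u * (1 + v) / (1 + u * v) - 1 / 2) * xw β u v ≤ D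

def K6S : Prop := ∀ β : ℝ, 3 ≤ β → CP (β + 1) 1

end Pool.Agent.MP_560646_mp.One
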