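import Pool.Agent.MP_560646_mp.Hz.Fn

/-! The exact bound for all orders when one side is classical or flat. -/

set_option autoImplicit false

namespace Pool.Agent.MP_560646_mp.One

open Matrix Kronecker Real Set
open scoped ComplexOrder MatrixOrder

theorem ent_form_low {α H : ℝ} (hα : α < 1) (h : H ∈ Icc 0 (log 2)) :
    ∃ F ∈ Icc 1 ((2 : ℝ) ^ (1 - α)), H = log F / (1 - α) := by
  have hpos : 0 < 1 - α := by linarith
  refine ⟨exp (H * (1 - α)), ⟨?_, ?_⟩, by rw [log_exp, mul_div_cancel_right₀ _ hpos.ne']⟩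
  · exact one_le_exp (mul_nonneg h.1 hpos.le)
  · rw [rpow_def_of_pos two_pos]
    exact exp_le_exp.2 (mul_le_mul_of_nonneg_right h.2 hpos.le)

theorem cmp_low {α H₁ H₂ : ℝ} (h₀ : 0 < α) (hα : α < 1) (hc : CP α 1) (h₁ : H₁ ∈ Icc 0 (log 2))
    (h₂ : H₂ ∈ Icc 0 (log 2)) (h : H₁ + H₂ ≤ log 2) :
    binH α (bconv (binG α H₁) (binG α H₂)) ≤ H₁ + H₂ - log 2 +
      binH α (bconv (binG α (log 2 - H₁)) (binG α (log 2 - H₂))) := by
  obtain ⟨F, hF, rfl⟩ := ent_form_low hα h₁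
  obtain ⟨G, hG, rfl⟩ := ent_form_low hα h₂
  have hpos : 0 < 1 - α := by linarith
  have p2 := rpow_pos_of_pos (by norm_num : (0 : ℝ) < 2) (1 - α)
  have p3 := rpow_pos_of_pos (by norm_num : (0 : ℝ) < 2) α
  have e2 : (2 : ℝ) ^ (1 - α) = 2 / 2 ^ α := by rw [rpow_sub two_pos, rpow_one]
  have F0 := one_pos.trans_le hF.1
  have G0 := one_pos.trans_le hG.1
  have fg : F * G ≤ 2 ^ (1 - α) := by
    rw [← add_div, ← log_mul F0.ne' G0.ne', div_le_iff₀ hpos, mul_comm (log 2),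
      ← log_rpow two_pos] at h
    exact (log_le_log_iff (mul_pos F0 G0) p2).1 h
  obtain ⟨dF, eF⟩ := dual_low hα hF
  obtain ⟨dG, eG⟩ := dual_low hα hG
  rw [eF, eG]
  obtain ⟨ma, ea⟩ := binG_low h₀ hα hF
  obtain ⟨mb, eb⟩ := binG_low h₀ hα hG
  obtain ⟨mc, ec⟩ := binG_low h₀ hα dF
  obtain ⟨md, ed⟩ := binG_low h₀ hα dG
  generalize binG α (log F / (1 - α)) = p at *
  generalize binG α (log G / (1 - α)) = q at *
  generalize binG α (log (2 ^ (1 - α) / F) / (1 - α)) = p' at *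
  generalize binG α (log (2 ^ (1 - α) / G) / (1 - α)) = q' at *
  have x0 := bs_pos α (bconv_mem ma mb)
  have y0 := bs_pos α (bconv_mem mc md)
  have e : log F / (1 - α) + log G / (1 - α) - log 2 + binH α (bconv p' q') =
      log (F * G / 2 ^ (1 - α) * bs α (bconv p' q')) / (1 - α) := by
    rw [log_mul (by positivity) y0.ne', log_div (by positivity) p2.ne',
      log_mul F0.ne' G0.ne', log_rpow (by norm_num)]
    unfold binH bs
    field_simp [hpos.ne']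
  have m : ∀ r ∈ Icc (0 : ℝ) (1 / 2), 1 - 2 * r ∈ Icc (0 : ℝ) 1 ∧
      kk α (1 - 2 * r) = 2 ^ α * bs α r := fun r hr =>
    ⟨⟨by linarith [hr.2], by linarith [hr.1]⟩, bs_kk α ⟨hr.1, by linarith [hr.2]⟩⟩
  have c : ∀ r s : ℝ, (1 - 2 * r) * (1 - 2 * s) = 1 - 2 * bconv r s := fun r s => by
    unfold bconv
    ring
  have u : ∀ {x : ℝ}, 0 < x → (2 : ℝ) ^ α * (2 ^ (1 - α) / x) = 2 / x := fun hx => by
    rw [e2]
    field_simp
  have k := hc _ (m p' mc).1 _ (m q' md).1 _ (m p ma).1 _ (m q mb).1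
    (by rw [(m p ma).2, (m p' mc).2, ea, ec, e2]; field_simp)
    (by rw [(m q mb).2, (m q' md).2, eb, ed, e2]; field_simp)
    (by
      rw [(m p' mc).2, (m q' md).2, ec, ed, u F0, u G0, div_mul_div_comm, le_div_iff₀ (by positivity)]
      rw [e2, le_div_iff₀ p3] at fg
      linarith)
  rw [c, c, bs_kk α (bconv_mem ma mb), bs_kk α (bconv_mem mc md), (m p' mc).2, (m q' md).2, ec,
    ed, u F0, u G0, div_mul_div_comm, one_mul, one_mul, div_mul_eq_mul_div,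
    div_le_iff₀ (by positivity)] at k
  rw [e, show binH α (bconv p q) = log (bs α (bconv p q)) / (1 - α) from rfl]
  refine div_le_div_of_nonneg_right (log_le_log x0 ?_) hpos.le
  refine le_of_mul_le_mul_left ?_ (by positivity : (0 : ℝ) < 4 * 2 ^ α)
  rw [e2, div_div_eq_mul_div]
  linarith

variable {n m : Type} [Fintype n] [DecidableEq n] [Fintype m] [DecidableEq m]

theorem renyi_exact (hK : K6S) (hL : ∀ α ∈ Ioo (0 : ℝ) 1, CP α 1) {α : ℝ} (h₀ : 0 < α)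
    (h₁ : α ≠ 1) (σ : ZMod 2 → Matrix n n ℂ)
    (η : ZMod 2 → Matrix m m ℂ) (hσ : ∀ x, (σ x).PosSemidef ∧ trace (σ x) = 1)
    (hη : ∀ x, (η x).PosSemidef ∧ trace (η x) = 1)
    (h : Commute (η 0) (η 1) ∨ ∃ c : ℝ, ∀ x, η x * η x = c • η x) :
    Hdown α (cq σ) ∈ Icc 0 (log 2) ∧ Hdown α (cq η) ∈ Icc 0 (log 2) ∧
      (α ≤ 2 ∨ 3 ≤ α → bound α (Hdown α (cq σ)) (Hdown α (cq η)) ≤ Hdown α (combine σ η)) ∧
      (2 ≤ α → α ≤ 3 → Hdown α (combine σ η) ≤ bound α (Hdown α (cq σ)) (Hdown α (cq η))) := by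
  rcases lt_or_gt_of_ne h₁ with l | l
  swap
  · exact renyi_all hK h₀ h₁ σ η hσ hη (h.imp (fun r => ⟨r, Or.inl l⟩) fun r => ⟨r, Or.inl l⟩)
  have hc := hL α ⟨h₀, l⟩
  rcases h with h | h
  · obtain ⟨a, b, c⟩ := branch_low lin_all tanS h₀ l σ η hσ hη _ (Or.inl ⟨h, rfl⟩)
    refine ⟨a, b, fun _ => ?_, fun r => absurd r (by linarith)⟩
    unfold bound
    split_ifs with k
    · exact c
    · have := cmp_low h₀ l hc (H₁ := log 2 - Hdown α (cq σ)) (H₂ := log 2 - Hdown α (cq η))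
        ⟨by linarith [a.2], by linarith [a.1]⟩ ⟨by linarith [b.2], by linarith [b.1]⟩ (by linarith)
      rw [sub_sub_cancel, sub_sub_cancel] at this
      linarith
  · obtain ⟨a, b, c⟩ := branch_low lin_all tanS h₀ l σ η hσ hη _ (Or.inr ⟨h, rfl⟩)
    refine ⟨a, b, fun _ => ?_, fun r => absurd r (by linarith)⟩
    unfold bound
    split_ifs with k
    · exact (cmp_low h₀ l hc a b k).trans c
    · exact c

end Pool.Agent.MP_560646_mp.One
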