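import Pool.Agent.MP_560646_mp.One.Ex
import Pool.Agent.MP_560646_mp.Hz.St

/-! From the linear inequalities to the entropy inequalities for all orders. -/

set_option autoImplicit false

namespace Pool.Agent.MP_560646_mp.One

open Matrix Kronecker Real Set
open scoped ComplexOrder MatrixOrder

theorem cm_of_pl {α sg : ℝ} (H : PL α sg) : CM α sg := by
  intro n m _ _ _ _ P Q P' Q' hP hQ hP' hQ' ht ht' hc p hp q hq e e'
  have hε : 1 - 2 * p ∈ Icc (0 : ℝ) 1 := ⟨by linarith [hp.2], by linarith [hp.1]⟩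
  have A := e_pl H hP' hQ' ht' hq e' hε
  obtain ⟨W, a, b, ha, hb, rfl, rfl⟩ := e_joint hP' hQ' hc
  have B : ∀ k, sg * (2 ^ α * (tp α (a k • P + b k • Q) + tp α (b k • P + a k • Q))) ≤
      sg * ((a k + b k + (1 - 2 * p) * (a k - b k)) ^ α +
        (a k + b k - (1 - 2 * p) * (a k - b k)) ^ α) := by
    intro k
    have Y := fun y hy => e_pl H hP hQ ht hp e (y := y) hy
    rcases le_total (b k) (a k) with h | h
    · exact e_one hP hQ hε Y (hb k) h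
    · have := e_one hP hQ hε Y (ha k) h
      rw [show b k + a k + (1 - 2 * p) * (b k - a k) = a k + b k - (1 - 2 * p) * (a k - b k) by ring,
        show b k + a k - (1 - 2 * p) * (b k - a k) = a k + b k + (1 - 2 * p) * (a k - b k) by ring]
        at this
      linarith
  have g₁ : ud W a + ud W b + (1 - 2 * p) • (ud W a - ud W b) =
      ud W fun k => a k + b k + (1 - 2 * p) * (a k - b k) := by
    rw [sub_eq_add_neg (ud W a), ← neg_one_smul ℝ (ud W b), ud_smul, ud_add, ud_add, ud_smul, ud_add]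
    congr 1
    ext k
    ring
  have g₂ : ud W a + ud W b - (1 - 2 * p) • (ud W a - ud W b) =
      ud W fun k => a k + b k - (1 - 2 * p) * (a k - b k) := by
    rw [sub_eq_add_neg (ud W a), ← neg_one_smul ℝ (ud W b), sub_eq_add_neg (ud W a + _), ← neg_smul,
      ud_smul, ud_add, ud_add, ud_smul, ud_add]
    congr 1
    ext k
    ring
  have r₀ : 0 ≤ bconv p q := by
    unfold bconv
    nlinarith [hp.1, hp.2, hq.1, hq.2]
  have r₁ : bconv p q ≤ 1 := by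
    unfold bconv
    nlinarith [hp.1, hp.2, hq.1, hq.2]
  rw [g₁, g₂, tp_ud, tp_ud, show (1 - 2 * q) * (1 - 2 * p) = 1 - 2 * bconv p q by unfold bconv; ring,
    e_kk α r₀ r₁, ← Finset.sum_add_distrib, Finset.mul_sum] at A
  have C := (Finset.sum_le_sum fun k (_ : k ∈ Finset.univ) => B k).trans A
  rw [← Finset.mul_sum, ← Finset.mul_sum, Finset.sum_add_distrib, ← e_kron α hP.1 hQ.1 W,
    ← e_kron α hP.1 hQ.1 W] at C
  have two : (0 : ℝ) < 2 ^ α := by positivity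
  refine le_of_mul_le_mul_left ?_ two
  linarith

theorem dm_of_cm {α sg : ℝ} (hα : 0 < α) (hC : CM α sg) : DM α sg := by
  intro n m _ _ _ _ P Q P' Q' hP hQ hP' hQ' ht ht' hc p hp q hq hb hb'
  have α₀ : α ≠ 0 := hα.ne'
  obtain ⟨M, M', h₁, h₂, h₃, h₄⟩ := exists_dual hP hQ
  obtain ⟨N, N', k₁, k₂, k₃, k₄⟩ := exists_dual hP' hQ'
  have half : (0 : ℝ) ≤ 1 / 2 := by norm_num
  have ps : ∀ {k l : Type} [Fintype k] [Fintype l] (M : Matrix k l ℂ),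
      ((1 / 2 : ℝ) • (M * Mᴴ)).PosSemidef := fun M =>
    (posSemidef_self_mul_conjTranspose M).smul half
  obtain ⟨c, c₀, F, e, a₁, a₂⟩ := f_one α₀ hP hQ h₁ h₂ h₃ h₄ ht hb
  obtain ⟨d, d₀, G, e', b₁, b₂⟩ := f_one α₀ hP' hQ' k₁ k₂ k₃ k₄ ht' hb'
  have hX := (hP.kronecker hP').add (hQ.kronecker hQ')
  have hY := (hP.kronecker hQ').add (hQ.kronecker hP')
  have blk : ∀ {N N' : Matrix (m ⊕ m) m ℂ}, Nᴴ * N = P' + Q' → N'ᴴ * N' = P' + Q' →
      Nᴴ * N' = P' - Q' → N'ᴴ * N = P' - Q' →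
      tp α ((c • (1 / 2 : ℝ) • (M * Mᴴ)) ⊗ₖ (d • (1 / 2 : ℝ) • (N * Nᴴ)) +
        (c • (1 / 2 : ℝ) • (M' * M'ᴴ)) ⊗ₖ (d • (1 / 2 : ℝ) • (N' * N'ᴴ))) =
      (tp α P' + tp α Q')⁻¹ * ((tp α P + tp α Q)⁻¹ * ((1 / 2 : ℝ) ^ α *
        (tp α (P ⊗ₖ P' + Q ⊗ₖ Q') + tp α (P ⊗ₖ Q' + Q ⊗ₖ P')))) := by
    intro N N' k₁ k₂ k₃ k₄
    have c₁ : (M ⊗ₖ N)ᴴ * (M ⊗ₖ N) =
        P ⊗ₖ P' + Q ⊗ₖ Q' + (P ⊗ₖ Q' + Q ⊗ₖ P') := by
      rw [conjTranspose_kronecker, ← mul_kronecker_mul, h₁, k₁, ← kron_total]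
    have c₂ : (M' ⊗ₖ N')ᴴ * (M' ⊗ₖ N') =
        P ⊗ₖ P' + Q ⊗ₖ Q' + (P ⊗ₖ Q' + Q ⊗ₖ P') := by
      rw [conjTranspose_kronecker, ← mul_kronecker_mul, h₂, k₂, ← kron_total]
    have c₃ : (M ⊗ₖ N)ᴴ * (M' ⊗ₖ N') =
        P ⊗ₖ P' + Q ⊗ₖ Q' - (P ⊗ₖ Q' + Q ⊗ₖ P') := by
      rw [conjTranspose_kronecker, ← mul_kronecker_mul, h₃, k₃, kron_minus]
    have c₄ : (M' ⊗ₖ N')ᴴ * (M ⊗ₖ N) =
        P ⊗ₖ P' + Q ⊗ₖ Q' - (P ⊗ₖ Q' + Q ⊗ₖ P') := by
      rw [conjTranspose_kronecker, ← mul_kronecker_mul, h₄, k₄, kron_minus]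
    have s := (ps (M ⊗ₖ N)).add (ps (M' ⊗ₖ N'))
    rw [← f_pair α₀ hX hY c₁ c₂ c₃ c₄, ← tp_smul α s half, ← e, ← e',
      ← tp_smul α (s.smul half) c₀, ← tp_smul α ((s.smul half).smul c₀) d₀]
    congr 1
    simp only [conjTranspose_kronecker, ← mul_kronecker_mul, smul_kronecker, kronecker_smul,
      smul_add]
    module
  have k := hC _ _ _ _ _ _ ((ps M).smul c₀) ((ps M').smul c₀) ((ps N).smul d₀) ((ps N').smul d₀)
    a₁ b₁ (((((f_commute hP'.1 hQ'.1 k₁ k₂ k₃ k₄ hc).smul_left _).smul_right _).smul_left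
      _).smul_right _) p hp q hq a₂ b₂
  rw [blk k₁ k₂ k₃ k₄, blk k₂ k₁ k₄ k₃, ← mul_add, ← mul_add, ← add_mul, f_half] at k
  have w : (0 : ℝ) < 2 ^ (1 - α) := rpow_pos_of_pos two_pos _
  have := mul_le_mul_of_nonneg_left k (div_pos (mul_pos F G) w).le
  refine le_of_eq_of_le ?_ (this.trans_eq (by ring))
  field_simp

theorem pl_of_lin (hL : LIN) (hT : TAN) {α sg : ℝ}
    (h : (0 < α ∧ α < 1 ∧ sg = -1) ∨ (3 ≤ α ∧ sg = 1)) : PL α sg := by
  intro n _ _ S D hS hD p₁ p₂ hN e he y hy k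
  obtain ⟨B, C, a, b⟩ := hT α sg h e he y hy
  have := hL α (by rcases h with h | h <;> linarith [h.1]) n S D hS hD p₁ p₂ y hy sg B C b
  rw [k, hN] at this
  linarith

theorem kk_low {α e : ℝ} (h₀ : 0 < α) (h₁ : α < 1) (he : e ∈ Icc (0 : ℝ) 1) :
    2 ^ α ≤ kk α e ∧ kk α e ≤ 2 := by
  constructor
  · have := rpow_add_le_add_rpow (a := 1 + e) (b := 1 - e) (by linarith [he.1]) (by linarith [he.2])
      h₀.le h₁.le
    rwa [show 1 + e + (1 - e) = 2 by ring] at this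
  · have a := rpow_one_add_le_one_add_mul_self (s := e) (by linarith [he.1]) h₀.le h₁.le
    have b := rpow_one_add_le_one_add_mul_self (s := -e) (by linarith [he.2]) h₀.le h₁.le
    rw [← sub_eq_add_neg] at b
    unfold kk
    linarith

variable {n m : Type} [Fintype n] [DecidableEq n] [Fintype m] [DecidableEq m]

theorem rt_low (hL : LIN) {P Q : Matrix n n ℂ} (hP : P.PosSemidef) (hQ : Q.PosSemidef) {α : ℝ}
    (h₀ : 0 < α) (h₁ : α < 1) (h : tp α (P + Q) = 1) :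
    tp α P + tp α Q ∈ Icc 1 ((2 : ℝ) ^ (1 - α)) := by
  have e₁ : P + Q + (P - Q) = (2 : ℝ) • P := by module
  have e₂ : P + Q - (P - Q) = (2 : ℝ) • Q := by module
  have k := hL α h₀ n (P + Q) (P - Q) (hP.add hQ) (hP.1.sub hQ.1) (e₁ ▸ hP.smul (by norm_num))
    (e₂ ▸ hQ.smul (by norm_num)) 1 (right_mem_Icc.2 zero_le_one) 0
  have a := k 1 (-2 ^ α) fun e he => by linarith [(kk_low h₀ h₁ he).1]
  have b := k (-1) 2 fun e he => by linarith [(kk_low h₀ h₁ he).2]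
  rw [e₁, e₂, tp_smul α hP (by norm_num), tp_smul α hQ (by norm_num), h] at a b
  have p := rpow_pos_of_pos (by norm_num : (0 : ℝ) < 2) α
  rw [rpow_sub two_pos, rpow_one]
  exact ⟨le_of_mul_le_mul_left (by linarith) p, (le_div_iff₀ p).2 (by linarith)⟩

theorem binG_low {α F : ℝ} (h₀ : 0 < α) (h₁ : α < 1) (hF : F ∈ Icc 1 ((2 : ℝ) ^ (1 - α))) :
    binG α (log F / (1 - α)) ∈ Icc (0 : ℝ) (1 / 2) ∧ bs α (binG α (log F / (1 - α))) = F := by
  have hpos : 0 < 1 - α := by linarith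
  have hc : Continuous fun p : ℝ => p ^ α + (1 - p) ^ α :=
    (continuous_rpow_const h₀.le).add
      ((continuous_rpow_const h₀.le).comp (continuous_const.sub continuous_id))
  obtain ⟨p, hp, e⟩ : F ∈ (fun p : ℝ => p ^ α + (1 - p) ^ α) '' Icc 0 (1 / 2) := by
    apply intermediate_value_Icc (by norm_num) hc.continuousOn
    simp only [show (1 : ℝ) - 1 / 2 = 1 / 2 by norm_num, f_half, zero_rpow h₀.ne', sub_zero,
      one_rpow, zero_add]
    exact hF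
  have hex : ∃ p ∈ Icc (0 : ℝ) (1 / 2), binH α p = log F / (1 - α) := ⟨p, hp, by rw [← e]; rfl⟩
  have hmem := Function.invFunOn_mem hex
  have he := Function.invFunOn_eq hex
  change binG α _ ∈ _ at hmem
  change binH α (binG α _) = _ at he
  refine ⟨hmem, ?_⟩
  rw [binH, div_left_inj' hpos.ne'] at he
  exact log_injOn_pos (mem_Ioi.2 (bs_pos α ⟨hmem.1, by linarith [hmem.2]⟩))
    (mem_Ioi.2 (by linarith [hF.1])) he

theorem ent_low {α F : ℝ} (h₁ : α < 1) (hF : F ∈ Icc 1 ((2 : ℝ) ^ (1 - α))) :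
    log F / (1 - α) ∈ Icc 0 (log 2) := by
  have hpos : 0 < 1 - α := by linarith
  refine ⟨div_nonneg (log_nonneg hF.1) hpos.le, ?_⟩
  rw [div_le_iff₀ hpos, mul_comm, ← log_rpow two_pos]
  exact log_le_log (by linarith [hF.1]) hF.2

theorem dual_low {α x : ℝ} (h₁ : α < 1) (hx : x ∈ Icc 1 ((2 : ℝ) ^ (1 - α))) :
    2 ^ (1 - α) / x ∈ Icc 1 ((2 : ℝ) ^ (1 - α)) ∧
      log 2 - log x / (1 - α) = log (2 ^ (1 - α) / x) / (1 - α) := by
  have hpos : 0 < 1 - α := by linarith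
  have p2 := rpow_pos_of_pos (by norm_num : (0 : ℝ) < 2) (1 - α)
  have x0 : 0 < x := by linarith [hx.1]
  refine ⟨⟨(one_le_div x0).2 hx.2, div_le_self p2.le hx.1⟩, ?_⟩
  rw [log_div p2.ne' x0.ne', log_rpow (by norm_num)]
  field_simp [hpos.ne']

theorem branch_low (hL : LIN) (hT : TAN) {α : ℝ} (h₀ : 0 < α) (h₁ : α < 1)
    (σ : ZMod 2 → Matrix n n ℂ) (η : ZMod 2 → Matrix m m ℂ)
    (hσ : ∀ x, (σ x).PosSemidef ∧ trace (σ x) = 1)
    (hη : ∀ x, (η x).PosSemidef ∧ trace (η x) = 1) (B : ℝ)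
    (hB : (Commute (η 0) (η 1) ∧
        B = binH α (bconv (binG α (Hdown α (cq σ))) (binG α (Hdown α (cq η))))) ∨
      ((∃ c : ℝ, ∀ x, η x * η x = c • η x) ∧
        B = Hdown α (cq σ) + Hdown α (cq η) - log 2 + binH α
          (bconv (binG α (log 2 - Hdown α (cq σ))) (binG α (log 2 - Hdown α (cq η)))))) :
    Hdown α (cq σ) ∈ Icc 0 (log 2) ∧ Hdown α (cq η) ∈ Icc 0 (log 2) ∧
      B ≤ Hdown α (combine σ η) := by
  obtain ⟨P, Q, P', Q', hP, hQ, hP', hQ', h, h', e₁, e₂, e₃, c₁, c₂⟩ :=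
    reduce_one f2S h₀ σ η hσ hη
  have hpos : 0 < 1 - α := by linarith
  have p2 := rpow_pos_of_pos (by norm_num : (0 : ℝ) < 2) (1 - α)
  have r₁ := rt_low hL hP hQ h₀ h₁ h
  have r₂ := rt_low hL hP' hQ' h₀ h₁ h'
  have hc := cm_of_pl (pl_of_lin hL hT (Or.inl ⟨h₀, h₁, rfl⟩))
  rw [e₁, e₂] at hB ⊢
  rw [e₃]
  refine ⟨ent_low h₁ r₁, ent_low h₁ r₂, ?_⟩
  rcases hB with ⟨c, rfl⟩ | ⟨c, rfl⟩
  · obtain ⟨ma, ea⟩ := binG_low h₀ h₁ r₁
    obtain ⟨mb, eb⟩ := binG_low h₀ h₁ r₂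
    have := hc n m P Q P' Q' hP hQ hP' hQ' h h' (c₁ c) _ ma _ mb ea.symm eb.symm
    rw [neg_one_mul, neg_one_mul, neg_le_neg_iff] at this
    exact div_le_div_of_nonneg_right (log_le_log (bs_pos α (bconv_mem ma mb)) this) hpos.le
  · obtain ⟨dF, eF⟩ := dual_low h₁ r₁
    obtain ⟨dG, eG⟩ := dual_low h₁ r₂
    rw [eF, eG]
    obtain ⟨ma, ea⟩ := binG_low h₀ h₁ dF
    obtain ⟨mb, eb⟩ := binG_low h₀ h₁ dG
    have F0 : 0 < tp α P + tp α Q := by linarith [r₁.1]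
    have G0 : 0 < tp α P' + tp α Q' := by linarith [r₂.1]
    have y0 := bs_pos α (bconv_mem ma mb)
    have := dm_of_cm h₀ hc n m P Q P' Q' hP hQ hP' hQ' h h' (c₂ c) _ ma _ mb
      (by rw [ea]; field_simp) (by rw [eb]; field_simp)
    rw [neg_one_mul, neg_one_mul, neg_le_neg_iff] at this
    refine le_of_eq_of_le ?_ (div_le_div_of_nonneg_right
      (log_le_log (mul_pos (div_pos (mul_pos F0 G0) p2) y0) this) hpos.le)
    rw [log_mul (by positivity) y0.ne', log_div (by positivity) p2.ne',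
      log_mul F0.ne' G0.ne', log_rpow (by norm_num)]
    unfold binH bs
    field_simp [hpos.ne']

theorem branch_high (hL : LIN) (hT : TAN) {α : ℝ} (h₃ : 3 ≤ α)
    (σ : ZMod 2 → Matrix n n ℂ) (η : ZMod 2 → Matrix m m ℂ)
    (hσ : ∀ x, (σ x).PosSemidef ∧ trace (σ x) = 1)
    (hη : ∀ x, (η x).PosSemidef ∧ trace (η x) = 1) (B : ℝ)
    (hB : (Commute (η 0) (η 1) ∧
        B = binH α (bconv (binG α (Hdown α (cq σ))) (binG α (Hdown α (cq η))))) ∨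
      ((∃ c : ℝ, ∀ x, η x * η x = c • η x) ∧
        B = Hdown α (cq σ) + Hdown α (cq η) - log 2 + binH α
          (bconv (binG α (log 2 - Hdown α (cq σ))) (binG α (log 2 - Hdown α (cq η)))))) :
    Hdown α (cq σ) ∈ Icc 0 (log 2) ∧ Hdown α (cq η) ∈ Icc 0 (log 2) ∧
      B ≤ Hdown α (combine σ η) := by
  obtain ⟨a, b, K, x, K0, x0, e, e', H⟩ := glue_one f2S (by linarith) σ η hσ hη B hB
  have c := cm_of_pl (pl_of_lin hL hT (Or.inr ⟨h₃, rfl⟩))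
  have := H 1 c (dm_of_cm (by linarith) c)
  rw [e, e']
  exact ⟨a, b, div_le_div_of_nonpos_of_le (by linarith) (log_le_log K0 (by linarith))⟩

end Pool.Agent.MP_560646_mp.One
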