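import Pool.Agent.MP_560646_mp.Hz.As
import Pool.Agent.MP_560646_mp.Hz.Gl
import Pool.Agent.MP_560646_mp.Hz.Ct

/-! The bound for all orders when one side is classical or flat. -/

set_option autoImplicit false

namespace Pool.Agent.MP_560646_mp.One

open Matrix Kronecker Real Set
open scoped ComplexOrder MatrixOrder

variable {n m : Type} [Fintype n] [DecidableEq n] [Fintype m] [DecidableEq m]

theorem renyi_high (hK : K6S) {α : ℝ} (h₄ : 4 ≤ α) (σ : ZMod 2 → Matrix n n ℂ)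
    (η : ZMod 2 → Matrix m m ℂ) (hσ : ∀ x, (σ x).PosSemidef ∧ trace (σ x) = 1)
    (hη : ∀ x, (η x).PosSemidef ∧ trace (η x) = 1)
    (h : Commute (η 0) (η 1) ∨ ∃ c : ℝ, ∀ x, η x * η x = c • η x) :
    Hdown α (cq σ) ∈ Icc 0 (log 2) ∧ Hdown α (cq η) ∈ Icc 0 (log 2) ∧
      bound α (Hdown α (cq σ)) (Hdown α (cq η)) ≤ Hdown α (combine σ η) := by
  have hα : 1 < α := by linarith
  have hc : CP α 1 := by
    have := hK (α - 1) (by linarith)
    rwa [sub_add_cancel] at this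
  rcases h with h | h
  · obtain ⟨a, b, c⟩ := branch_high lin_all tanS (by linarith) σ η hσ hη _ (Or.inl ⟨h, rfl⟩)
    refine ⟨a, b, ?_⟩
    unfold bound
    split_ifs with k
    · exact c
    · have := cmp_ent hα (H₁ := log 2 - Hdown α (cq σ)) (H₂ := log 2 - Hdown α (cq η))
        ⟨by linarith [a.2], by linarith [a.1]⟩ ⟨by linarith [b.2], by linarith [b.1]⟩ (by linarith)
      rw [sub_sub_cancel, sub_sub_cancel] at this
      linarith [this.1 hc]
  · obtain ⟨a, b, c⟩ := branch_high lin_all tanS (by linarith) σ η hσ hη _ (Or.inr ⟨h, rfl⟩)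
    refine ⟨a, b, ?_⟩
    unfold bound
    split_ifs with k
    · exact ((cmp_ent hα a b k).1 hc).trans c
    · exact c

theorem renyi_low {α : ℝ} (h₀ : 0 < α) (h₁ : α < 1) (σ : ZMod 2 → Matrix n n ℂ)
    (η : ZMod 2 → Matrix m m ℂ) (hσ : ∀ x, (σ x).PosSemidef ∧ trace (σ x) = 1)
    (hη : ∀ x, (η x).PosSemidef ∧ trace (η x) = 1)
    (h : (Commute (η 0) (η 1) ∧ Hdown α (cq σ) + Hdown α (cq η) ≤ log 2) ∨
      ((∃ c : ℝ, ∀ x, η x * η x = c • η x) ∧ log 2 ≤ Hdown α (cq σ) + Hdown α (cq η))) :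
    Hdown α (cq σ) ∈ Icc 0 (log 2) ∧ Hdown α (cq η) ∈ Icc 0 (log 2) ∧
      bound α (Hdown α (cq σ)) (Hdown α (cq η)) ≤ Hdown α (combine σ η) := by
  rcases h with ⟨h, k⟩ | ⟨h, k⟩
  · obtain ⟨a, b, c⟩ := branch_low lin_all tanS h₀ h₁ σ η hσ hη _ (Or.inl ⟨h, rfl⟩)
    exact ⟨a, b, by rwa [bound, if_pos k]⟩
  · obtain ⟨a, b, c⟩ := branch_low lin_all tanS h₀ h₁ σ η hσ hη _ (Or.inr ⟨h, rfl⟩)
    refine ⟨a, b, ?_⟩
    unfold bound
    split_ifs with k'
    · rw [show log 2 - Hdown α (cq σ) = Hdown α (cq η) by linarith,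
        show log 2 - Hdown α (cq η) = Hdown α (cq σ) by linarith,
        show Hdown α (cq σ) + Hdown α (cq η) - log 2 = 0 by linarith, zero_add] at c
      refine le_of_eq_of_le ?_ c
      congr 1
      unfold bconv
      ring
    · exact c

theorem renyi_all (hK : K6S) {α : ℝ} (h₀ : 0 < α) (h₁ : α ≠ 1) (σ : ZMod 2 → Matrix n n ℂ)
    (η : ZMod 2 → Matrix m m ℂ) (hσ : ∀ x, (σ x).PosSemidef ∧ trace (σ x) = 1)
    (hη : ∀ x, (η x).PosSemidef ∧ trace (η x) = 1)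
    (h : (Commute (η 0) (η 1) ∧ (1 < α ∨ Hdown α (cq σ) + Hdown α (cq η) ≤ log 2)) ∨
      ((∃ c : ℝ, ∀ x, η x * η x = c • η x) ∧
        (1 < α ∨ log 2 ≤ Hdown α (cq σ) + Hdown α (cq η)))) :
    Hdown α (cq σ) ∈ Icc 0 (log 2) ∧ Hdown α (cq η) ∈ Icc 0 (log 2) ∧
      (α ≤ 2 ∨ 3 ≤ α → bound α (Hdown α (cq σ)) (Hdown α (cq η)) ≤ Hdown α (combine σ η)) ∧
      (2 ≤ α → α ≤ 3 → Hdown α (combine σ η) ≤ bound α (Hdown α (cq σ)) (Hdown α (cq η))) := by
  rcases lt_or_gt_of_ne h₁ with l | l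
  · obtain ⟨a, b, c⟩ := renyi_low h₀ l σ η hσ hη (h.imp
      (fun r => ⟨r.1, r.2.resolve_left (by linarith)⟩) (fun r => ⟨r.1, r.2.resolve_left (by linarith)⟩))
    exact ⟨a, b, fun _ => c, fun r => absurd r (by linarith)⟩
  · have h' := h.imp And.left And.left
    rcases lt_or_ge α 4 with r | r
    · exact renyi_one_sided l r σ η hσ hη h'
    · obtain ⟨a, b, c⟩ := renyi_high hK r σ η hσ hη h'
      exact ⟨a, b, fun _ => c, fun _ s => absurd s (by linarith)⟩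

end Pool.Agent.MP_560646_mp.One
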