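import Pool.Agent.MP_560646_mp.Hz.St

/-! The integral that picks out a root in the right half plane. -/

set_option autoImplicit false

namespace Pool.Agent.MP_560646_mp.One

open Real Set MeasureTheory Filter Topology

theorem h1_bd (κ : ℂ) (η B x : ℝ) (hη : 0 < η) (h : η * ‖κ‖ ≤ |κ.re|) (hB : ‖κ‖ ≤ B) (hx : 0 < x) :
    ‖κ ^ 2 / (κ ^ 2 + (x : ℂ) ^ 2)‖ ≤ 2 / η ^ 2 * (B ^ 2 / (B ^ 2 + x ^ 2)) := by
  rcases eq_or_ne κ 0 with rfl | h0
  · rw [zero_pow two_ne_zero, zero_div, norm_zero]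
    positivity
  have hn := norm_pos_iff.2 h0
  have h1 : η ≤ 1 := le_of_mul_le_mul_right (by linarith [Complex.abs_re_le_norm κ]) hn
  have h2 : ‖κ‖ ^ 2 = κ.re ^ 2 + κ.im ^ 2 := by
    rw [Complex.sq_norm, Complex.normSq_apply]
    ring
  have h3 : η ^ 2 * ‖κ‖ ^ 2 ≤ κ.re ^ 2 := by
    rw [← mul_pow, ← sq_abs κ.re]
    exact pow_le_pow_left₀ (by positivity) h 2
  have h4 : η * (‖κ‖ ^ 2 + x ^ 2) ≤ ‖κ ^ 2 + (x : ℂ) ^ 2‖ := by
    have e : ‖κ ^ 2 + (x : ℂ) ^ 2‖ ^ 2 = (‖κ‖ ^ 2 + x ^ 2) ^ 2 - 4 * κ.im ^ 2 * x ^ 2 := by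
      rw [h2, Complex.sq_norm, Complex.normSq_apply, ← Complex.ofReal_pow]
      simp only [sq κ, Complex.add_re, Complex.add_im, Complex.mul_re, Complex.mul_im,
        Complex.ofReal_re, Complex.ofReal_im]
      ring
    rw [← sq_le_sq₀ (by positivity) (norm_nonneg _), e]
    have h5 : 0 ≤ 1 - η ^ 2 := by nlinarith
    have h6 := mul_le_mul_of_nonneg_right (show κ.im ^ 2 ≤ (1 - η ^ 2) * ‖κ‖ ^ 2 by linarith)
      (sq_nonneg x)
    nlinarith [mul_nonneg h5 (sq_nonneg (‖κ‖ ^ 2 - x ^ 2))]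
  have h7 : ‖κ‖ ^ 2 / (‖κ‖ ^ 2 + x ^ 2) ≤ B ^ 2 / (B ^ 2 + x ^ 2) := by
    rw [div_le_div_iff₀ (by positivity) (by positivity)]
    nlinarith [mul_le_mul_of_nonneg_right (pow_le_pow_left₀ hn.le hB 2) (sq_nonneg x)]
  have h8 : 1 / η ≤ 2 / η ^ 2 := by
    rw [div_le_div_iff₀ hη (by positivity)]
    nlinarith
  rw [norm_div, norm_pow]
  calc _ ≤ ‖κ‖ ^ 2 / (η * (‖κ‖ ^ 2 + x ^ 2)) := by gcongr
    _ = 1 / η * (‖κ‖ ^ 2 / (‖κ‖ ^ 2 + x ^ 2)) := by field_simp
    _ ≤ _ := by gcongr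

theorem h1_int {κ : ℂ} (h : κ.re ≠ 0) :
    IntegrableOn (fun x : ℝ => κ ^ 2 / (κ ^ 2 + (x : ℂ) ^ 2)) (Ioi 0) := by
  have hn : 0 < ‖κ‖ := (abs_pos.2 h).trans_le (Complex.abs_re_le_norm κ)
  refine Integrable.mono' ((integrable_inv_one_add_sq.comp_div hn.ne').const_mul
    (2 / (|κ.re| / ‖κ‖) ^ 2)).integrableOn (Measurable.aestronglyMeasurable (by fun_prop))
    ((ae_restrict_iff' measurableSet_Ioi).2 (Eventually.of_forall fun x hx => ?_))
  refine (h1_bd κ _ _ x (div_pos (abs_pos.2 h) hn) (div_mul_cancel₀ _ hn.ne').le le_rfl hx).trans_eq ?_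
  congr 1
  field_simp

theorem h1_val {κ : ℂ} (h : 0 < κ.re) :
    ∫ x in Ioi (0 : ℝ), κ ^ 2 / (κ ^ 2 + (x : ℂ) ^ 2) = π * κ / 2 := by
  have p : ∀ x : ℝ, κ + Complex.I * x ∈ Complex.slitPlane := fun x => Or.inl (by simpa using h)
  have m : ∀ x : ℝ, κ - Complex.I * x ∈ Complex.slitPlane := fun x => Or.inl (by simpa using h)
  have hd : ∀ x : ℝ, HasDerivAt (fun x : ℝ => κ / (2 * Complex.I) *
      (Complex.log (κ + Complex.I * x) - Complex.log (κ - Complex.I * x)))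
      (κ ^ 2 / (κ ^ 2 + (x : ℂ) ^ 2)) x := fun x => by
    have d : HasDerivAt (fun x : ℝ => Complex.I * x) (Complex.I * 1) x :=
      (hasDerivAt_id (x : ℂ)).comp_ofReal.const_mul _
    refine ((((d.const_add κ).clog_real (p x)).sub ((d.const_sub κ).clog_real (m x))).const_mul
      _).congr_deriv ?_
    have e : κ ^ 2 + (x : ℂ) ^ 2 = (κ + Complex.I * x) * (κ - Complex.I * x) := by
      linear_combination (x : ℂ) ^ 2 * Complex.I_sq
    have p0 := Complex.slitPlane_ne_zero (p x)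
    have m0 := Complex.slitPlane_ne_zero (m x)
    rw [e]
    field_simp
    ring
  have t0 : Tendsto (fun x : ℝ => κ * ((x⁻¹ : ℝ) : ℂ)) atTop (𝓝 0) := by
    simpa using ((Complex.continuous_ofReal.tendsto 0).comp tendsto_inv_atTop_zero).const_mul κ
  have t1 := (continuousAt_clog (x := 0 + Complex.I) (Or.inr (by simp))).tendsto.comp
    (t0.add_const _)
  have t2 := (continuousAt_clog (x := 0 - Complex.I) (Or.inr (by simp))).tendsto.comp
    (t0.sub_const _)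
  have t3 := ((t1.sub t2).const_mul (κ / (2 * Complex.I))).congr' (f₂ := fun x : ℝ =>
      κ / (2 * Complex.I) * (Complex.log (κ + Complex.I * x) - Complex.log (κ - Complex.I * x))) (by
    filter_upwards [eventually_gt_atTop 0] with x hx
    have x0 : (x : ℂ) ≠ 0 := Complex.ofReal_ne_zero.2 hx.ne'
    have e1 : κ + Complex.I * x = x * (κ * ((x⁻¹ : ℝ) : ℂ) + Complex.I) := by
      push_cast
      field_simp
    have e2 : κ - Complex.I * x = x * (κ * ((x⁻¹ : ℝ) : ℂ) - Complex.I) := by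
      push_cast
      field_simp
    have p0 := Complex.slitPlane_ne_zero (p x)
    have m0 := Complex.slitPlane_ne_zero (m x)
    rw [e1] at p0 ⊢
    rw [e2] at m0 ⊢
    rw [Complex.log_ofReal_mul hx (right_ne_zero_of_mul p0),
      Complex.log_ofReal_mul hx (right_ne_zero_of_mul m0), add_sub_add_left_eq_sub]
    rfl)
  rw [integral_Ioi_of_hasDerivAt_of_tendsto' (fun x _ => hd x) (h1_int h.ne') t3, zero_add,
    zero_sub, Complex.log_I, Complex.log_neg_I]
  simp only [Complex.ofReal_zero, mul_zero, add_zero, sub_zero, sub_self]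
  field_simp
  ring

theorem h1S : H1S := by
  refine ⟨fun κ h => ?_, h1_bd⟩
  have hp : (π : ℂ) ≠ 0 := Complex.ofReal_ne_zero.2 pi_ne_zero
  rcases h with h | rfl
  · refine ⟨h1_int h, ?_⟩
    rcases h.lt_or_gt with h | h
    · have e := h1_val (κ := -κ) (by simpa using h)
      rw [neg_sq] at e
      rw [e, if_neg h.not_gt]
      field_simp
      ring
    · rw [h1_val h, if_pos h]
      field_simp
      ring
  · simp

end Pool.Agent.MP_560646_mp.One
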