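import Pool.Agent.MP_560646_mp.Hz.St

set_option autoImplicit false

namespace Pool.Agent.MP_560646_mp.One

open Matrix Real Set MeasureTheory Metric Filter Topology

lemma h10_pos {α : ℝ} (hα : 0 < α) (x : ℝ) :
    HasDerivAt (fun y : ℝ => max y 0 ^ (α + 1)) ((α + 1) * max x 0 ^ α) x := by
  have h1 : ∀ y : ℝ, HasDerivAt (fun y : ℝ => y ^ (α + 1)) ((α + 1) * y ^ α) y := by
    intro y
    have := Real.hasDerivAt_rpow_const (x := y) (p := α + 1) (Or.inr (by linarith))
    rwa [add_sub_cancel_right] at this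
  have h2 : ∀ y : ℝ, y ≤ 0 → max y 0 ^ (α + 1) = 0 := fun y hy => by
    rw [max_eq_right hy, Real.zero_rpow (by linarith)]
  rcases lt_trichotomy x 0 with h | h | h
  · rw [max_eq_right h.le, Real.zero_rpow hα.ne', mul_zero]
    refine (hasDerivAt_const x (0 : ℝ)).congr_of_eventuallyEq ?_
    filter_upwards [Iio_mem_nhds h] with y hy
    exact h2 y (le_of_lt hy)
  · subst h
    have a1 : HasDerivWithinAt (fun y : ℝ => max y 0 ^ (α + 1)) ((α + 1) * max (0 : ℝ) 0 ^ α)
        (Iic 0) 0 := by
      rw [max_self, Real.zero_rpow hα.ne', mul_zero]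
      exact (hasDerivAt_const (0 : ℝ) (0 : ℝ)).hasDerivWithinAt.congr (fun y hy => h2 y hy)
        (h2 0 le_rfl)
    have a2 : HasDerivWithinAt (fun y : ℝ => max y 0 ^ (α + 1)) ((α + 1) * max (0 : ℝ) 0 ^ α)
        (Ici 0) 0 := by
      rw [max_self]
      exact (h1 0).hasDerivWithinAt.congr (fun y hy => by rw [max_eq_left hy])
        (by rw [max_self])
    have a3 := a1.union a2
    rwa [Iic_union_Ici, hasDerivWithinAt_univ] at a3
  · rw [max_eq_left h.le]
    refine (h1 x).congr_of_eventuallyEq ?_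
    filter_upwards [Ioi_mem_nhds h] with y hy
    rw [max_eq_left (le_of_lt hy)]

theorem h10S : H10S := by
  intro α c e hα hc he
  have hp : ∀ u ∈ uIcc (0 : ℝ) 1, 0 < 1 + c * u := by
    intro u hu
    rw [uIcc_of_le zero_le_one] at hu
    rcases le_total 0 c with h | h
    · have := mul_nonneg h hu.1
      linarith
    · have := mul_le_mul_of_nonpos_left hu.2 h
      linarith
  have hb : 0 < c + 2 - e := by linarith
  have hd : ∀ u ∈ uIcc (0 : ℝ) 1, HasDerivAt
      (fun u : ℝ => (1 + c * u) ^ (-α - 1) * max (1 + u * (e - 2)) 0 ^ (α + 1))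
      (-((c + 2 - e) * (α + 1)) * ((1 + c * u) ^ (-α - 2) * max (1 + u * (e - 2)) 0 ^ α)) u := by
    intro u hu
    have a0 := hp u hu
    have a1 : HasDerivAt (fun u : ℝ => 1 + c * u) c u := by
      simpa using ((hasDerivAt_id u).const_mul c).const_add 1
    have a2 : HasDerivAt (fun u : ℝ => 1 + u * (e - 2)) (e - 2) u := by
      simpa using ((hasDerivAt_id u).mul_const (e - 2)).const_add 1
    have a3 := a1.rpow_const (p := -α - 1) (Or.inl a0.ne')
    have a4 := (h10_pos hα (1 + u * (e - 2))).comp u a2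
    refine (a3.mul a4).congr_deriv ?_
    have e1 : -α - 1 - 1 = -α - 2 := by ring
    have e2 : (1 + c * u) ^ (-α - 1) = (1 + c * u) ^ (-α - 2) * (1 + c * u) := by
      rw [← Real.rpow_add_one a0.ne']
      congr 1
      ring
    simp only [Function.comp]
    rw [e1, e2]
    rcases le_total (1 + u * (e - 2)) 0 with h | h
    · rw [max_eq_right h, Real.zero_rpow hα.ne', Real.zero_rpow (by linarith : α + 1 ≠ 0)]
      ring
    · rw [max_eq_left h, Real.rpow_add_one' h (by linarith)]
      ring
  have hi : IntervalIntegrable (fun u : ℝ => -((c + 2 - e) * (α + 1)) *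
      ((1 + c * u) ^ (-α - 2) * max (1 + u * (e - 2)) 0 ^ α)) volume 0 1 := by
    refine ContinuousOn.intervalIntegrable (continuousOn_const.mul (ContinuousOn.mul ?_ ?_))
    · exact ContinuousOn.rpow_const (by fun_prop) fun u hu => Or.inl (hp u hu).ne'
    · exact ContinuousOn.rpow_const (by fun_prop) fun u _ => Or.inr hα.le
  have h1 := intervalIntegral.integral_eq_sub_of_hasDerivAt hd hi
  rw [intervalIntegral.integral_const_mul, max_eq_right (by linarith : 1 + 1 * (e - 2) ≤ 0),
    Real.zero_rpow (by linarith : α + 1 ≠ 0)] at h1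
  simp only [mul_zero, zero_mul, add_zero, Real.one_rpow, zero_le_one, max_eq_left, mul_one] at h1
  refine eq_inv_of_mul_eq_one_left ?_
  linarith

end Pool.Agent.MP_560646_mp.One
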