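import Pool.Agent.MP_560646_mp.Hz.Lt

/-! The defect of the Frank equation changes sign at most once. -/

set_option autoImplicit false

namespace Pool.Agent.MP_560646_mp.One

open Real Set

noncomputable def l5_w (α θ x : ℝ) : ℝ := mu α x * (kk α x / 2) ^ θ

theorem l5_K (h0 : L0S) {α : ℝ} (hα : α ∈ Ioo (0 : ℝ) 1) (θ : ℝ) {x : ℝ}
    (hx : x ∈ Ioo (0 : ℝ) 1) :
    0 < l5_w α θ x ∧ HasDerivAt (fun x => (kk α x / 2) ^ θ) (-(θ * l5_w α θ x / x)) x ∧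
      HasDerivAt (l5_w α θ) (l5_w α θ x * (ka α x - θ * mu α x) / x) x := by
  obtain ⟨m0, d1, d2, -⟩ := (h0 α hα).2.2 x hx
  have hk := kk_pos α hx.1.le hx.2.le
  have hk2 : 0 < kk α x / 2 := by linarith
  have hx0 := hx.1.ne'
  have hK : HasDerivAt (fun x => (kk α x / 2) ^ θ) (-(θ * l5_w α θ x / x)) x := by
    refine ((d1.div_const 2).rpow_const (p := θ) (Or.inl hk2.ne')).congr_deriv ?_
    rw [l5_w, rpow_sub_one hk2.ne']
    field_simp
  refine ⟨mul_pos m0 (rpow_pos_of_pos hk2 θ), hK, (d2.mul hK).congr_deriv ?_⟩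
  rw [l5_w]
  field_simp
  ring

theorem l5_mul {x y : ℝ} (hx : x ∈ Ioo (0 : ℝ) 1) (hy : y ∈ Ioo (0 : ℝ) 1) :
    x * y ∈ Ioo (0 : ℝ) 1 :=
  ⟨mul_pos hx.1 hy.1, mul_lt_one_of_nonneg_of_lt_one_left hx.1.le hx.2 hy.2.le⟩

theorem l5_f (h0 : L0S) {α : ℝ} (hα : α ∈ Ioo (0 : ℝ) 1) (θ : ℝ) {x y : ℝ}
    (hx : x ∈ Ioo (0 : ℝ) 1) (hy : y ∈ Ioo (0 : ℝ) 1) :
    HasDerivAt (fun x => de θ α x y) (θ * l5_w α θ x / x *
      ((1 - (kk α 1 / 2) ^ θ) * (l5_w α θ (x * y) / l5_w α θ x) - (1 - (kk α y / 2) ^ θ))) x ∧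
    HasDerivAt (fun x => l5_w α θ (x * y) / l5_w α θ x) (l5_w α θ (x * y) / l5_w α θ x / x *
      ((ka α (x * y) - θ * mu α (x * y)) - (ka α x - θ * mu α x))) x := by
  obtain ⟨w1, a1, b1⟩ := l5_K h0 hα θ hx
  obtain ⟨w2, a2, b2⟩ := l5_K h0 hα θ (l5_mul hx hy)
  have hm : HasDerivAt (fun x => x * y) y x := hasDerivAt_mul_const y
  have hx0 := hx.1.ne'
  have hy0 := hy.1.ne'
  have hw := w1.ne'
  constructor
  · refine ((((a2.comp x hm).const_sub 1).mul_const _).sub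
      ((a1.const_sub 1).mul_const _)).congr_deriv ?_
    field_simp
  · refine ((b2.comp x hm).div b1 hw).congr_deriv ?_
    simp only [Function.comp]
    field_simp

theorem l5S (h0 : L0S) (h4 : L4S) : L5S := by
  intro α hα θ hθ y hy x x' hx hxx hx' h
  by_contra hn
  rw [not_le] at hn
  have hlt : x < x' := lt_of_le_of_ne hxx fun e => by
    rw [e] at h
    linarith
  obtain ⟨ck, ak, -⟩ := h0 α hα
  have cK : Continuous fun x => (kk α x / 2) ^ θ :=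
    (ck.div_const 2).rpow_const fun _ => Or.inr hθ.le
  have cf : Continuous fun x => de θ α x y :=
    ((continuous_const.sub (cK.comp (continuous_id.mul continuous_const))).mul
      continuous_const).sub ((continuous_const.sub cK).mul continuous_const)
  have f0 : de θ α 0 y = 0 := by simp [de, kk_zero]
  have f1 : de θ α 1 y = 0 := by
    rw [de, one_mul, mul_comm, sub_self]
  have hc : 0 < 1 - (kk α 1 / 2) ^ θ := by
    have e1 := ak ⟨le_rfl, zero_le_one⟩ ⟨zero_le_one, le_rfl⟩ zero_lt_one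
    rw [kk_zero] at e1
    have e2 := kk_pos α zero_le_one le_rfl
    exact sub_pos.2 (rpow_lt_one (by linarith) (by linarith) hθ)
  have mv : ∀ a b : ℝ, 0 ≤ a → a < b → b ≤ 1 → ∃ z ∈ Ioo a b, ∃ u : ℝ, 0 < u ∧
      u * ((1 - (kk α 1 / 2) ^ θ) * (l5_w α θ (z * y) / l5_w α θ z) - (1 - (kk α y / 2) ^ θ)) =
        de θ α b y - de θ α a y := by
    intro a b ha hab hb
    obtain ⟨z, hz, e⟩ := exists_hasDerivAt_eq_slope (fun x => de θ α x y) _ hab cf.continuousOn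
      fun z hz => (l5_f h0 hα θ ⟨ha.trans_lt hz.1, hz.2.trans_le hb⟩ hy).1
    have hz' : z ∈ Ioo (0 : ℝ) 1 := ⟨ha.trans_lt hz.1, hz.2.trans_le hb⟩
    refine ⟨z, hz, (b - a) * (θ * l5_w α θ z / z),
      mul_pos (sub_pos.2 hab) (div_pos (mul_pos hθ (l5_K h0 hα θ hz').1) hz'.1), ?_⟩
    rw [mul_assoc, e, mul_div_cancel₀ _ (sub_pos.2 hab).ne']
  have mr : ∀ a b : ℝ, 0 < a → a < b → b < 1 → ∃ z ∈ Ioo a b, ∃ u : ℝ, 0 < u ∧
      u * ((ka α (z * y) - θ * mu α (z * y)) - (ka α z - θ * mu α z)) =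
        l5_w α θ (b * y) / l5_w α θ b - l5_w α θ (a * y) / l5_w α θ a := by
    intro a b ha hab hb
    obtain ⟨z, hz, e⟩ := exists_hasDerivAt_eq_slope (fun x => l5_w α θ (x * y) / l5_w α θ x) _ hab
      (fun z hz => (l5_f h0 hα θ ⟨ha.trans_le hz.1, hz.2.trans_lt hb⟩
        hy).2.continuousAt.continuousWithinAt)
      fun z hz => (l5_f h0 hα θ ⟨ha.trans hz.1, hz.2.trans hb⟩ hy).2
    have hz' : z ∈ Ioo (0 : ℝ) 1 := ⟨ha.trans hz.1, hz.2.trans hb⟩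
    refine ⟨z, hz, (b - a) * (l5_w α θ (z * y) / l5_w α θ z / z),
      mul_pos (sub_pos.2 hab) (div_pos (div_pos (l5_K h0 hα θ (l5_mul hz' hy)).1
        (l5_K h0 hα θ hz').1) hz'.1), ?_⟩
    rw [mul_assoc, e, mul_div_cancel₀ _ (sub_pos.2 hab).ne']
  obtain ⟨z1, hz1, u1, p1, e1⟩ := mv 0 x le_rfl hx (by linarith)
  obtain ⟨z2, hz2, u2, p2, e2⟩ := mv x x' hx.le hlt hx'.le
  obtain ⟨z3, hz3, u3, p3, e3⟩ := mv x' 1 (by linarith) hx' le_rfl
  have s1 := (mul_nonneg_iff_of_pos_left p1).1 (e1.ge.trans' (by linarith))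
  have s2 := neg_of_mul_neg_right (e2.trans_lt (by linarith)) p2.le
  have s3 := (mul_pos_iff_of_pos_left p3).1 (e3.ge.trans_lt' (by linarith))
  have r1 : l5_w α θ (z2 * y) / l5_w α θ z2 < l5_w α θ (z1 * y) / l5_w α θ z1 :=
    lt_of_mul_lt_mul_left (by linarith) hc.le
  have r2 : l5_w α θ (z2 * y) / l5_w α θ z2 < l5_w α θ (z3 * y) / l5_w α θ z3 :=
    lt_of_mul_lt_mul_left (by linarith) hc.le
  obtain ⟨s, hs, v1, q1, g1⟩ := mr z1 z2 hz1.1 (hz1.2.trans hz2.1) (hz2.2.trans hx')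
  obtain ⟨t, ht, v2, q2, g2⟩ := mr z2 z3 (hx.trans hz2.1) (hz2.2.trans hz3.1) hz3.2
  have t1 := neg_of_mul_neg_right (g1.trans_lt (by linarith)) q1.le
  have t2 := (mul_pos_iff_of_pos_left q2).1 (g2.ge.trans_lt' (by linarith))
  have := h4 α hα θ y hy s t (hz1.1.trans hs.1) (hs.2.trans ht.1) (ht.2.trans hz3.2)
    (by linarith)
  linarith

end Pool.Agent.MP_560646_mp.One
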