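import Pool.Agent.MP_560646_mp.One.Cs

/-! Statements for the comparison of the branches at orders below 1. -/

set_option autoImplicit false

namespace Pool.Agent.MP_560646_mp.One

open Real Set

/-- Minus the logarithmic derivative of `kk α` in the logarithm of the variable. -/
noncomputable def mu (α x : ℝ) : ℝ := -(α * x * od (α - 1) x) / kk α x

/-- The logarithmic derivative of `mu α` in the logarithm of the variable. -/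
noncomputable def ka (α x : ℝ) : ℝ :=
  1 + (α - 1) * x * kk (α - 1 - 1) x / od (α - 1) x + mu α x

def mm (α q X : ℝ) : ℝ := (1 + X) * (X - q ^ 2) - α * X * (1 - q ^ 2)

/-- `q` times the derivative of `mm` along `X = q ^ α`. -/
def md (α q X : ℝ) : ℝ :=
  -2 * q ^ 2 + (α - α ^ 2 + (-2 + α + α ^ 2) * q ^ 2) * X + 2 * α * X ^ 2

def n3 (α q X : ℝ) : ℝ := -q ^ 4 +
  ((-2 + 3 * α - α ^ 2) * q + (α - α ^ 2) * q ^ 2 + (2 - α + α ^ 2) * q ^ 3 +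
    (-2 + α + α ^ 2) * q ^ 4) * X +
  (1 - α + (-4 + 4 * α) * q + (4 - 4 * α) * q ^ 3 + (-1 + α) * q ^ 4) * X ^ 2 +
  (2 - α - α ^ 2 + (-2 + α - α ^ 2) * q + (-α + α ^ 2) * q ^ 2 + (2 - 3 * α + α ^ 2) * q ^ 3) *
    X ^ 3 + X ^ 4

/-- `q` times the derivative of `n3` along `X = q ^ α`. -/
def nd (α q X : ℝ) : ℝ := -4 * q ^ 4 +
  ((-2 + α + 2 * α ^ 2 - α ^ 3) * q + (2 * α - α ^ 2 - α ^ 3) * q ^ 2 +
    (6 - α + 2 * α ^ 2 + α ^ 3) * q ^ 3 + (-8 + 2 * α + 5 * α ^ 2 + α ^ 3) * q ^ 4) * X +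
  (2 * α - 2 * α ^ 2 + (-4 - 4 * α + 8 * α ^ 2) * q + (12 - 4 * α - 8 * α ^ 2) * q ^ 3 +
    (-4 + 2 * α + 2 * α ^ 2) * q ^ 4) * X ^ 2 +
  (6 * α - 3 * α ^ 2 - 3 * α ^ 3 + (-2 - 5 * α + 2 * α ^ 2 - 3 * α ^ 3) * q +
    (-2 * α - α ^ 2 + 3 * α ^ 3) * q ^ 2 + (6 - 3 * α - 6 * α ^ 2 + 3 * α ^ 3) * q ^ 3) * X ^ 3 +
  4 * α * X ^ 4

noncomputable def mq (α q : ℝ) : ℝ := α / 2 * ((1 - q) * (q ^ α - q) / (q * (1 + q ^ α)))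

noncomputable def kq (α q : ℝ) : ℝ :=
  (1 + q) * mm α q (q ^ α) / (2 * q * (q ^ α - q) * (1 + q ^ α))

noncomputable def rq (α q : ℝ) : ℝ := n3 α q (q ^ α) / (α * (q ^ α - q) ^ 2 * mm α q (q ^ α))

/-- The defect of the Frank equation with exponent `θ`. -/
noncomputable def de (θ α x y : ℝ) : ℝ :=
  (1 - (kk α (x * y) / 2) ^ θ) * (1 - (kk α 1 / 2) ^ θ) -
    (1 - (kk α x / 2) ^ θ) * (1 - (kk α y / 2) ^ θ)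

def L0S : Prop := ∀ α ∈ Ioo (0 : ℝ) 1, Continuous (kk α) ∧ StrictAntiOn (kk α) (Icc 0 1) ∧
  ∀ x ∈ Ioo (0 : ℝ) 1, 0 < mu α x ∧ HasDerivAt (kk α) (-(mu α x * kk α x / x)) x ∧
    HasDerivAt (mu α) (mu α x * ka α x / x) x ∧
    mu α x = mq α ((1 - x) / (1 + x)) ∧ ka α x = kq α ((1 - x) / (1 + x))

def L1S : Prop := ∀ α ∈ Ioo (0 : ℝ) 1, ∀ q ∈ Ioo (0 : ℝ) 1, ∀ X : ℝ, X = q ^ α →
  nd α q X * (X - q) * mm α q X ≤ n3 α q X * (2 * (α * X - q) * mm α q X + (X - q) * md α q X)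

def L2S : Prop := ∀ α ∈ Ioo (0 : ℝ) 1, (∀ q ∈ Ioo (0 : ℝ) 1, q < q ^ α ∧ 0 < mm α q (q ^ α)) ∧
  AntitoneOn (rq α) (Ioo 0 1)

def L3S : Prop := ∀ α ∈ Ioo (0 : ℝ) 1, ∀ θ a b c : ℝ, 0 < a → a < b → b < c → c < 1 →
  kq α b - θ * mq α b ≤ max (kq α a - θ * mq α a) (kq α c - θ * mq α c)

def L4S : Prop := ∀ α ∈ Ioo (0 : ℝ) 1, ∀ θ : ℝ, ∀ y ∈ Ioo (0 : ℝ) 1, ∀ s t : ℝ, 0 < s → s < t →
  t < 1 → ka α (s * y) - θ * mu α (s * y) < ka α s - θ * mu α s →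
    ka α (t * y) - θ * mu α (t * y) ≤ ka α t - θ * mu α t

def L5S : Prop := ∀ α ∈ Ioo (0 : ℝ) 1, ∀ θ : ℝ, 0 < θ → ∀ y ∈ Ioo (0 : ℝ) 1, ∀ x x' : ℝ, 0 < x →
  x ≤ x' → x' < 1 → 0 ≤ de θ α x y → 0 ≤ de θ α x' y

def L6S : Prop := ∀ α ∈ Ioo (0 : ℝ) 1, ∀ x ∈ Ioo (0 : ℝ) 1, ∀ y ∈ Ioo (0 : ℝ) 1,
  ∃ θ : ℝ, 0 < θ ∧ de θ α x y = 0

def L7S : Prop := ∀ α ∈ Ioo (0 : ℝ) 1, CP α 1

end Pool.Agent.MP_560646_mp.One
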