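import Pool.Agent.MP_560646_mp.Hz.Un

/-! The two side systems play symmetric roles. -/

set_option autoImplicit false

namespace Pool.Agent.MP_560646_mp.One

open Matrix Kronecker Real Set
open scoped ComplexOrder

section
variable {a k l : Type} [Fintype a] [DecidableEq a] [Fintype k] [DecidableEq k] [Fintype l]
  [DecidableEq l]

theorem sw_cfc (e : k ≃ l) (f : ℝ → ℝ) (M : Matrix l l ℂ) :
    cfc f (M.submatrix e e) = (cfc f M).submatrix e e := by
  by_cases h : IsSelfAdjoint M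
  · let φ : Matrix l l ℂ →⋆ₐ[ℂ] Matrix k k ℂ :=
      { (reindexAlgEquiv ℂ ℂ e.symm).toAlgHom with map_star' := fun _ => rfl }
    exact (φ.map_cfc (R := ℝ) f M (M.finite_real_spectrum.continuousOn f)
      (continuous_id.matrix_submatrix _ _) h (IsHermitian.submatrix h e)).symm
  · have h' : ¬IsSelfAdjoint (M.submatrix e e) := fun h' =>
      h ((isHermitian_submatrix_equiv e).1 h')
    rw [cfc_apply_of_not_predicate M h, cfc_apply_of_not_predicate _ h']
    rfl

theorem sw_hall (e : k ≃ l) (α : ℝ) (ρ : Matrix (a × l) (a × l) ℂ) :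
    Hall α (ρ.submatrix ((Equiv.refl a).prodCongr e) ((Equiv.refl a).prodCongr e)) = Hall α ρ := by
  have m : margB (ρ.submatrix ((Equiv.refl a).prodCongr e) ((Equiv.refl a).prodCongr e)) =
      (margB ρ).submatrix e e := rfl
  have k : ∀ R : Matrix l l ℂ, (1 : Matrix a a ℂ) ⊗ₖ R.submatrix e e =
      ((1 : Matrix a a ℂ) ⊗ₖ R).submatrix ((Equiv.refl a).prodCongr e)
        ((Equiv.refl a).prodCongr e) := fun R => rfl
  have t : ∀ {k l : Type} [Fintype k] [Fintype l] (e : k ≃ l) (M : Matrix l l ℂ),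
      trace (M.submatrix e e) = trace M := fun e M => e.sum_comp fun i => M i i
  simp only [Hall, Hvn, vn, Hdown, mpow, m, sw_cfc, k, submatrix_mul_equiv, t]

theorem sw_comb (σ : ZMod 2 → Matrix k k ℂ) (η : ZMod 2 → Matrix l l ℂ) :
    combine σ η = (combine η σ).submatrix ((Equiv.refl _).prodCongr (Equiv.prodComm k l))
      ((Equiv.refl _).prodCongr (Equiv.prodComm k l)) := by
  ext ⟨x, i, j⟩ ⟨y, i', j'⟩
  simp only [combine, submatrix_apply, Matrix.sum_apply]
  rw [Finset.sum_comm]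
  refine Finset.sum_congr rfl fun u _ => Finset.sum_congr rfl fun v _ => ?_
  simp [add_comm u v, mul_comm (η u j j')]

end

theorem sw_fall (α x y : ℝ) : Fall α x y = Fall α y x := by
  have c : ∀ p q : ℝ, bconv p q = bconv q p := fun p q => by
    unfold bconv
    ring
  rw [Fall, Fall, add_comm x y, c (gall α x), c (gall α (log 2 - x))]

variable {n m : Type} [Fintype n] [DecidableEq n] [Fintype m] [DecidableEq m]

theorem all_sides {α : ℝ} (h₀ : 0 < α) (σ : ZMod 2 → Matrix n n ℂ)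
    (η : ZMod 2 → Matrix m m ℂ) (hσ : ∀ x, (σ x).PosSemidef ∧ trace (σ x) = 1)
    (hη : ∀ x, (η x).PosSemidef ∧ trace (η x) = 1)
    (h : (Commute (σ 0) (σ 1) ∨ ∃ c : ℝ, ∀ x, σ x * σ x = c • σ x) ∨
      (Commute (η 0) (η 1) ∨ ∃ c : ℝ, ∀ x, η x * η x = c • η x)) :
    Hall α (cq σ) ∈ Icc 0 (log 2) ∧ Hall α (cq η) ∈ Icc 0 (log 2) ∧
      (α ≤ 2 ∨ 3 ≤ α → Fall α (Hall α (cq σ)) (Hall α (cq η)) ≤ Hall α (combine σ η)) ∧
      (2 ≤ α → α ≤ 3 → Hall α (combine σ η) ≤ Fall α (Hall α (cq σ)) (Hall α (cq η))) := by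
  rcases h with h | h
  · obtain ⟨a, b, c⟩ := all_orders h₀ η σ hη hσ h
    rw [sw_comb, sw_hall, sw_fall]
    exact ⟨b, a, c⟩
  · exact all_orders h₀ σ η hσ hη h

end Pool.Agent.MP_560646_mp.One
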