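import Pool.Agent.MP_560646_mp.AllDefs
import Pool.Agent.MP_560646_mp.Hz.All
import Pool.Agent.Mg.F560646.G80cfac

/-! All orders together. -/

set_option autoImplicit false

namespace Pool.Agent.MP_560646_mp.One

open Matrix Real Set
open scoped ComplexOrder

variable {n m : Type} [Fintype n] [DecidableEq n] [Fintype m] [DecidableEq m]

theorem vn_mem (σ : ZMod 2 → Matrix n n ℂ) (hσ : ∀ x, (σ x).PosSemidef ∧ trace (σ x) = 1) :
    Hvn (cq σ) ∈ Icc 0 (log 2) := by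
  obtain ⟨hX, hY, t⟩ := state_data hσ
  rw [cq_eq, Hvn_blk hX hY]
  obtain ⟨A, B, A', B', hA, hB, -, -, u, -, e, -⟩ := exists_dual_pair hX hY hX hY t t
  exact ⟨sub_le_self_iff _ |>.1 (e ▸ ce_le hA hB u), ce_le hX hY t⟩

theorem all_orders {α : ℝ} (h₀ : 0 < α) (σ : ZMod 2 → Matrix n n ℂ)
    (η : ZMod 2 → Matrix m m ℂ) (hσ : ∀ x, (σ x).PosSemidef ∧ trace (σ x) = 1)
    (hη : ∀ x, (η x).PosSemidef ∧ trace (η x) = 1)
    (h : Commute (η 0) (η 1) ∨ ∃ c : ℝ, ∀ x, η x * η x = c • η x) :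
    Hall α (cq σ) ∈ Icc 0 (log 2) ∧ Hall α (cq η) ∈ Icc 0 (log 2) ∧
      (α ≤ 2 ∨ 3 ≤ α → Fall α (Hall α (cq σ)) (Hall α (cq η)) ≤ Hall α (combine σ η)) ∧
      (2 ≤ α → α ≤ 3 → Hall α (combine σ η) ≤ Fall α (Hall α (cq σ)) (Hall α (cq η))) := by
  by_cases h₁ : α = 1
  · have e : hall α = binEntropy := funext fun p => if_pos h₁
    simp only [Hall, Fall, gall, e, if_pos h₁]
    exact ⟨vn_mem σ hσ, vn_mem η hη, fun _ => vn_one_sided σ η hσ hη h,
      fun r => absurd r (by rw [h₁]; norm_num)⟩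
  · have e : hall α = binH α := funext fun p => if_neg h₁
    simp only [Hall, Fall, gall, e, if_neg h₁]
    exact renyi_exact cp_high cp_low h₀ h₁ σ η hσ hη h

end Pool.Agent.MP_560646_mp.One
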